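import Mathlib
import Pool.Agent.Lib.MP_5deabe_nt.Cyc
import Pool.Agent.Lib.MP_5deabe_nt.Defs2

/-!
# Degenerate and perfect height pairings
-/

namespace MTate

namespace MTData

variable (D : MTData) (p : ℕ) [Fact p.Prime]

/-- The properties of the Mazur-Tate pairing `⟨P, Q⟩_m ∈ G_m⁺`, `P ∈ E(ℚ)`, `Q ∈ E_S(ℚ)`, which
are used, for all admissible `m`: it is bilinear (here `⟨P, kQ⟩_m = k ⟨P, Q⟩_m = ⟨kP, Q⟩_m`
suffices), symmetric on `E_S(ℚ)`, and it extends to all points: there is an integer `n` prime to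
`p` with `n x_j ∈ E_S(ℚ)` for all `j` (a consequence of (iii)) -/
structure Pairing2 : Prop where
  ext : ∀ m, D.Adm p m → ∃ n : ℕ, p.Coprime n ∧ ∀ j, D.InES m (n • D.x j)
  right : ∀ m, D.Adm p m → ∀ (P Q : EQ D.W) (k : ℕ), D.InES m Q →
    D.pair m P (k • Q) = D.pair m P Q ^ k
  left : ∀ m, D.Adm p m → ∀ (P Q : EQ D.W) (k : ℕ), D.InES m Q →
    D.pair m (k • P) Q = D.pair m P Q ^ k
  symm : ∀ m, D.Adm p m → ∀ P Q : EQ D.W, D.InES m P → D.InES m Q →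
    D.pair m P Q = D.pair m Q P

/-- the height pairing `⟨x_i, x_j⟩_F` of the field `F` given by `f` is degenerate: there are
integers `a_i`, not all divisible by `p`, with `∑ a_i ⟨x_i, x_j⟩_F = 0` in `G` for all `j` (the
pairing is computed with an integer `n` prime to `p` with `n x_j ∈ E_S(ℚ)`) -/
def Degenerate (m : ℕ) {G : Type*} [CommGroup G] (f : Gp m →* G) : Prop :=
  ∃ n : ℕ, p.Coprime n ∧ (∀ j, D.InES m (n • D.x j)) ∧ ∃ a : Fin D.r → ℤ,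
    (∃ i, ¬ (p : ℤ) ∣ a i) ∧ ∀ j, f (∏ i, D.pair m (D.x i) (n • D.x j) ^ a i) = 1

/-- the height pairing `⟨x_i, x_j⟩_F` of the field `F` given by `f` is nondegenerate modulo `p`:
if `∑ a_i ⟨x_i, x_j⟩_F ∈ p G` for all `j` then all `a_i` are divisible by `p` -/
def Perfect (m : ℕ) {G : Type*} [CommGroup G] (f : Gp m →* G) : Prop :=
  ∃ n : ℕ, p.Coprime n ∧ (∀ j, D.InES m (n • D.x j)) ∧ ∀ a : Fin D.r → ℤ,
    (∀ j, ∃ y : G, f (∏ i, D.pair m (D.x i) (n • D.x j) ^ a i) = y ^ p) → ∀ i, (p : ℤ) ∣ a i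

/-- the `r (r + 1) / 2` elements `⟨x_i, x_j⟩_t`, `i ≤ j`, of `G_t⁺` are independent modulo `p` -/
def Independent (t : ℕ) : Prop :=
  ∃ n : ℕ, p.Coprime n ∧ (∀ j, D.InES t (n • D.x j)) ∧ ∀ s : Fin D.r → Fin D.r → ℤ,
    (∃ y, ∏ j, ∏ i ∈ Finset.Iic j, D.pair t (D.x i) (n • D.x j) ^ s i j = y ^ p) →
      ∀ i j, i ≤ j → (p : ℤ) ∣ s i j

/-- **Q1 with another constant**: `θ_{F,S} ∈ I^r` and
`θ_{F,S} ≡ (-1)^{ν(m)} c ∏_{ℓ ∣ m} (#E(𝔽_ℓ)/ℓ) R_F` in `I^r/I^{r+1}` (for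
`c = (#Ш Tam(E) / #E(ℚ)_tors²) ∏_{ℓ ∣ N} #E^ns(𝔽_ℓ)/ℓ` this is Q1) -/
def Q1c (c : ℤ_[p]) (m : ℕ) {G : Type*} [CommGroup G] (f : Gp m →* G) : Prop :=
  ∃ θ : MonoidAlgebra ℤ_[p] G, D.IsTheta p m f θ ∧ θ ∈ augI ℤ_[p] G ^ D.r ∧
    ∀ n : ℕ, p.Coprime n → (∀ j, D.InES m (n • D.x j)) →
      θ - algebraMap ℤ_[p] _ ((-1) ^ m.primeFactors.card *
        (c * ∏ l ∈ m.primeFactors, (nsCard D.W l : ℤ_[p]) * Ring.inverse (l : ℤ_[p]))) *
          D.reg p n m f ∈ augI ℤ_[p] G ^ (D.r + 1)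

/-- the `p`-part of the exponent of `G` divides `p ^ n` -/
def Lev (p n : ℕ) (G : Type*) [CommGroup G] : Prop :=
  ∃ k, p.Coprime k ∧ ∀ g : G, g ^ (p ^ n * k) = 1

/-- **(V)**: `θ_{F,S} ∈ I^{r+1}` for all cyclic fields `F` of degree `p ^ j`, `j ≤ n`, with
degenerate height pairing in which at most `r` primes ramify which do not divide `t` -/
def Vanish (n t : ℕ) : Prop :=
  ∀ m, D.Adm p m → (m.primeFactors \ t.primeFactors).card ≤ D.r →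
    ∀ j ≤ n, ∀ f : Gp m →* Cpn p j, IsField m f → D.Degenerate p m f →
      ∃ θ, D.IsTheta p m f θ ∧ θ ∈ augI ℤ_[p] (Cpn p j) ^ (D.r + 1)

end MTData

end MTate
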