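import Mathlib
import Pool.Agent.Lib.MP_5deabe_nt.Func
import Pool.Agent.Lib.MP_5deabe_nt.Cyc4
import Pool.Agent.Lib.MP_5deabe_nt_DF.Defs3

/-!
# The regulator of a degenerate field lies in `I^{r+1}`

1. `det_mem_of_comb`: `a i0 * det H` is the determinant of the matrix with the row `i0` replaced by
`∑ i, a i • H i` (`Matrix.det_updateRow_sum` or: `updateRow` is linear and
`Matrix.det_updateRow_eq_zero`-type lemmas; see also `Matrix.det_updateRow_sum_aux`); expand
(`Matrix.det_apply`): each product has one factor in `I ^ 2` and `r - 1` factors in `I`.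

2. `of_prod_zpow`: `z g = of g - 1` is additive modulo `I²`: `z (g h) = z g + z h + z g * z h`,
`z 1 = 0`, so also `z (g⁻¹) ≡ - z g`, `z (g ^ a) ≡ a z g` (`a : ℤ`); then induction over the product.

3. `reg_mem_of_degenerate`: apply 1 to `H i j = push f (D.height p n m i j)`, which is
`algebraMap (Ring.inverse n) * (of (f (pair ...)) - 1) ∈ I` (`height_mem`, `push_mem`), and
`a i = algebraMap (a i)` (an integer not divisible by `p` is a unit of `ℤ_[p]`,
`PadicInt.isUnit_iff`, `PadicInt.norm_int_lt_one_iff_dvd` or `isUnit_cast` of `Cyc4` for `natAbs`):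
`∑ i, a i * H i j ≡ algebraMap (Ring.inverse n) * (of (f (∏ i, pair ^ a i)) - 1) = 0` modulo `I²`.
-/

namespace MTate

open MonoidAlgebra

variable {p : ℕ} [hp : Fact p.Prime] {D : MTData}

private theorem DetMem_row {A : Type*} [CommRing A] {I : Ideal A} {r : ℕ}
    (M : Matrix (Fin r) (Fin r) A) (i0 : Fin r) (hM : ∀ i j, M i j ∈ I)
    (h0 : ∀ j, M i0 j ∈ I ^ 2) : M.det ∈ I ^ (r + 1) := by
  rw [Matrix.det_apply]
  refine Ideal.sum_mem _ fun σ _ => ?_
  rw [Units.smul_def]
  refine zsmul_mem ?_ _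
  have h1 : ∏ i, M (σ i) i ∈ ∏ i : Fin r, I ^ (if i = σ.symm i0 then 2 else 1) := by
    refine Ideal.prod_mem_prod fun i _ => ?_
    by_cases hi : i = σ.symm i0
    · rw [if_pos hi, hi, Equiv.apply_symm_apply]
      exact h0 _
    · rw [if_neg hi, pow_one]
      exact hM _ _
  rw [Finset.prod_pow_eq_pow_sum] at h1
  have h2 : ∑ i : Fin r, (if i = σ.symm i0 then 2 else 1) = r + 1 := by
    have h3 : ∀ i : Fin r, (if i = σ.symm i0 then 2 else 1) =
        1 + (if i = σ.symm i0 then 1 else 0) := by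
      intro i
      by_cases hi : i = σ.symm i0
      · rw [if_pos hi, if_pos hi]
      · rw [if_neg hi, if_neg hi]
    rw [Finset.sum_congr rfl fun i _ => h3 i, Finset.sum_add_distrib, Finset.sum_ite_eq']
    simp
  rw [h2] at h1
  exact h1

theorem det_mem_of_comb {A : Type*} [CommRing A] {I : Ideal A} {r : ℕ}
    (H : Matrix (Fin r) (Fin r) A) (hH : ∀ i j, H i j ∈ I) (a : Fin r → A) (i0 : Fin r)
    (ha : IsUnit (a i0)) (h : ∀ j, ∑ i, a i * H i j ∈ I ^ 2) : H.det ∈ I ^ (r + 1) := by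
  have h1 := Matrix.det_updateRow_sum H i0 a
  have h2 : a i0 * H.det ∈ I ^ (r + 1) := by
    have h3 : a i0 * H.det = (H.updateRow i0 (∑ k, a k • H k)).det := by
      rw [h1, smul_eq_mul]
    rw [h3]
    have h4 : ∀ j, (∑ k, a k • H k) j = ∑ i, a i * H i j := by
      intro j
      rw [Finset.sum_apply]
      rfl
    refine DetMem_row _ i0 (fun i j => ?_) fun j => ?_
    · by_cases hi : i = i0
      · rw [hi, Matrix.updateRow_self, h4]
        exact Ideal.sum_mem _ fun k _ => Ideal.mul_mem_left _ _ (hH _ _)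
      · rw [Matrix.updateRow_ne hi]
        exact hH _ _
    · rw [Matrix.updateRow_self, h4]
      exact h j
  exact (Ideal.unit_mul_mem_iff_mem _ ha).1 h2

theorem of_prod_zpow {G : Type*} [CommGroup G] {ι : Type*} [Fintype ι] (g : ι → G) (a : ι → ℤ) :
    (of ℤ_[p] G (∏ i, g i ^ a i) - 1) -
      ∑ i, algebraMap ℤ_[p] (MonoidAlgebra ℤ_[p] G) (a i : ℤ_[p]) * (of ℤ_[p] G (g i) - 1) ∈
        augI ℤ_[p] G ^ 2 := by
  obtain ⟨J, hJ⟩ : ∃ J : Ideal (MonoidAlgebra ℤ_[p] G), J = augI ℤ_[p] G ^ 2 := ⟨_, rfl⟩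
  let φ : G →* Multiplicative (MonoidAlgebra ℤ_[p] G ⧸ J) :=
    { toFun := fun x => Multiplicative.ofAdd (Ideal.Quotient.mk J (of ℤ_[p] G x - 1))
      map_one' := by
        rw [map_one, sub_self, map_zero]
        rfl
      map_mul' := by
        intro x y
        rw [← ofAdd_add, ← map_add]
        congr 1
        rw [Ideal.Quotient.eq, hJ, map_mul]
        have : of ℤ_[p] G x * of ℤ_[p] G y - 1 - (of ℤ_[p] G x - 1 + (of ℤ_[p] G y - 1)) =
            (of ℤ_[p] G x - 1) * (of ℤ_[p] G y - 1) := by ring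
        rw [this, sq]
        exact Ideal.mul_mem_mul (of_sub_one_mem x) (of_sub_one_mem y) }
  have h1 : φ (∏ i, g i ^ a i) = ∏ i, φ (g i) ^ a i := by
    rw [map_prod]
    exact Finset.prod_congr rfl fun i _ => map_zpow φ _ _
  have h2 := congrArg Multiplicative.toAdd h1
  rw [toAdd_prod] at h2
  rw [← hJ, ← Ideal.Quotient.eq, map_sum]
  refine h2.trans (Finset.sum_congr rfl fun i _ => ?_)
  rw [toAdd_zpow]
  show a i • Ideal.Quotient.mk J (of ℤ_[p] G (g i) - 1) = _
  rw [map_intCast, map_mul, map_intCast, zsmul_eq_mul]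

namespace MTData

private theorem DetMem_push (n m : ℕ) {G : Type*} [CommGroup G] (f : Gp m →* G)
    (i j : Fin D.r) : push f (D.height p n m i j) =
      algebraMap ℤ_[p] (MonoidAlgebra ℤ_[p] G) (Ring.inverse (n : ℤ_[p])) *
        (of ℤ_[p] G (f (D.pair m (D.x i) (n • D.x j))) - 1) := by
  unfold height
  rw [map_mul, AlgHom.commutes, map_sub, push_of, map_one]

theorem reg_mem_of_degenerate {n m : ℕ} {G : Type*} [CommGroup G] {f : Gp m →* G}
    {a : Fin D.r → ℤ} (ha : ∃ i, ¬ (p : ℤ) ∣ a i)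
    (h : ∀ j, f (∏ i, D.pair m (D.x i) (n • D.x j) ^ a i) = 1) :
    D.reg p n m f ∈ augI ℤ_[p] G ^ (D.r + 1) := by
  obtain ⟨i0, hi0⟩ := ha
  unfold reg
  refine det_mem_of_comb _ (fun i j => ?_)
    (fun i => algebraMap ℤ_[p] (MonoidAlgebra ℤ_[p] G) (a i : ℤ_[p])) i0 ?_ fun j => ?_
  · rw [Matrix.of_apply, DetMem_push]
    exact Ideal.mul_mem_left _ _ (of_sub_one_mem _)
  · refine IsUnit.map _ ?_
    rw [PadicInt.isUnit_iff]
    refine le_antisymm (PadicInt.norm_le_one _) ?_
    by_contra hcon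
    push Not at hcon
    exact hi0 ((PadicInt.norm_int_lt_one_iff_dvd _).1 hcon)
  · have h1 := of_prod_zpow (p := p) (fun i => f (D.pair m (D.x i) (n • D.x j))) a
    have h2 : ∏ i, f (D.pair m (D.x i) (n • D.x j)) ^ a i = 1 := by
      rw [← h j, map_prod]
      exact Finset.prod_congr rfl fun i _ => (map_zpow f _ _).symm
    rw [h2, map_one, sub_self, zero_sub, neg_mem_iff] at h1
    have h3 : ∑ i, algebraMap ℤ_[p] (MonoidAlgebra ℤ_[p] G) (a i : ℤ_[p]) *
        Matrix.of (fun i j => push f (D.height p n m i j)) i j =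
        algebraMap ℤ_[p] (MonoidAlgebra ℤ_[p] G) (Ring.inverse (n : ℤ_[p])) *
          ∑ i, algebraMap ℤ_[p] (MonoidAlgebra ℤ_[p] G) (a i : ℤ_[p]) *
            (of ℤ_[p] G (f (D.pair m (D.x i) (n • D.x j))) - 1) := by
      rw [Finset.mul_sum]
      refine Finset.sum_congr rfl fun i _ => ?_
      rw [Matrix.of_apply, DetMem_push]
      ring
    rw [h3]
    exact Ideal.mul_mem_left _ _ h1

/-- if `⟨x_i, x_j⟩ = δ_ij γ` then the regulator is `(γ - 1)^r` -/
theorem reg_of_diag {n m : ℕ} (hn : p.Coprime n) {G : Type*} [CommGroup G] {f : Gp m →* G}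
    {g : G} (h : ∀ i j, f (D.pair m (D.x i) (n • D.x j)) = if i = j then g ^ n else 1) :
    D.reg p n m f - (of ℤ_[p] G g - 1) ^ D.r ∈ augI ℤ_[p] G ^ (D.r + 1) := by
  have h0 : D.reg p n m f - (of ℤ_[p] G g - 1) ^ D.r =
      (Matrix.of fun i j => push f (D.height p n m i j)).det -
        (Matrix.diagonal fun _ : Fin D.r => of ℤ_[p] G g - 1).det := by
    rw [Matrix.det_diagonal, Finset.prod_const, Finset.card_univ, Fintype.card_fin]
    rfl
  rw [h0]
  refine (det_cong (I := augI ℤ_[p] G) _ _ fun i j => ?_).2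
  rw [Matrix.of_apply, DetMem_push, h]
  by_cases hij : i = j
  · subst hij
    rw [if_pos rfl, Matrix.diagonal_apply_eq]
    refine ⟨?_, ?_⟩
    · rw [pow_one]
      exact Ideal.mul_mem_left _ _ (of_sub_one_mem _)
    · have h1 := of_prod_zpow (p := p) (fun _ : Unit => g) fun _ => (n : ℤ)
      rw [Finset.univ_unique, Finset.prod_singleton, Finset.sum_singleton, zpow_natCast,
        Int.cast_natCast] at h1
      have h2 : of ℤ_[p] G g - 1 =
          algebraMap ℤ_[p] (MonoidAlgebra ℤ_[p] G) (Ring.inverse (n : ℤ_[p])) *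
            (algebraMap ℤ_[p] (MonoidAlgebra ℤ_[p] G) (n : ℤ_[p]) * (of ℤ_[p] G g - 1)) := by
        rw [← mul_assoc, ← map_mul, Ring.inverse_mul_cancel _ (isUnit_cast hn), map_one, one_mul]
      rw [h2, ← mul_sub]
      exact Ideal.mul_mem_left _ _ h1
  · rw [if_neg hij, Matrix.diagonal_apply_ne _ hij, map_one, sub_self, mul_zero]
    exact ⟨Ideal.zero_mem _, by rw [sub_zero]; exact Ideal.zero_mem _⟩

end MTData

end MTate
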