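import Mathlib
import Pool.Agent.Lib.MP_5deabe_nt.ZeroOne

/-!
# Homomorphisms into cyclic `p`-groups

1. `redC`: the reduction `ℤ/p^n → ℤ/p^j`, `j ≤ n`.

2. `hom_factor_range`: the range of `ω` is a subgroup of the cyclic group `ℤ/p^j`, so it is cyclic
of order `p ^ i`, `i ≤ j` (`Subgroup.card_subgroup_dvd_card`, `Nat.dvd_prime_pow`,
`Subgroup.isCyclic`), so isomorphic to `Cpn p i` (`mulEquivOfCyclicCardEq`).

3. `exists_quot`: `H = G ⧸ (powMonoidHom (p ^ n)).range`, `QuotientGroup.lift`.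

4. `pow_cancel`: `a * b⁻¹` has `n'`-th and `p^n`-th power `1` (`Nat.Coprime` of `n'` and `p ^ n`,
`pow_gcd_eq_one`).

5. `factor_le`: if `φ : G → ℤ/p^j` satisfies `φ g ^ (p^n) = 1` for all `g`, it factors through a
homomorphism `G → ℤ/p^i` with `i ≤ n`: use 2; the order of the range divides `p ^ n` because
its generator is killed by `p ^ n`.
-/

namespace MTate

open MonoidAlgebra

variable {p : ℕ} [hp : Fact p.Prime]

/-- the reduction `ℤ/p^n → ℤ/p^j` -/
def redC {n j : ℕ} (h : j ≤ n) : Cpn p n →* Cpn p j :=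
  AddMonoidHom.toMultiplicative (ZMod.castHom (pow_dvd_pow p h) (ZMod (p ^ j))).toAddMonoidHom

omit hp in
theorem redC_ofAdd {n j : ℕ} (h : j ≤ n) (a : ZMod (p ^ n)) :
    redC h (Multiplicative.ofAdd a) =
      Multiplicative.ofAdd (ZMod.castHom (pow_dvd_pow p h) (ZMod (p ^ j)) a) := by
  rfl

theorem hom_factor_range {G : Type*} [CommGroup G] {j : ℕ} (ω : G →* Cpn p j) :
    ∃ i ≤ j, ∃ ω' : G →* Cpn p i, Function.Surjective ω' ∧ ∃ ι : Cpn p i →* Cpn p j,
      Function.Injective ι ∧ ι.comp ω' = ω := by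
  have hN : ∀ k : ℕ, NeZero (p ^ k) := fun k => ⟨pow_ne_zero k hp.out.ne_zero⟩
  have hcard : ∀ k : ℕ, Nat.card (Cpn p k) = p ^ k := by
    intro k
    have := hN k
    change Nat.card (ZMod (p ^ k)) = p ^ k
    rw [Nat.card_eq_fintype_card, ZMod.card]
  have := hN j
  have hd : Nat.card ω.range ∣ p ^ j :=
    (Subgroup.card_subgroup_dvd_card ω.range).trans (dvd_of_eq (hcard j))
  obtain ⟨i, hi, hci⟩ := (Nat.dvd_prime_pow hp.out).1 hd
  have hc : IsCyclic ω.range := inferInstance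
  have hc' : IsCyclic (Cpn p i) := inferInstance
  have e : ω.range ≃* Cpn p i := mulEquivOfCyclicCardEq (by rw [hci, hcard])
  refine ⟨i, hi, e.toMonoidHom.comp ω.rangeRestrict, ?_, ω.range.subtype.comp e.symm.toMonoidHom,
    ?_, ?_⟩
  · exact e.surjective.comp ω.rangeRestrict_surjective
  · exact (Subgroup.subtype_injective _).comp e.symm.injective
  · ext g
    change ((e.symm (e (ω.rangeRestrict g)) : ω.range) : Cpn p j) = ω g
    rw [e.symm_apply_apply]
    rfl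

theorem factor_le {G : Type*} [CommGroup G] {j n : ℕ} (ω : G →* Cpn p j)
    (h : ∀ g, ω g ^ p ^ n = 1) : ∃ i ≤ n, ∃ ω' : G →* Cpn p i, ∃ ι : Cpn p i →* Cpn p j,
      ι.comp ω' = ω := by
  obtain ⟨i, _, ω', hs, ι, hι, hc⟩ := hom_factor_range ω
  refine ⟨i, ?_, ω', ι, hc⟩
  obtain ⟨g, hg⟩ := hs (gam p i)
  have h1 : gam p i ^ p ^ n = 1 := by
    apply hι
    rw [map_pow, ← hg, map_one]
    have h2 : ι (ω' g) = ω g := by rw [← hc]; rfl
    rw [h2]
    exact h g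
  have h3 : ((p ^ n : ℕ) : ZMod (p ^ i)) = 0 := by
    have h4 := congrArg Multiplicative.toAdd h1
    rw [toAdd_pow, toAdd_one] at h4
    change (p ^ n) • (1 : ZMod (p ^ i)) = 0 at h4
    rwa [nsmul_eq_mul, mul_one] at h4
  rw [ZMod.natCast_eq_zero_iff] at h3
  exact (Nat.pow_dvd_pow_iff_le_right hp.out.one_lt).1 h3

theorem exists_quot (G : Type) [CommGroup G] [Finite G] (n : ℕ) :
    ∃ (H : Type) (_ : CommGroup H) (_ : Finite H) (κ : G →* H), Function.Surjective κ ∧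
      (∀ h : H, h ^ p ^ n = 1) ∧ ∀ (C : Type) [CommGroup C] (ω : G →* C),
        (∀ g, ω g ^ p ^ n = 1) → ∃ ω' : H →* C, ω'.comp κ = ω := by
  refine ⟨G ⧸ (powMonoidHom (p ^ n) : G →* G).range, inferInstance, inferInstance,
    QuotientGroup.mk' _, QuotientGroup.mk'_surjective _, ?_, ?_⟩
  · intro h
    obtain ⟨g, rfl⟩ := QuotientGroup.mk'_surjective _ h
    rw [← map_pow]
    exact (QuotientGroup.eq_one_iff _).2 ⟨g, rfl⟩
  · intro C _ ω hω
    refine ⟨QuotientGroup.lift _ ω ?_, ?_⟩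
    · rintro _ ⟨g, rfl⟩
      change ω (g ^ p ^ n) = 1
      rw [map_pow]
      exact hω g
    · ext g
      rfl

omit hp in
private theorem Fac_pow_cancel {C : Type*} [CommGroup C] {m n' : ℕ} (h : m.Coprime n') {a b : C}
    (ha : a ^ m = 1) (hb : b ^ m = 1) (hab : a ^ n' = b ^ n') : a = b := by
  have h1 : (a * b⁻¹) ^ m = 1 := by rw [mul_pow, inv_pow, ha, hb, inv_one, mul_one]
  have h2 : (a * b⁻¹) ^ n' = 1 := by rw [mul_pow, inv_pow, hab, mul_inv_cancel]
  have h3 : (a * b⁻¹) ^ m.gcd n' = 1 := pow_gcd_eq_one.2 ⟨h1, h2⟩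
  rw [Nat.Coprime.gcd_eq_one h, pow_one] at h3
  exact mul_inv_eq_one.1 h3

theorem pow_cancel {C : Type*} [CommGroup C] {n n' : ℕ} (h : p.Coprime n') {a b : C}
    (ha : a ^ p ^ n = 1) (hb : b ^ p ^ n = 1) (hab : a ^ n' = b ^ n') : a = b := by
  exact Fac_pow_cancel (Nat.Coprime.pow_left n h) ha hb hab

end MTate
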