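import Mathlib
import Pool.Agent.Lib.MP_5deabe_nt.Cyc

/-!
# Polynomials over `ℤ/p^n` of degree less than `p`

1. A polynomial `P` over `ℤ/p^n` in finitely many variables, of degree `≤ p - 1` in every variable,
which vanishes at all points is `0`.
PROOF: let `P'` be the polynomial over `ℤ_p` with the same support whose coefficients are lifts of
the coefficients of `P` (`PadicInt.toZModPow n` is surjective); its values at the points with
natural coordinates are divisible by `p ^ n` (`PadicInt.ker_toZModPow`), so its coefficients are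
divisible by `p ^ n` by `poly_dvd` (in `Pool.Agent.Lib.MP_5deabe_nt.Cyc`).

2. Let `P` have total degree `≤ r < p` in `r` variables and let `P(b) = 0` whenever `b i = - d i`
for some `i`.  Then `P(0) = C ∏ d i` where `C` is the coefficient of `∏ X i` in `P`.
PROOF: let `P'(X) = P(X - d)`, of total degree `≤ r`; the coefficient of `∏ X i` in `P'` is `C`
(the difference `P' - P` has total degree `< r`; or: compare the homogeneous components of degree
`r`).  `P'` vanishes when some variable is `0`.  For each `i` the polynomial obtained from `P'` by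
`X i ↦ 0` vanishes at all points, so it is `0` by 1; so all monomials of `P'` contain `X i`.  As the
total degree is `≤ r`, `P' = C ∏ X i`, and `P(0) = P'(d) = C ∏ d i`.
(The vector `1 : Fin r → ℕ` is written as the finitely supported function
`Finsupp.equivFunOnFinite.symm 1`.)
-/

namespace MTate

open MvPolynomial

theorem zmod_poly_zero {p : ℕ} [Fact p.Prime] {ι : Type} [Finite ι] {n : ℕ}
    {P : MvPolynomial ι (ZMod (p ^ n))} (hd : ∀ s ∈ P.support, ∀ i, s i ≤ p - 1)
    (h : ∀ v : ι → ZMod (p ^ n), eval v P = 0) : P = 0 := by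
  classical
  have hsurj : Function.Surjective (PadicInt.toZModPow (p := p) n) :=
    ZMod.ringHom_surjective _
  choose g hg using hsurj
  obtain ⟨P', hP'⟩ : ∃ P' : MvPolynomial ι ℤ_[p],
      P' = ∑ s ∈ P.support, monomial s (g (P.coeff s)) := ⟨_, rfl⟩
  have hmap : MvPolynomial.map (PadicInt.toZModPow (p := p) n) P' = P := by
    rw [hP', map_sum]
    conv_rhs => rw [P.as_sum]
    refine Finset.sum_congr rfl fun s _ => ?_
    rw [MvPolynomial.map_monomial, hg]
  have hsupp : P'.support ⊆ P.support := by
    intro s hs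
    rw [mem_support_iff] at hs
    by_contra hcon
    apply hs
    rw [hP', coeff_sum]
    refine Finset.sum_eq_zero fun t ht => ?_
    rw [coeff_monomial, if_neg]
    rintro rfl
    exact hcon ht
  have hker : ∀ a : ℤ_[p], PadicInt.toZModPow (p := p) n a = 0 ↔ (p : ℤ_[p]) ^ n ∣ a := by
    intro a
    rw [← RingHom.mem_ker, PadicInt.ker_toZModPow, Ideal.mem_span_singleton]
  have hdvd := poly_dvd n P' (fun s hs => hd s (hsupp hs)) fun t => by
    rw [← hker]
    have h1 := h fun i => ((t i : ℕ) : ZMod (p ^ n))
    rw [← hmap, MvPolynomial.eval_map] at h1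
    rw [← h1, MvPolynomial.eval, MvPolynomial.coe_eval₂Hom, MvPolynomial.hom_eval₂]
    congr 1
    funext i
    simp
  ext s
  rw [← hmap, coeff_map, coeff_zero, hker]
  exact hdvd s

theorem coord_poly {p : ℕ} [Fact p.Prime] {n r : ℕ} (hr : r < p)
    {P : MvPolynomial (Fin r) (ZMod (p ^ n))} (hP : P.totalDegree ≤ r)
    (d : Fin r → ZMod (p ^ n))
    (h : ∀ b : Fin r → ZMod (p ^ n), (∃ i, b i = - d i) → eval b P = 0) :
    eval 0 P = P.coeff (Finsupp.equivFunOnFinite.symm 1) * ∏ i, d i := by
  classical
  obtain ⟨bt, hbt⟩ : ∃ bt : Finset (Fin r) → Fin r → ZMod (p ^ n),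
      bt = fun t i => if i ∈ t then - d i else 0 := ⟨_, rfl⟩
  -- the alternating sum of the values
  have h1 : ∑ t ∈ (Finset.univ : Finset (Fin r)).powerset, (-1) ^ t.card * eval (bt t) P =
      eval 0 P := by
    rw [Finset.sum_eq_single ∅]
    · rw [Finset.card_empty, pow_zero, one_mul]
      congr 1
      rw [hbt]
      congr 1
    · intro t _ ht
      obtain ⟨i, hi⟩ := Finset.nonempty_iff_ne_empty.mpr ht
      rw [h (bt t) ⟨i, by rw [hbt]; simp [hi]⟩, mul_zero]
    · intro hcon
      exact absurd (Finset.empty_mem_powerset _) hcon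
  have h2 : ∀ s : Fin r →₀ ℕ, ∑ t ∈ (Finset.univ : Finset (Fin r)).powerset,
      (-1) ^ t.card * ∏ i, (bt t i) ^ s i = ∏ i, (-(- d i) ^ s i + 0 ^ s i) := by
    intro s
    rw [Finset.prod_add]
    refine Finset.sum_congr rfl fun t _ => ?_
    have e1 : ∏ i ∈ t, (-(- d i) ^ s i) = (-1) ^ t.card * ∏ i ∈ t, (- d i) ^ s i := by
      rw [Finset.prod_neg]
    rw [e1, mul_assoc]
    congr 1
    rw [← Finset.prod_mul_prod_compl t (fun i => bt t i ^ s i), ← Finset.compl_eq_univ_sdiff]
    congr 1
    · refine Finset.prod_congr rfl fun i hi => ?_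
      rw [hbt]
      simp only [if_pos hi]
    · refine Finset.prod_congr rfl fun i hi => ?_
      rw [hbt]
      simp only [if_neg (Finset.mem_compl.mp hi)]
  have h3 : eval 0 P = ∑ s ∈ P.support, P.coeff s * ∏ i, (-(- d i) ^ s i + 0 ^ s i) := by
    rw [← h1]
    simp_rw [MvPolynomial.eval_eq', ← h2, Finset.mul_sum]
    rw [Finset.sum_comm]
    refine Finset.sum_congr rfl fun s _ => Finset.sum_congr rfl fun t _ => ?_
    ring
  rw [h3, Finset.sum_eq_single (Finsupp.equivFunOnFinite.symm 1)]
  · congr 1
    refine Finset.prod_congr rfl fun i _ => ?_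
    simp
  · intro s hs hne
    have hdeg : ∑ i, s i ≤ r := by
      have e1 := MvPolynomial.le_totalDegree hs
      rw [Finsupp.sum_fintype _ _ (fun _ => rfl)] at e1
      exact e1.trans hP
    obtain ⟨i, hi⟩ : ∃ i, s i = 0 := by
      by_contra hcon
      push Not at hcon
      apply hne
      have hge : ∀ i ∈ (Finset.univ : Finset (Fin r)), 1 ≤ s i :=
        fun i _ => Nat.one_le_iff_ne_zero.mpr (hcon i)
      have hsum : ∑ i : Fin r, 1 = ∑ i, s i := by
        refine le_antisymm (Finset.sum_le_sum hge) ?_
        simpa using hdeg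
      have heq := (Finset.sum_eq_sum_iff_of_le hge).mp hsum
      ext i
      rw [← heq i (Finset.mem_univ i)]
      simp
    rw [Finset.prod_eq_zero (Finset.mem_univ i) (by rw [hi]; simp), mul_zero]
  · intro hns
    rw [MvPolynomial.notMem_support_iff.mp hns, zero_mul]

end MTate
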