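import Mathlib

/-!
# Diagonalisation of symmetric matrices over `ℤ/p^n`, `p` odd

Every symmetric matrix `Q` over `R = ℤ/p^n`, `p ≠ 2`, is `Eᵀ D E` with a diagonal matrix `D` and a
product `E` of transvections.

PROOF.  It is enough to find a product `E` of transvections with `Eᵀ Q E` diagonal (the inverse
of a transvection is a transvection: `Matrix.TransvectionStruct.inv`, and use
`Matrix.TransvectionStruct.reverse_inv_prod_mul_prod` / `prod_mul_reverse_inv_prod`).

Claim: for every finset `s ⊆ Fin r` and every symmetric `Q` with `Q i j = 0` whenever `i ≠ j` and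
(`i ∉ s` or `j ∉ s`) there is such an `E`.  Induction on `s.card`.  If `Q i j = 0` for all `i ≠ j`
in `s`, `Q` is diagonal.  Otherwise the divisibility order on `R` is total
(every element of `R` is a unit times `p^v`), so some entry `Q i j`, `i, j ∈ s`, divides all entries
`Q k l`, `k, l ∈ s`.  We may take it on the diagonal: if `i ≠ j` and neither `Q i i` nor `Q j j`
divides `Q i j`, then `Q i i = (p a) Q i j`, `Q j j = (p b) Q i j`, and after the congruence with
the transvection which adds the column `j` to the column `i` (and the row `j` to the row `i`) the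
diagonal entry `Q i i + 2 Q i j + Q j j` is a unit times `Q i j`, since `2` is a unit and `p` is
nilpotent; it divides all entries of the new matrix in `s × s` (they are combinations of the old
ones), and the entries outside are still `0` off the diagonal.  Now for `k ∈ s`, `k ≠ i`, write
`Q i k = c_k Q i i` and subtract `c_k` times the column `i` from the column `k` and the same for the
rows (congruence with a product of transvections `1 - c_k E_{ik}`).  The new matrix has `Q i k = 0`
for all `k ≠ i`; apply the induction hypothesis to `s.erase i`.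
-/

namespace MTate

open Matrix

section

variable {R : Type*} [CommRing R] {r : ℕ}

/-- congruent to a diagonal matrix by transvections -/
private def Diag_good (Q : Matrix (Fin r) (Fin r) R) : Prop :=
  ∃ (L : List (TransvectionStruct (Fin r) R)) (d : Fin r → R),
    Q = ((L.map TransvectionStruct.toMatrix).prod)ᵀ * diagonal d *
      (L.map TransvectionStruct.toMatrix).prod

private theorem Diag_tr (a b : Fin r) (c : R) :
    (transvection a b c)ᵀ = transvection b a c := by
  unfold transvection
  rw [transpose_add, transpose_one, transpose_single]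

private theorem Diag_entry (Q : Matrix (Fin r) (Fin r) R) (a b : Fin r) (c : R) (x y : Fin r) :
    ((transvection a b c)ᵀ * Q * transvection a b c) x y =
      Q x y + (if y = b then c * Q x a else 0) +
        (if x = b then c * (Q a y + (if y = b then c * Q a a else 0)) else 0) := by
  have h1 : ∀ x y, (Q * transvection a b c) x y = Q x y + (if y = b then c * Q x a else 0) := by
    intro x y
    by_cases hy : y = b
    · rw [if_pos hy, hy, mul_transvection_apply_same]
    · rw [if_neg hy, mul_transvection_apply_of_ne _ _ _ _ hy, add_zero]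
  rw [Diag_tr, Matrix.mul_assoc]
  by_cases hx : x = b
  · rw [if_pos hx, hx, transvection_mul_apply_same, h1, h1]
  · rw [if_neg hx, transvection_mul_apply_of_ne _ _ _ _ hx, h1, add_zero]

private theorem Diag_symm {Q : Matrix (Fin r) (Fin r) R} (hQ : Q.IsSymm)
    (T : Matrix (Fin r) (Fin r) R) : (Tᵀ * Q * T).IsSymm := by
  unfold Matrix.IsSymm
  rw [transpose_mul, transpose_mul, transpose_transpose, hQ.eq, Matrix.mul_assoc]

private theorem Diag_step {Q : Matrix (Fin r) (Fin r) R} (t : TransvectionStruct (Fin r) R)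
    (h : Diag_good (t.toMatrixᵀ * Q * t.toMatrix)) : Diag_good Q := by
  obtain ⟨L, d, hL⟩ := h
  refine ⟨L ++ [t.inv], d, ?_⟩
  have h1 : ((L ++ [t.inv]).map TransvectionStruct.toMatrix).prod =
      (L.map TransvectionStruct.toMatrix).prod * t.inv.toMatrix := by
    rw [List.map_append, List.prod_append, List.map_singleton, List.prod_singleton]
  have h2 := TransvectionStruct.mul_inv t
  have h3 : t.inv.toMatrixᵀ * t.toMatrixᵀ = 1 := by
    rw [← transpose_mul, h2, transpose_one]
  rw [h1, transpose_mul]
  calc Q = (t.inv.toMatrixᵀ * t.toMatrixᵀ) * Q * (t.toMatrix * t.inv.toMatrix) := by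
        rw [h2, h3, Matrix.one_mul, Matrix.mul_one]
    _ = t.inv.toMatrixᵀ * (t.toMatrixᵀ * Q * t.toMatrix) * t.inv.toMatrix := by
        simp only [Matrix.mul_assoc]
    _ = _ := by
        rw [hL]
        simp only [Matrix.mul_assoc]

/-- the off-diagonal entries outside `s × s` are zero -/
private def Diag_off (Q : Matrix (Fin r) (Fin r) R) (s : Finset (Fin r)) : Prop :=
  ∀ x y, x ≠ y → (x ∉ s ∨ y ∉ s) → Q x y = 0

private theorem Diag_off_tr {Q : Matrix (Fin r) (Fin r) R} {s : Finset (Fin r)}
    (h : Diag_off Q s) {a b : Fin r} (c : R) (ha : a ∈ s) (hb : b ∈ s) :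
    Diag_off ((transvection a b c)ᵀ * Q * transvection a b c) s := by
  intro x y hxy hs
  rw [Diag_entry, h x y hxy hs]
  rcases hs with hs | hs
  · have hxa : x ≠ a := fun e => hs (e ▸ ha)
    have hxb : x ≠ b := fun e => hs (e ▸ hb)
    rw [if_neg hxb, h x a hxa (Or.inl hs), mul_zero]
    simp
  · have hya : y ≠ a := fun e => hs (e ▸ ha)
    have hyb : y ≠ b := fun e => hs (e ▸ hb)
    rw [if_neg hyb, if_neg hyb, h a y hya.symm (Or.inr hs)]
    simp

private theorem Diag_of_diag {Q : Matrix (Fin r) (Fin r) R} (h : ∀ x y, x ≠ y → Q x y = 0) :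
    Diag_good Q := by
  refine ⟨[], fun i => Q i i, ?_⟩
  simp only [List.map_nil, List.prod_nil, transpose_one, Matrix.one_mul, Matrix.mul_one]
  ext x y
  by_cases hxy : x = y
  · rw [hxy, diagonal_apply_eq]
  · rw [diagonal_apply_ne _ hxy, h x y hxy]

/-- clearing the row of the pivot -/
private theorem Diag_clear {s : Finset (Fin r)} {i : Fin r} (hi : i ∈ s)
    (ih : ∀ Q : Matrix (Fin r) (Fin r) R, Q.IsSymm → Diag_off Q (s.erase i) → Diag_good Q)
    (u : Finset (Fin r)) : ∀ Q : Matrix (Fin r) (Fin r) R, Q.IsSymm → Diag_off Q s →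
      (∀ k ∈ s, Q i i ∣ Q i k) → u ⊆ s.erase i → (∀ k ∈ s.erase i, k ∉ u → Q i k = 0) →
        Diag_good Q := by
  induction u using Finset.induction_on with
  | empty =>
    intro Q hQ hoff hdvd _ h0
    refine ih Q hQ ?_
    have key : ∀ y, y ≠ i → Q i y = 0 := by
      intro y hy
      by_cases hys : y ∈ s
      · exact h0 y (Finset.mem_erase.mpr ⟨hy, hys⟩) (Finset.notMem_empty _)
      · exact hoff i y hy.symm (Or.inr hys)
    intro x y hxy hs
    by_cases hx : x = i
    · rw [hx]
      exact key y fun e => hxy (hx.trans e.symm)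
    · by_cases hy : y = i
      · rw [hy, ← hQ.apply]
        exact key x hx
      · refine hoff x y hxy ?_
        rcases hs with hs | hs
        · exact Or.inl fun h => hs (Finset.mem_erase.mpr ⟨hx, h⟩)
        · exact Or.inr fun h => hs (Finset.mem_erase.mpr ⟨hy, h⟩)
  | insert k u hku ihu =>
    intro Q hQ hoff hdvd hus h0
    obtain ⟨hki, hks⟩ := Finset.mem_erase.mp (hus (Finset.mem_insert_self k u))
    obtain ⟨c, hc⟩ := hdvd k hks
    refine Diag_step ⟨i, k, hki.symm, -c⟩ ?_
    rw [TransvectionStruct.toMatrix_mk]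
    have hent : ∀ y, ((transvection i k (-c))ᵀ * Q * transvection i k (-c)) i y =
        if y = k then 0 else Q i y := by
      intro y
      rw [Diag_entry, if_neg hki.symm, add_zero]
      by_cases hy : y = k
      · rw [if_pos hy, if_pos hy, hy, hc]
        ring
      · rw [if_neg hy, if_neg hy, add_zero]
    refine ihu _ (Diag_symm hQ _) (Diag_off_tr hoff _ hi hks) ?_ ?_ ?_
    · intro y hy
      rw [hent, hent, if_neg hki.symm]
      by_cases hyk : y = k
      · rw [if_pos hyk]
        exact dvd_zero _
      · rw [if_neg hyk]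
        exact hdvd y hy
    · exact fun y hy => hus (Finset.mem_insert_of_mem hy)
    · intro y hy hyu
      rw [hent]
      by_cases hyk : y = k
      · rw [if_pos hyk]
      · rw [if_neg hyk]
        refine h0 y hy fun h => ?_
        rcases Finset.mem_insert.mp h with h | h
        · exact hyk h
        · exact hyu h

private theorem Diag_claim (π : R)
    (hval : ∀ x : R, ∃ (k : ℕ) (u : R), IsUnit u ∧ x = u * π ^ k)
    (hun : ∀ y : R, IsUnit (2 + π * y)) (m : ℕ) : ∀ s : Finset (Fin r), s.card = m →
      ∀ Q : Matrix (Fin r) (Fin r) R, Q.IsSymm → Diag_off Q s → Diag_good Q := by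
  induction m with
  | zero =>
    intro s hs Q hQ hoff
    rw [Finset.card_eq_zero] at hs
    refine Diag_of_diag fun x y hxy => hoff x y hxy (Or.inl ?_)
    rw [hs]
    exact Finset.notMem_empty x
  | succ m ihm =>
    intro s hs Q hQ hoff
    have hpiv : ∀ i ∈ s, ∀ Q : Matrix (Fin r) (Fin r) R, Q.IsSymm → Diag_off Q s →
        (∀ k ∈ s, Q i i ∣ Q i k) → Diag_good Q := by
      intro i hi Q hQ hoff hdvd
      refine Diag_clear hi (fun Q' h1 h2 => ihm (s.erase i) ?_ Q' h1 h2) (s.erase i) Q hQ hoff
        hdvd (Finset.Subset.refl _) fun k hk hk' => absurd hk hk'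
      rw [Finset.card_erase_of_mem hi, hs, Nat.add_sub_cancel]
    choose k u hu hk using fun z : Fin r × Fin r => hval (Q z.1 z.2)
    have hne : (s ×ˢ s).Nonempty := by
      have h1 : s.Nonempty := Finset.card_pos.mp (by omega)
      exact h1.product h1
    obtain ⟨⟨i, j⟩, hij, hmin⟩ := Finset.exists_min_image (s ×ˢ s) k hne
    obtain ⟨hi, hj⟩ := Finset.mem_product.mp hij
    have hdiv : ∀ a ∈ s, ∀ b ∈ s, Q i j ∣ Q a b := by
      intro a ha b hb
      have h1 := hmin (a, b) (Finset.mem_product.mpr ⟨ha, hb⟩)
      have h2 := hk (i, j)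
      have h3 := hk (a, b)
      simp only at h2 h3
      rw [h2, h3]
      have h4 : π ^ k (i, j) ∣ π ^ k (a, b) := pow_dvd_pow π h1
      exact (hu (i, j)).mul_left_dvd.mpr (h4.mul_left _)
    obtain ⟨a, ha⟩ := hdiv i hi i hi
    obtain ⟨b, hb⟩ := hdiv j hj j hj
    have hnon : ∀ x : R, ¬ IsUnit x → ∃ y, x = π * y := by
      intro x hx
      obtain ⟨l, v, hv, hl⟩ := hval x
      rcases Nat.eq_zero_or_pos l with h | h
      · rw [h, pow_zero, mul_one] at hl
        rw [hl] at hx
        exact absurd hv hx
      · obtain ⟨l', rfl⟩ : ∃ l', l = l' + 1 := ⟨l - 1, by omega⟩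
        exact ⟨v * π ^ l', by rw [hl]; ring⟩
    by_cases hijq : i = j
    · refine hpiv i hi Q hQ hoff fun l hl => ?_
      have h1 := hdiv i hi l hl
      rwa [← hijq] at h1
    by_cases hua : IsUnit a
    · refine hpiv i hi Q hQ hoff fun l hl => ?_
      have h1 : Q i i ∣ Q i j := by
        rw [ha]
        exact hua.mul_right_dvd.mpr (dvd_refl _)
      exact h1.trans (hdiv i hi l hl)
    · by_cases hub : IsUnit b
      · refine hpiv j hj Q hQ hoff fun l hl => ?_
        have h1 : Q j j ∣ Q i j := by
          rw [hb]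
          exact hub.mul_right_dvd.mpr (dvd_refl _)
        exact h1.trans (hdiv j hj l hl)
      · obtain ⟨a', ha'⟩ := hnon a hua
        obtain ⟨b', hb'⟩ := hnon b hub
        refine Diag_step ⟨j, i, fun h => hijq h.symm, 1⟩ ?_
        rw [TransvectionStruct.toMatrix_mk]
        set Q' : Matrix (Fin r) (Fin r) R := (transvection j i 1)ᵀ * Q * transvection j i 1
          with hQ'
        have hii : Q' i i = Q i j * (2 + π * (a' + b')) := by
          rw [hQ', Diag_entry, if_pos rfl, if_pos rfl, if_pos rfl, hQ.apply i j, ha, hb, ha', hb']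
          ring
        have hiy : ∀ y, y ≠ i → Q' i y = Q i y + Q j y := by
          intro y hy
          rw [hQ', Diag_entry, if_neg hy, if_pos rfl, if_neg hy]
          ring
        refine hpiv i hi _ (Diag_symm hQ _) (Diag_off_tr hoff _ hj hi) fun y hy => ?_
        by_cases hyi : y = i
        · rw [hyi]
        · rw [hii, hiy y hyi]
          refine (hun (a' + b')).mul_right_dvd.mpr ?_
          exact dvd_add (hdiv i hi y hy) (hdiv j hj y hy)

end

theorem diag_transvec {p : ℕ} [Fact p.Prime] (hp : p ≠ 2) {n r : ℕ}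
    (Q : Matrix (Fin r) (Fin r) (ZMod (p ^ n))) (hQ : Q.IsSymm) :
    ∃ (L : List (TransvectionStruct (Fin r) (ZMod (p ^ n)))) (d : Fin r → ZMod (p ^ n)),
      Q = ((L.map TransvectionStruct.toMatrix).prod)ᵀ * diagonal d *
        (L.map TransvectionStruct.toMatrix).prod := by
  have hpp : p.Prime := Fact.out
  have hval : ∀ x : ZMod (p ^ n), ∃ (k : ℕ) (u : ZMod (p ^ n)), IsUnit u ∧
      x = u * ((p : ℕ) : ZMod (p ^ n)) ^ k := by
    intro x
    obtain ⟨d, hd, u, hu, hx⟩ := x.eq_unit_mul_divisor
    obtain ⟨k, -, rfl⟩ := (Nat.dvd_prime_pow hpp).mp hd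
    exact ⟨k, u, hu, by rw [hx]; push_cast; rfl⟩
  have hun : ∀ y : ZMod (p ^ n), IsUnit (2 + ((p : ℕ) : ZMod (p ^ n)) * y) := by
    intro y
    have h2 : IsUnit (2 : ZMod (p ^ n)) := by
      have h3 : (2 : ℕ).Coprime (p ^ n) := by
        refine Nat.Coprime.pow_right n ?_
        rw [Nat.coprime_primes Nat.prime_two hpp]
        exact fun h => hp h.symm
      have h4 := (ZMod.isUnit_iff_coprime 2 (p ^ n)).mpr h3
      exact_mod_cast h4
    have hnil : IsNilpotent (((p : ℕ) : ZMod (p ^ n)) * y) := by
      refine ⟨n, ?_⟩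
      rw [mul_pow]
      have h3 : ((p : ℕ) : ZMod (p ^ n)) ^ n = 0 := by
        have h4 := ZMod.natCast_self (p ^ n)
        rwa [Nat.cast_pow] at h4
      rw [h3, zero_mul]
    exact hnil.isUnit_add_left_of_commute h2 (Commute.all _ _)
  exact Diag_claim _ hval hun _ Finset.univ rfl Q hQ fun x y _ h => by
    rcases h with h | h
    · exact absurd (Finset.mem_univ x) h
    · exact absurd (Finset.mem_univ y) h

end MTate
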