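import Mathlib

/-!
# Matrices over `ℤ/p^n` which carry a diagonal form to a diagonal form

`Good M`: `M` is invertible and `Mᵀ diag(a) M` is diagonal for some diagonal matrix with unit
entries.  For `p ≥ 5` every transvection is a product of two good matrices.

PROOF.  Let `n ≥ 1` and let the transvection be `1 + x E_{ij}`, `i ≠ j`.  A matrix `M` which is the
identity outside the rows and columns `i, j` and has there the block `[[m11, m12], [m21, m22]]` with
all four entries and the determinant `m11 m22 - m12 m21` units is good: take `a i = m21 m22`,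
`a j = - m11 m12`, `a k = 1` for the other `k`; the off-diagonal entry is
`a i m11 m12 + a j m21 m22 = 0`.
Now `[[1, x], [0, 1]] = M₁ M₂` with `M₁ = [[1, 1], [g, h]]` and
`M₂ = (h - g)⁻¹ [[h, h x - 1], [-g, 1 - g x]]`; all entries and determinants are units as soon as
`g, h, h - g, h x - 1, 1 - g x` are units.  If `x` is not `1` or `-1` modulo `p`, take `g = 1`,
`h = -1`; otherwise take `g = 2`, `h = -2` (`p ≥ 5`).  (An element of `ℤ/p^n`, `n ≥ 1`, is a unit iff
its image in `ℤ/p` is not `0`.)
It may be convenient to describe the matrices as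
`1 + (block entries minus identity)` with `Matrix.single`, or to reindex by an equivalence
`Fin r ≃ Fin 2 ⊕ rest`; any proof is fine.
-/

namespace MTate

open Matrix

/-- `M` is invertible and carries some diagonal form with unit entries to a diagonal form -/
def Good {p n r : ℕ} (M : Matrix (Fin r) (Fin r) (ZMod (p ^ n))) : Prop :=
  IsUnit M.det ∧ ∃ a a' : Fin r → ZMod (p ^ n), (∀ i, IsUnit (a i)) ∧
    Mᵀ * diagonal a * M = diagonal a'

/-- the matrix which is the identity outside the rows and columns `i, j` and has there the block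
`[[a, b], [c, d]]` -/
private def gBlk {R : Type*} [CommRing R] {r : ℕ} (i j : Fin r) (a b c d : R) :
    Matrix (Fin r) (Fin r) R :=
  1 + single i i (a - 1) + single i j b + single j i c + single j j (d - 1)

private lemma gBlk_one {R : Type*} [CommRing R] {r : ℕ} (i j : Fin r) :
    gBlk i j (1 : R) 0 0 1 = 1 := by
  simp [gBlk]

private lemma gBlk_transpose {R : Type*} [CommRing R] {r : ℕ} (i j : Fin r) (a b c d : R) :
    (gBlk i j a b c d)ᵀ = gBlk i j a c b d := by
  simp only [gBlk, transpose_add, transpose_one, transpose_single]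
  abel

private lemma gBlk_mul {R : Type*} [CommRing R] {r : ℕ} {i j : Fin r} (hij : i ≠ j)
    (a b c d a' b' c' d' : R) :
    gBlk i j a b c d * gBlk i j a' b' c' d' =
      gBlk i j (a * a' + b * c') (a * b' + b * d') (c * a' + d * c') (c * b' + d * d') := by
  have e1 : ∀ (k l : Fin r) (x y : R), single k i x * single i l y = single k l (x * y) :=
    fun k l x y => single_mul_single_same _ _ _ _ _
  have e2 : ∀ (k l : Fin r) (x y : R), single k j x * single j l y = single k l (x * y) :=
    fun k l x y => single_mul_single_same _ _ _ _ _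
  have e3 : ∀ (k l : Fin r) (x y : R), single k i x * single j l y = 0 :=
    fun k l x y => single_mul_single_of_ne _ _ _ _ hij _
  have e4 : ∀ (k l : Fin r) (x y : R), single k j x * single i l y = 0 :=
    fun k l x y => single_mul_single_of_ne _ _ _ _ (Ne.symm hij) _
  have s1 : a * a' + b * c' - 1 = (a' - 1) + (a - 1) + (a - 1) * (a' - 1) + b * c' := by ring
  have s2 : a * b' + b * d' = b' + b + (a - 1) * b' + b * (d' - 1) := by ring
  have s3 : c * a' + d * c' = c' + c + c * (a' - 1) + (d - 1) * c' := by ring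
  have s4 : c * b' + d * d' - 1 = (d' - 1) + (d - 1) + c * b' + (d - 1) * (d' - 1) := by ring
  simp only [gBlk, s1, s2, s3, s4, single_add, mul_add, add_mul, one_mul, mul_one, e1, e2, e3, e4,
    add_zero]
  abel

private lemma gBlk_diag {R : Type*} [CommRing R] {r : ℕ} {i j : Fin r} (hij : i ≠ j) (a d : R) :
    gBlk i j a 0 0 d = diagonal (fun k => if k = i then a else if k = j then d else 1) := by
  ext u v
  simp only [gBlk, single_zero, add_zero, Matrix.add_apply, one_apply, single_apply, diagonal_apply]
  by_cases huv : u = v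
  · subst huv
    by_cases h1 : u = i
    · subst h1
      simp [Ne.symm hij]
    · by_cases h2 : u = j
      · subst h2
        simp [h1, hij]
      · simp [h1, h2, Ne.symm h1, Ne.symm h2]
  · have h3 : ¬ (i = u ∧ i = v) := fun h => huv (h.1.symm.trans h.2)
    have h4 : ¬ (j = u ∧ j = v) := fun h => huv (h.1.symm.trans h.2)
    simp [huv, h3, h4]

private lemma gBlk_good {p n r : ℕ} {i j : Fin r} (hij : i ≠ j) {a b c d : ZMod (p ^ n)}
    (ha : IsUnit a) (hb : IsUnit b) (hc : IsUnit c) (hd : IsUnit d)
    (hdet : IsUnit (a * d - b * c)) : Good (gBlk i j a b c d) := by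
  obtain ⟨w, hw⟩ := hdet.exists_right_inv
  refine ⟨?_, fun k => if k = i then c * d else if k = j then - (a * b) else 1,
    fun k => if k = i then a * (c * d) * a + c * (- (a * b)) * c
      else if k = j then b * (c * d) * b + d * (- (a * b)) * d else 1, ?_, ?_⟩
  · have h : gBlk i j a b c d * gBlk i j (w * d) (- (w * b)) (- (w * c)) (w * a) = 1 := by
      rw [gBlk_mul hij, ← gBlk_one i j]
      congr 1
      · linear_combination hw
      · ring
      · ring
      · linear_combination hw
    exact isUnit_det_of_right_inverse h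
  · intro k
    dsimp only
    split_ifs
    · exact hc.mul hd
    · exact (ha.mul hb).neg
    · exact isUnit_one
  · rw [← gBlk_diag hij, ← gBlk_diag hij, gBlk_transpose, gBlk_mul hij, gBlk_mul hij]
    congr 1 <;> ring

private lemma gUnit {p : ℕ} [Fact p.Prime] {n : ℕ} (hn : 1 ≤ n) (x : ZMod (p ^ n)) :
    IsUnit x ↔ ZMod.castHom (dvd_pow_self p (Nat.one_le_iff_ne_zero.mp hn)) (ZMod p) x ≠ 0 := by
  have hp : p.Prime := Fact.out
  have : NeZero (p ^ n) := ⟨pow_ne_zero n hp.ne_zero⟩
  have hx : ((x.val : ℕ) : ZMod (p ^ n)) = x := ZMod.natCast_zmod_val x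
  rw [← hx, ZMod.isUnit_iff_coprime, map_natCast, Ne, ZMod.natCast_eq_zero_iff,
    Nat.coprime_pow_right_iff (by omega), Nat.coprime_comm, hp.coprime_iff_not_dvd]

theorem transvec_good {p : ℕ} [Fact p.Prime] (hp : 5 ≤ p) {n r : ℕ} (hn : 1 ≤ n)
    (t : TransvectionStruct (Fin r) (ZMod (p ^ n))) :
    ∃ M₁ M₂ : Matrix (Fin r) (Fin r) (ZMod (p ^ n)), Good M₁ ∧ Good M₂ ∧
      t.toMatrix = M₁ * M₂ := by
  have hpp : p.Prime := Fact.out
  obtain ⟨i, j, hij, x⟩ := t
  have h0 : n ≠ 0 := Nat.one_le_iff_ne_zero.mp hn
  set φ := ZMod.castHom (dvd_pow_self p h0) (ZMod p) with hφ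
  have key : ∀ m : ℕ, 0 < m → m < p → (m : ZMod p) ≠ 0 := by
    intro m h1 h2 h3
    rw [ZMod.natCast_eq_zero_iff] at h3
    exact absurd (Nat.le_of_dvd h1 h3) (by omega)
  have k2 : (2 : ZMod p) ≠ 0 := by exact_mod_cast key 2 (by omega) (by omega)
  have k3 : (3 : ZMod p) ≠ 0 := by exact_mod_cast key 3 (by omega) (by omega)
  have k4 : (4 : ZMod p) ≠ 0 := by exact_mod_cast key 4 (by omega) (by omega)
  have main : ∀ g h : ZMod (p ^ n), IsUnit g → IsUnit h → IsUnit (h - g) →
      IsUnit (h * x - 1) → IsUnit (1 - g * x) →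
      ∃ M₁ M₂ : Matrix (Fin r) (Fin r) (ZMod (p ^ n)), Good M₁ ∧ Good M₂ ∧
        transvection i j x = M₁ * M₂ := by
    intro g h hg hh hhg h1 h2
    obtain ⟨w, hw⟩ := hhg.exists_right_inv
    have hwu : IsUnit w := IsUnit.of_mul_eq_one (h - g) (by rw [mul_comm]; exact hw)
    refine ⟨gBlk i j 1 1 g h, gBlk i j (w * h) (w * (h * x - 1)) (w * (- g)) (w * (1 - g * x)),
      gBlk_good hij isUnit_one isUnit_one hg hh (by simpa using hhg),
      gBlk_good hij (hwu.mul hh) (hwu.mul h1) (hwu.mul hg.neg) (hwu.mul h2) ?_, ?_⟩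
    · have e : w * h * (w * (1 - g * x)) - w * (h * x - 1) * (w * (- g)) = w := by
        linear_combination w * hw
      rw [e]
      exact hwu
    · have e : transvection i j x = gBlk i j 1 x 0 1 := by
        simp [transvection, gBlk]
      rw [e, gBlk_mul hij]
      congr 1
      · linear_combination - hw
      · linear_combination (- x) * hw
      · ring
      · linear_combination - hw
  show ∃ M₁ M₂ : Matrix (Fin r) (Fin r) (ZMod (p ^ n)), Good M₁ ∧ Good M₂ ∧
    transvection i j x = M₁ * M₂
  by_cases hx : φ x = 1 ∨ φ x = -1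
  · refine main 2 (-2) ?_ ?_ ?_ ?_ ?_
    all_goals rw [gUnit hn]
    · rw [map_ofNat]
      exact k2
    · rw [map_neg, map_ofNat]
      exact neg_ne_zero.mpr k2
    · have : (-2 - 2 : ZMod (p ^ n)) = - ((4 : ℕ) : ZMod (p ^ n)) := by norm_num
      rw [this, map_neg, map_natCast]
      simpa using k4
    · rw [map_sub, map_mul, map_neg, map_ofNat, map_one, ← hφ]
      rcases hx with hx | hx <;> rw [hx]
      · have : (-2 * 1 - 1 : ZMod p) = - 3 := by norm_num
        rw [this]
        simpa using k3
      · norm_num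
    · rw [map_sub, map_mul, map_ofNat, map_one, ← hφ]
      rcases hx with hx | hx <;> rw [hx]
      · norm_num
      · have : (1 - 2 * -1 : ZMod p) = 3 := by norm_num
        rw [this]
        exact k3
  · push Not at hx
    refine main 1 (-1) isUnit_one isUnit_one.neg ?_ ?_ ?_
    all_goals rw [gUnit hn]
    · have : (-1 - 1 : ZMod (p ^ n)) = - ((2 : ℕ) : ZMod (p ^ n)) := by norm_num
      rw [this, map_neg, map_natCast]
      simpa using k2
    · rw [map_sub, map_mul, map_neg, map_one, ← hφ]
      intro h
      exact hx.2 (by linear_combination - h)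
    · rw [map_sub, map_mul, map_one, ← hφ]
      intro h
      exact hx.1 (by linear_combination - h)

end MTate
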