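import Mathlib

/-!
# Restriction of a form to an affine subspace

Let `F` be homogeneous of degree `d` in the variables `ι`, `v₀ : ι → R` and `e : Fin r → ι → R`.
The polynomial `lineP v₀ e F = F(v₀ + ∑_j X_j e_j)` in `r` variables has total degree `≤ d`, its
value at `b` is `F(v₀ + ∑ b_j e_j)`, and, if `d ≤ r`, its coefficient at `∏ X_j` does not depend on
`v₀` (and is `0` if `d < r`).

PROOF of the last statement: `lineP v₀ e F - lineP 0 e F` has total degree `< d` (or is `0` for
`d = 0`): for a monomial `c ∏ X_i ^ (s i)` of degree `d` the product of the linear polynomials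
`v₀ i + ∑ e_j i X_j` and the product of `∑ e_j i X_j` differ by a polynomial of smaller degree
(induction over the factors).  Alternatively introduce the homogeneous component of degree `d`.
-/

namespace MTate

open MvPolynomial

variable {R : Type*} [CommRing R] {ι : Type} [Fintype ι] {r : ℕ}

/-- `F(v₀ + ∑_j X_j e_j)` -/
noncomputable def lineP (v₀ : ι → R) (e : Fin r → ι → R) (F : MvPolynomial ι R) :
    MvPolynomial (Fin r) R :=
  bind₁ (fun i => C (v₀ i) + ∑ j, C (e j i) * X j) F

theorem lineP_eval (v₀ : ι → R) (e : Fin r → ι → R) (F : MvPolynomial ι R) (b : Fin r → R) :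
    eval b (lineP v₀ e F) = eval (v₀ + ∑ j, b j • e j) F := by
  unfold lineP
  have h : ∀ f : ι → MvPolynomial (Fin r) R,
      eval b (bind₁ f F) = eval (fun i => eval b (f i)) F := by
    intro f
    induction F using MvPolynomial.induction_on with
    | C a => simp
    | add p q hp hq => simp [hp, hq]
    | mul_X p i hp => simp [hp]
  rw [h]
  congr 2
  funext i
  simp only [map_add, eval_C, map_sum, map_mul, eval_X, Pi.add_apply, Finset.sum_apply,
    Pi.smul_apply, smul_eq_mul]
  congr 1
  exact Finset.sum_congr rfl (fun j _ => mul_comm _ _)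

/-- all monomials have degree less than `n` -/
private def LinePLow {σ : Type*} (n : ℕ) (K : MvPolynomial σ R) : Prop :=
  ∀ t ∈ K.support, Finsupp.degree t < n

private theorem LinePLow.zero {σ : Type*} (n : ℕ) : LinePLow n (0 : MvPolynomial σ R) := by
  intro t ht
  simp at ht

private theorem LinePLow.add {σ : Type*} {n : ℕ} {K L : MvPolynomial σ R} (hK : LinePLow n K)
    (hL : LinePLow n L) : LinePLow n (K + L) := by
  classical
  intro t ht
  have := MvPolynomial.support_add ht
  rcases Finset.mem_union.1 this with h | h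
  · exact hK t h
  · exact hL t h

private theorem LinePLow.mul {σ : Type*} {a b : ℕ} {K L : MvPolynomial σ R}
    (hK : LinePLow a K) (hL : LinePLow (b + 1) L) : LinePLow (a + b) (K * L) := by
  classical
  intro t ht
  have := MvPolynomial.support_mul K L ht
  rcases Finset.mem_add.1 this with ⟨x, hx, y, hy, rfl⟩
  have h1 := hK x hx
  have h2 := hL y hy
  rw [map_add]
  omega

private theorem LinePLow.mul' {σ : Type*} {a b : ℕ} {K L : MvPolynomial σ R}
    (hK : LinePLow (a + 1) K) (hL : LinePLow b L) : LinePLow (a + b) (K * L) := by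
  rw [mul_comm K L, add_comm a b]
  exact hL.mul hK

private theorem LinePLow.mono {σ : Type*} {a b : ℕ} {K : MvPolynomial σ R}
    (hK : LinePLow a K) (h : a ≤ b) : LinePLow b K :=
  fun t ht => lt_of_lt_of_le (hK t ht) h

/-- the pair `(G, H)`: `H` has degree at most `n` and so has `G`; same part in degree `n` -/
private def LinePRel {σ : Type*} (n : ℕ) (G H : MvPolynomial σ R) : Prop :=
  LinePLow (n + 1) H ∧ LinePLow n (G - H)

private theorem LinePRel.mul {σ : Type*} {a b : ℕ} {G H G' H' : MvPolynomial σ R}
    (h : LinePRel a G H) (h' : LinePRel b G' H') : LinePRel (a + b) (G * G') (H * H') := by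
  refine ⟨?_, ?_⟩
  · have := h.1.mul h'.1
    exact this.mono (by omega)
  · have e1 : G * G' - H * H' = H * (G' - H') + (G - H) * H' + (G - H) * (G' - H') := by ring
    rw [e1]
    refine ((h.1.mul' h'.2).add (h.2.mul h'.1)).add ?_
    exact h.2.mul (h'.2.mono (Nat.le_succ b))

private theorem LinePRel.one {σ : Type*} : LinePRel 0 (1 : MvPolynomial σ R) 1 := by
  classical
  refine ⟨?_, ?_⟩
  · intro t ht
    have : t = 0 := by
      by_contra hne
      rw [mem_support_iff, coeff_one, if_neg (fun h => hne h.symm)] at ht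
      exact ht rfl
    subst this
    simp
  · rw [sub_self]
    exact LinePLow.zero 0

private theorem LinePRel.pow {σ : Type*} {a : ℕ} {G H : MvPolynomial σ R}
    (h : LinePRel a G H) (k : ℕ) : LinePRel (k * a) (G ^ k) (H ^ k) := by
  induction k with
  | zero => simpa using LinePRel.one
  | succ k ih =>
    rw [pow_succ, pow_succ, Nat.succ_mul]
    exact ih.mul h

private theorem LinePRel.prod {σ κ : Type*} (s : Finset κ) (a : κ → ℕ)
    (G H : κ → MvPolynomial σ R) (h : ∀ i ∈ s, LinePRel (a i) (G i) (H i)) :
    LinePRel (∑ i ∈ s, a i) (∏ i ∈ s, G i) (∏ i ∈ s, H i) := by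
  classical
  induction s using Finset.induction_on with
  | empty => simpa using LinePRel.one
  | insert i s hi ih =>
    rw [Finset.sum_insert hi, Finset.prod_insert hi, Finset.prod_insert hi]
    exact (h i (Finset.mem_insert_self i s)).mul
      (ih (fun j hj => h j (Finset.mem_insert_of_mem hj)))

private theorem LinePRel.sum {σ κ : Type*} {n : ℕ} (s : Finset κ)
    (G H : κ → MvPolynomial σ R) (h : ∀ i ∈ s, LinePRel n (G i) (H i)) :
    LinePRel n (∑ i ∈ s, G i) (∑ i ∈ s, H i) := by
  classical
  induction s using Finset.induction_on with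
  | empty =>
    refine ⟨?_, ?_⟩
    · simpa using LinePLow.zero (R := R) (σ := σ) (n + 1)
    · simpa using LinePLow.zero (R := R) (σ := σ) n
  | insert i s hi ih =>
    rw [Finset.sum_insert hi, Finset.sum_insert hi]
    have h1 := h i (Finset.mem_insert_self i s)
    have h2 := ih (fun j hj => h j (Finset.mem_insert_of_mem hj))
    refine ⟨h1.1.add h2.1, ?_⟩
    rw [add_sub_add_comm]
    exact h1.2.add h2.2

private theorem LinePRel.C_mul {σ : Type*} {n : ℕ} {G H : MvPolynomial σ R} (c : R)
    (h : LinePRel n G H) : LinePRel n (C c * G) (C c * H) := by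
  classical
  have hc : LinePRel 0 (C c : MvPolynomial σ R) (C c) := by
    refine ⟨?_, ?_⟩
    · intro t ht
      have : t = 0 := by
        by_contra hne
        rw [mem_support_iff, coeff_C, if_neg (fun h => hne h.symm)] at ht
        exact ht rfl
      subst this
      simp
    · rw [sub_self]
      exact LinePLow.zero 0
  simpa using hc.mul h

private theorem linePRel_lin (c : R) (g : Fin r → R) :
    LinePRel 1 (C c + ∑ j, C (g j) * X j : MvPolynomial (Fin r) R)
      (∑ j, C (g j) * X j) := by
  classical
  refine ⟨?_, ?_⟩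
  · intro t ht
    by_contra hlt
    push Not at hlt
    rw [mem_support_iff] at ht
    apply ht
    rw [coeff_sum]
    refine Finset.sum_eq_zero (fun j _ => ?_)
    rw [coeff_C_mul, coeff_X]
    rw [if_neg, mul_zero]
    rintro rfl
    simp at hlt
  · rw [add_sub_cancel_right]
    intro t ht
    have : t = 0 := by
      by_contra hne
      rw [mem_support_iff, coeff_C, if_neg (fun h => hne h.symm)] at ht
      exact ht rfl
    subst this
    simp

private theorem linePRel_lineP (v₀ : ι → R) (e : Fin r → ι → R) {F : MvPolynomial ι R} {d : ℕ}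
    (hF : F.IsHomogeneous d) : LinePRel d (lineP v₀ e F) (lineP 0 e F) := by
  classical
  have hsum : ∀ v : ι → R, lineP v e F = ∑ s ∈ F.support, C (coeff s F) *
      ∏ i, (C (v i) + ∑ j, C (e j i) * X j : MvPolynomial (Fin r) R) ^ (s i) := by
    intro v
    unfold lineP
    conv_lhs => rw [F.as_sum]
    rw [map_sum]
    refine Finset.sum_congr rfl (fun s _ => ?_)
    rw [bind₁_monomial]
    congr 1
    refine Finset.prod_subset (Finset.subset_univ _) (fun i _ hi => ?_)
    rw [Finsupp.notMem_support_iff.1 hi, pow_zero]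
  rw [hsum v₀, hsum 0]
  refine LinePRel.sum _ _ _ (fun s hs => LinePRel.C_mul _ ?_)
  have hdeg : ∑ i, s i * 1 = d := by
    have h1 := hF (mem_support_iff.1 hs)
    rw [Finsupp.weight_apply, Finsupp.sum_fintype] at h1
    · simpa using h1
    · intro i
      simp
  rw [← hdeg]
  refine LinePRel.prod _ _ _ _ (fun i _ => LinePRel.pow ?_ (s i))
  have := linePRel_lin (v₀ i) (fun j => e j i)
  simpa using this

theorem lineP_totalDegree (v₀ : ι → R) (e : Fin r → ι → R) {F : MvPolynomial ι R} {d : ℕ}
    (hF : F.IsHomogeneous d) : (lineP v₀ e F).totalDegree ≤ d := by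
  classical
  have h := linePRel_lineP v₀ e hF
  have h1 : LinePLow (d + 1) (lineP v₀ e F) := by
    have := (h.2.mono (Nat.le_succ d)).add h.1
    rwa [sub_add_cancel] at this
  refine Finset.sup_le (fun t ht => ?_)
  have h2 := h1 t ht
  rw [Finsupp.degree_apply] at h2
  exact Nat.lt_succ_iff.1 h2

theorem lineP_coeff (v₀ : ι → R) (e : Fin r → ι → R) {F : MvPolynomial ι R} {d : ℕ}
    (hF : F.IsHomogeneous d) (hd : d ≤ r) :
    (lineP v₀ e F).coeff (Finsupp.equivFunOnFinite.symm 1) =
      (lineP 0 e F).coeff (Finsupp.equivFunOnFinite.symm 1) := by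
  classical
  have h := (linePRel_lineP v₀ e hF).2
  by_contra hne
  have h1 : Finsupp.equivFunOnFinite.symm (1 : Fin r → ℕ) ∈
      (lineP v₀ e F - lineP 0 e F).support := by
    rw [mem_support_iff, coeff_sub]
    exact sub_ne_zero.2 hne
  have h2 := h _ h1
  rw [Finsupp.degree_eq_sum] at h2
  simp at h2
  omega

theorem lineP_coeff_zero (v₀ : ι → R) (e : Fin r → ι → R) {F : MvPolynomial ι R} {d : ℕ}
    (hF : F.IsHomogeneous d) (hd : d < r) :
    (lineP v₀ e F).coeff (Finsupp.equivFunOnFinite.symm 1) = 0 := by
  classical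
  have h := linePRel_lineP v₀ e hF
  have h1 : LinePLow (d + 1) (lineP v₀ e F) := by
    have := (h.2.mono (Nat.le_succ d)).add h.1
    rwa [sub_add_cancel] at this
  by_contra hne
  have h2 := h1 _ (mem_support_iff.2 hne)
  rw [Finsupp.degree_eq_sum] at h2
  simp at h2
  omega

end MTate
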