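import Mathlib
import Pool.Agent.Lib.MP_5deabe_nt_DF.Diag
import Pool.Agent.Lib.MP_5deabe_nt_DF.GoodM
import Pool.Agent.Lib.MP_5deabe_nt_DF.Coord
import Pool.Agent.Lib.MP_5deabe_nt_DF.LineP

/-!
# A Nullstellensatz for the determinant over `ℤ/p^n`

Let `B` be an additive map from `V` onto the symmetric matrices over `R = ℤ/p^n`, `c : V → R^ι`
additive and `F` a form of degree `d ≤ r < p` in the variables `ι`.  If `F(c v) = 0` whenever `B v`
is degenerate and, if `d = r`, also for one `v` with `B v` invertible, then `F(c v) = 0` for all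
`v`.  (If only the first condition holds, `F(c v)` is a constant multiple of `det (B v)`.)

PROOF.  For a matrix `A` call `e : Fin r → V` *lifts for `A`* if
`B (e i) = Aᵀ diag(δ_i) A` for all `i` (`δ_i = Pi.single i 1`; they exist by `honto`), and put
`K e = (lineP 0 (fun i => c (e i)) F).coeff (Finsupp.equivFunOnFinite.symm 1)`.

(a) If `A` is invertible (`IsUnit A.det`), `e` are lifts for `A` and `B v = Aᵀ diag(d) A`, then
`eval (c v) F = K e * ∏ i, d i` (and `K e = 0` if `d < r`).  Proof: apply `coord_poly` to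
`P = lineP (c v) (fun i => c (e i)) F`: the total degree is `≤ d ≤ r` (`lineP_totalDegree`), and if
`b i = - d i` for some `i` then with `w = v + ∑ j, (b j).val • e j` one has
`eval b P = eval (c w) F` (`lineP_eval`; `c` is additive and `((b j).val : R) = b j`,
`ZMod.natCast_zmod_val`) and `B w = Aᵀ diag(d + b) A` is degenerate: the vector `A⁻¹ δ_i` is in the
kernel, and it has a unit coordinate, because otherwise all its coordinates would be in the maximal
ideal (non-units of `ℤ/p^n`, `n ≥ 1`, are the multiples of `p`), hence also `1 = (A (A⁻¹ δ_i)) i`.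
Then `P(0) = eval (c v) F` and use `lineP_coeff` / `lineP_coeff_zero`.

If `d < r` this proves everything, by `diag_transvec` (a product of transvections has determinant
`1`: `Matrix.TransvectionStruct.det_toMatrix_prod`).  Now let `d = r`.

(b) If `A` is invertible, `M` is `Good`, `e` are lifts for `A` with `K e = 0` and `e'` are lifts for
`M * A`, then `K e' = 0`.  Proof: let `a`, `a'` be as in `Good`, so
`(M A)ᵀ diag(a) (M A) = Aᵀ diag(a') A`; take `v` with this matrix as `B v` (it is symmetric).  By
(a), twice, `K e' * ∏ a i = eval (c v) F = K e * ∏ a' i = 0`, and `∏ a i` is a unit.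

(c) By `h2` there is `v` with `B v` invertible and `eval (c v) F = 0`; by `diag_transvec`
`B v = Aᵀ diag(d) A`, `A` a product of transvections, and `∏ d i = det (B v)` is a unit, so by (a)
`K e = 0` for all lifts `e` for `A`.  Let `v'` be arbitrary, `B v' = A'ᵀ diag(d') A'`.
`A' = (A' A⁻¹) A`, where `A' A⁻¹` is a product of transvections (the inverse of a transvection is a
transvection, `Matrix.TransvectionStruct.inv`), so by `transvec_good` a product of good matrices,
and by (b), repeatedly, `K e' = 0` for the lifts `e'` for `A'`.  By (a), `eval (c v') F = 0`.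
-/

namespace MTate

open Matrix MvPolynomial

/-- some vector with a unit coordinate is in the kernel -/
def Degen {p n r : ℕ} (M : Matrix (Fin r) (Fin r) (ZMod (p ^ n))) : Prop :=
  ∃ w : Fin r → ZMod (p ^ n), (∃ i, IsUnit (w i)) ∧ M.mulVec w = 0

section aux

variable {p : ℕ} [Fact p.Prime] {n r : ℕ}

private theorem Rigid_unit_of_cast (hn : 1 ≤ n) {x : ZMod (p ^ n)}
    (h : ZMod.castHom (dvd_pow_self p (by omega : n ≠ 0)) (ZMod p) x ≠ 0) : IsUnit x := by
  have hp := (Fact.out : p.Prime)
  haveI : NeZero (p ^ n) := ⟨pow_ne_zero _ hp.ne_zero⟩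
  have hx : ((x.val : ℕ) : ZMod (p ^ n)) = x := ZMod.natCast_zmod_val x
  rw [← hx, map_natCast] at h
  rw [← hx, ZMod.isUnit_iff_coprime]
  refine Nat.Coprime.pow_right n ?_
  rw [Nat.coprime_comm, hp.coprime_iff_not_dvd]
  intro hd
  exact h ((ZMod.natCast_eq_zero_iff _ _).2 hd)

/-- a congruent of a degenerate diagonal matrix is degenerate -/
private theorem Rigid_degen (hn : 1 ≤ n) {A : Matrix (Fin r) (Fin r) (ZMod (p ^ n))}
    (hA : IsUnit A.det) {d : Fin r → ZMod (p ^ n)} {i : Fin r} (hi : d i = 0) :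
    Degen (Aᵀ * diagonal d * A) := by
  have h1 : A.mulVec (A⁻¹.mulVec (Pi.single i 1)) = Pi.single i 1 := by
    rw [mulVec_mulVec, mul_nonsing_inv _ hA, one_mulVec]
  refine ⟨A⁻¹.mulVec (Pi.single i 1), ?_, ?_⟩
  · by_contra hno
    have h2 : ∀ j, ZMod.castHom (dvd_pow_self p (by omega : n ≠ 0)) (ZMod p)
        ((A⁻¹.mulVec (Pi.single i 1)) j) = 0 := by
      intro j
      by_contra h3
      exact hno ⟨j, Rigid_unit_of_cast hn h3⟩
    have h3 := congrArg (ZMod.castHom (dvd_pow_self p (by omega : n ≠ 0)) (ZMod p))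
      (congrFun h1 i)
    rw [Pi.single_eq_same, map_one] at h3
    unfold Matrix.mulVec at h3
    unfold dotProduct at h3
    rw [map_sum] at h3
    have h4 : ∀ j ∈ (Finset.univ : Finset (Fin r)),
        ZMod.castHom (dvd_pow_self p (by omega : n ≠ 0)) (ZMod p)
          (A i j * (A⁻¹.mulVec (Pi.single i 1)) j) = 0 := by
      intro j _
      rw [map_mul, h2 j, mul_zero]
    have h5 := Finset.sum_eq_zero h4
    unfold Matrix.mulVec at h5
    unfold dotProduct at h5
    rw [h5] at h3
    exact zero_ne_one h3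
  · rw [← mulVec_mulVec, h1, ← mulVec_mulVec]
    have h2 : (diagonal d).mulVec (Pi.single i (1 : ZMod (p ^ n))) = 0 := by
      funext k
      rw [mulVec_diagonal, Pi.zero_apply]
      by_cases hk : k = i
      · subst hk
        rw [hi, zero_mul]
      · rw [Pi.single_eq_of_ne hk, mul_zero]
    rw [h2, mulVec_zero]

variable {ι : Type} [Fintype ι] {V : Type*} [AddCommGroup V]

/-- `e` lifts the rank one forms of the coordinates `A` -/
private def Rigid_Lifts (B : V →+ Matrix (Fin r) (Fin r) (ZMod (p ^ n)))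
    (A : Matrix (Fin r) (Fin r) (ZMod (p ^ n))) (e : Fin r → V) : Prop :=
  ∀ i, B (e i) = Aᵀ * diagonal (Pi.single i 1) * A

private theorem Rigid_symm (A : Matrix (Fin r) (Fin r) (ZMod (p ^ n)))
    (d : Fin r → ZMod (p ^ n)) : (Aᵀ * diagonal d * A).IsSymm := by
  unfold Matrix.IsSymm
  rw [transpose_mul, transpose_mul, transpose_transpose, diagonal_transpose, Matrix.mul_assoc]

private theorem Rigid_exists (B : V →+ Matrix (Fin r) (Fin r) (ZMod (p ^ n)))
    (honto : ∀ S : Matrix (Fin r) (Fin r) (ZMod (p ^ n)), S.IsSymm → ∃ v, B v = S)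
    (A : Matrix (Fin r) (Fin r) (ZMod (p ^ n))) : ∃ e, Rigid_Lifts B A e := by
  choose e he using fun i : Fin r => honto (Aᵀ * diagonal (Pi.single i 1) * A) (Rigid_symm A _)
  exact ⟨e, he⟩

/-- the coefficient `K e` -/
private noncomputable def Rigid_K (c : V →+ (ι → ZMod (p ^ n)))
    (F : MvPolynomial ι (ZMod (p ^ n))) (e : Fin r → V) : ZMod (p ^ n) :=
  (lineP 0 (fun i => c (e i)) F).coeff (Finsupp.equivFunOnFinite.symm 1)

private theorem Rigid_formula (hn : 1 ≤ n) (hr : r < p)
    (c : V →+ (ι → ZMod (p ^ n)))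
    (B : V →+ Matrix (Fin r) (Fin r) (ZMod (p ^ n)))
    {d : ℕ} (hd : d ≤ r) {F : MvPolynomial ι (ZMod (p ^ n))} (hF : F.IsHomogeneous d)
    (h1 : ∀ v, Degen (B v) → eval (c v) F = 0)
    {A : Matrix (Fin r) (Fin r) (ZMod (p ^ n))} (hA : IsUnit A.det) {e : Fin r → V}
    (he : Rigid_Lifts B A e) {a : Fin r → ZMod (p ^ n)} {v : V}
    (hv : B v = Aᵀ * diagonal a * A) :
    eval (c v) F = Rigid_K c F e * ∏ i, a i := by
  have hp := (Fact.out : p.Prime)
  haveI : NeZero (p ^ n) := ⟨pow_ne_zero _ hp.ne_zero⟩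
  have h2 := coord_poly hr (P := lineP (c v) (fun i => c (e i)) F)
    ((lineP_totalDegree _ _ hF).trans hd) a (by
      rintro b ⟨i, hi⟩
      rw [lineP_eval]
      have hw : c v + ∑ j, b j • c (e j) = c (v + ∑ j, (b j).val • e j) := by
        rw [map_add, map_sum]
        congr 1
        refine Finset.sum_congr rfl fun j _ => ?_
        rw [map_nsmul, ← Nat.cast_smul_eq_nsmul (ZMod (p ^ n)), ZMod.natCast_zmod_val]
      rw [hw]
      apply h1
      have hB : B (v + ∑ j, (b j).val • e j) = Aᵀ * diagonal (a + b) * A := by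
        rw [map_add, map_sum, hv]
        have h3 : ∀ j ∈ (Finset.univ : Finset (Fin r)), B ((b j).val • e j) =
            Aᵀ * diagonal (Pi.single j (b j)) * A := by
          intro j _
          rw [map_nsmul, ← Nat.cast_smul_eq_nsmul (ZMod (p ^ n)), ZMod.natCast_zmod_val, he j,
            ← Matrix.smul_mul, ← Matrix.mul_smul, ← diagonal_smul]
          congr 3
          funext k
          rw [Pi.smul_apply, smul_eq_mul]
          by_cases hk : k = j
          · subst hk
            rw [Pi.single_eq_same, Pi.single_eq_same, mul_one]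
          · rw [Pi.single_eq_of_ne hk, Pi.single_eq_of_ne hk, mul_zero]
        rw [Finset.sum_congr rfl h3, ← Finset.sum_mul, ← Finset.mul_sum, ← Matrix.add_mul,
          ← Matrix.mul_add]
        congr 2
        have h4 : (∑ j, diagonal (Pi.single j (b j)) : Matrix (Fin r) (Fin r) (ZMod (p ^ n))) =
            diagonal b := by
          ext k l
          rw [Matrix.sum_apply]
          by_cases hkl : k = l
          · subst hkl
            simp [Pi.single_apply]
          · simp [diagonal_apply_ne _ hkl]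
        rw [h4, diagonal_add]
        rfl
      rw [hB]
      refine Rigid_degen hn hA (i := i) ?_
      rw [Pi.add_apply, hi, add_neg_cancel])
  rw [lineP_eval, lineP_coeff _ _ hF hd] at h2
  have h5 : c v + ∑ j, (0 : Fin r → ZMod (p ^ n)) j • c (e j) = c v := by
    simp
  rw [h5] at h2
  exact h2

end aux

theorem rigid {p : ℕ} [Fact p.Prime] (hp : 5 ≤ p) {n r : ℕ} (hn : 1 ≤ n) (hr : r < p)
    {ι : Type} [Fintype ι] {V : Type*} [AddCommGroup V] (c : V →+ (ι → ZMod (p ^ n)))
    (B : V →+ Matrix (Fin r) (Fin r) (ZMod (p ^ n))) (hsym : ∀ v, (B v).IsSymm)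
    (honto : ∀ S : Matrix (Fin r) (Fin r) (ZMod (p ^ n)), S.IsSymm → ∃ v, B v = S)
    {d : ℕ} (hd : d ≤ r) {F : MvPolynomial ι (ZMod (p ^ n))} (hF : F.IsHomogeneous d)
    (h1 : ∀ v, Degen (B v) → eval (c v) F = 0)
    (h2 : d = r → ∃ v, IsUnit (B v).det ∧ eval (c v) F = 0) (v : V) : eval (c v) F = 0 := by
  have hp2 : p ≠ 2 := by omega
  obtain ⟨L, a, hL⟩ := diag_transvec hp2 (B v) (hsym v)
  have hdet : ∀ L : List (TransvectionStruct (Fin r) (ZMod (p ^ n))),
      IsUnit ((L.map TransvectionStruct.toMatrix).prod).det := by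
    intro L
    rw [TransvectionStruct.det_toMatrix_prod]
    exact isUnit_one
  rcases Nat.lt_or_ge d r with hdr | hdr
  · obtain ⟨e, he⟩ := Rigid_exists B honto (L.map TransvectionStruct.toMatrix).prod
    rw [Rigid_formula hn hr c B hd hF h1 (hdet L) he hL]
    unfold Rigid_K
    rw [lineP_coeff_zero _ _ hF hdr, zero_mul]
  · have hdr' : d = r := le_antisymm hd hdr
    -- `Z A`: the coefficient vanishes for all lifts
    let Z : Matrix (Fin r) (Fin r) (ZMod (p ^ n)) → Prop := fun A =>
      IsUnit A.det ∧ ∀ e, Rigid_Lifts B A e → Rigid_K c F e = 0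
    have hgood : ∀ M A, Z A → Good M → Z (M * A) := by
      rintro M A ⟨hA, hZ⟩ ⟨hM, x, x', hx, hxM⟩
      have hMA : IsUnit (M * A).det := by
        rw [det_mul]
        exact hM.mul hA
      refine ⟨hMA, fun e' he' => ?_⟩
      obtain ⟨e, he⟩ := Rigid_exists B honto A
      obtain ⟨w, hw⟩ := honto (Aᵀ * diagonal x' * A) (Rigid_symm A x')
      have hw' : B w = (M * A)ᵀ * diagonal x * (M * A) := by
        rw [hw, ← hxM, transpose_mul]
        simp only [Matrix.mul_assoc]
      have h3 := Rigid_formula hn hr c B hd hF h1 hA he hw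
      have h4 := Rigid_formula hn hr c B hd hF h1 hMA he' hw'
      rw [hZ e he, zero_mul] at h3
      rw [h3] at h4
      have hu : IsUnit (∏ i, x i) := by
        rw [IsUnit.prod_univ_iff]
        exact hx
      exact (hu.mul_left_eq_zero).1 h4.symm
    have hlist : ∀ (L : List (TransvectionStruct (Fin r) (ZMod (p ^ n)))) A, Z A →
        Z ((L.map TransvectionStruct.toMatrix).prod * A) := by
      intro L
      induction L with
      | nil =>
        intro A hA
        rw [List.map_nil, List.prod_nil, Matrix.one_mul]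
        exact hA
      | cons t L ih =>
        intro A hA
        obtain ⟨M₁, M₂, hM₁, hM₂, ht⟩ := transvec_good hp hn t
        rw [List.map_cons, List.prod_cons, ht, Matrix.mul_assoc, Matrix.mul_assoc]
        exact hgood _ _ (hgood _ _ (ih A hA) hM₂) hM₁
    obtain ⟨v0, hv0, hv00⟩ := h2 hdr'
    obtain ⟨L0, a0, hL0⟩ := diag_transvec hp2 (B v0) (hsym v0)
    have hZ0 : Z (L0.map TransvectionStruct.toMatrix).prod := by
      refine ⟨hdet L0, fun e he => ?_⟩
      have h3 := Rigid_formula hn hr c B hd hF h1 (hdet L0) he hL0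
      rw [hv00] at h3
      have hu : IsUnit (∏ i, a0 i) := by
        have h4 := hv0
        rw [hL0, det_mul, det_mul, det_transpose, TransvectionStruct.det_toMatrix_prod,
          det_diagonal, one_mul, mul_one] at h4
        exact h4
      exact (hu.mul_left_eq_zero).1 h3.symm
    have hZ1 : Z 1 := by
      have h3 := hlist (L0.reverse.map TransvectionStruct.inv) _ hZ0
      rw [List.map_map, TransvectionStruct.reverse_inv_prod_mul_prod] at h3
      exact h3
    have hZv := hlist L 1 hZ1
    rw [Matrix.mul_one] at hZv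
    obtain ⟨e, he⟩ := Rigid_exists B honto (L.map TransvectionStruct.toMatrix).prod
    rw [Rigid_formula hn hr c B hd hF h1 (hdet L) he hL, hZv.2 e he, zero_mul]

end MTate
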