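import Mathlib
import Pool.Agent.Lib.MP_5deabe_nt_DF.Rigid
import Pool.Agent.Lib.MP_5deabe_nt_DF.Fac

/-!
# Group rings: elements which vanish at the degenerate homomorphisms

Let `H` be a finite abelian group with `h ^ (p ^ n) = 1`, `β i j = β j i ∈ H`
(`i, j ∈ Fin r`, `1 ≤ r < p`) elements on which homomorphisms `H → ℤ/p^n` take arbitrary (symmetric)
values, and let `x ∈ ℤ_p[H]` be such that `push ψ x ∈ I^{r+1}` for all `ψ : H → ℤ/p^j`, `j ≤ n`, for
which the matrix `ψ(β i j)` is degenerate.  Then `x ∈ I^r`, and `x ∈ I^{r+1}` if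
`push ψ x ∈ I^{r+1}` for one `ψ : H → ℤ/p^n` with invertible matrix `ψ(β i j)`.

PROOF.  Let `Good k` be the statement `x ∈ I^k`.

(0) `x ∈ I`: take `j = 0` and `ψ = 1 : H → Cpn p 0`; with `a = 1` (`r ≥ 1`, so there is an `i`, and
`p` does not divide `1`) the hypothesis gives `push ψ x ∈ I^{r+1}`, so `eps x = eps (push ψ x) = 0`
(`eps_push`, `mem_augI`, `Ideal.pow_le_self`).

(1) Let `1 ≤ k ≤ r`, `x ∈ I^k`, and if `k = r` assume that there is `ψ₀ : H → Cpn p n` with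
invertible matrix and `push ψ₀ x ∈ I^{r+1}`.  Claim: `x ∈ I^{k+1}`.
Let `g : ι → H` be a finite family of generators, e.g. `ι = Fin (Nat.card H)` with a bijection onto
`H` (or `exists_homog` with `ι` a `Fintype` in `Type`), and `F` a form of degree `k` with
`x - Phi g F ∈ I^{k+1}` (`exists_homog`).

(1a) Let `j ≤ n` and `φ : H → Cpn p j` with `push φ x ∈ I^{k+1}`, `t i` natural numbers with
`φ (g i) = gam p j ^ t i` (`gam_pow_val`).  Then `push φ (Phi g F) ∈ I^{k+1}`, so by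
`eval_dvd_of_push` `p ^ j` divides `F(t)`.  So the form `F_j = F.map (PadicInt.toZModPow j)` over
`ZMod (p ^ j)`, homogeneous of degree `k`, vanishes at the vector `c φ = (toAdd (φ (g i)))_i`.

(1b) Let `1 ≤ j ≤ n`.  Apply `rigid` to `V = Additive (H →* Cpn p j)`, `c φ = (toAdd (φ (g i)))_i`,
`B φ = (toAdd (φ (β i i')))`, `F = F_j`, `d = k`.  `hsym`: `β` is symmetric.
`honto`: lift `S` to a symmetric matrix over `ZMod (p ^ n)` (e.g. `((S i i').val : ZMod (p ^ n))`),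
take `ψ` from the hypothesis and compose with `redC`.  `h1`: if `w` has a unit coordinate and
`(B φ).mulVec w = 0`, take `a i = ((w i).val : ℤ)`; `p` does not divide `a i` if `w i` is a unit
(`j ≥ 1`), and `φ (∏ i, β i i' ^ a i) = ofAdd (∑ i, a i * B φ i i') = 1` by the symmetry of `B φ`.
So `push φ x ∈ I^{r+1} ≤ I^{k+1}` by the hypothesis, and `F_j (c φ) = 0` by (1a).
`h2`, `k = r`: the composition `φ₀` of `ψ₀` with `redC` satisfies `push φ₀ x ∈ I^{r+1}` and its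
matrix is the image of the matrix of `ψ₀`, so it is invertible (`RingHom.map_det`).
Conclusion: `F_j (c φ) = 0` for all `φ : H → Cpn p j`, i.e. `p ^ j ∣ F(t)` for `t` as in (1a)
(`PadicInt.ker_toZModPow`).

(1c) So `push φ x ∈ I^{k+1}` for all `φ : H → Cpn p j`, `j ≤ n`: by `push_Phi_mem` below
`push φ (Phi g F) ∈ I^{k+1}`.  (For `j = 0` the group ring of the trivial group has `I = 0`; there
`push φ x = 0` as `eps x = 0`: or simply `push_Phi_mem` with `p ^ 0 = 1 ∣ F(t)`.)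
For `j > n` and `φ : H → Cpn p j`, use `factor_le` (`h ^ (p ^ n) = 1`) and `push_push`, `push_mem`.

(1d) By `cyc_step`, `x ∈ I^{k+1}`.

`push_Phi_mem`: let `φ (g i) = γ ^ t i`, `γ = gam p j`.  With `z = of γ - 1`:
`of (γ ^ t) - 1 ≡ t z` modulo `I²`, so by `aeval_cong` and `aeval_smul_homog` (in `Cyc2`)
`push φ (Phi g F) ≡ F(t) z ^ k` modulo `I^{k+1}` (see the proof of `eval_dvd_of_push` in `Cyc3`),
and `p ^ j z ∈ I²` (`pow_mul_sub_one_mem`, or `nsmul_sub_one_mem` with `γ ^ (p ^ j) = 1`), so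
`F(t) z ^ k ∈ I^{k+1}` as `k ≥ 1`.
-/

namespace MTate

open MonoidAlgebra

variable {p : ℕ} [hp : Fact p.Prime]

theorem push_Phi_mem {ι : Type} {G : Type*} [CommGroup G] {g : ι → G} {k j : ℕ} (hk : 1 ≤ k)
    {F : MvPolynomial ι ℤ_[p]} (hF : F.IsHomogeneous k) (φ : G →* Cpn p j) (t : ι → ℕ)
    (ht : ∀ i, φ (g i) = gam p j ^ t i)
    (h : (p : ℤ_[p]) ^ j ∣ MvPolynomial.eval (fun i => (t i : ℤ_[p])) F) :
    push φ (Phi g F) ∈ augI ℤ_[p] (Cpn p j) ^ (k + 1) := by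
  set z := of ℤ_[p] (Cpn p j) (gam p j) - 1 with hz
  have hzI : z ∈ augI ℤ_[p] (Cpn p j) := of_sub_one_mem _
  have h1 : push φ (Phi g F) = MvPolynomial.aeval (fun i => of ℤ_[p] _ (φ (g i)) - 1) F := by
    unfold Phi
    have h0 := congrArg (fun e => e F) (MvPolynomial.comp_aeval
      (fun i => of ℤ_[p] G (g i) - 1) (push φ))
    have h0' : push φ (MvPolynomial.aeval (fun i => of ℤ_[p] G (g i) - 1) F) =
      MvPolynomial.aeval (fun i => push φ (of ℤ_[p] G (g i) - 1)) F := h0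
    rw [h0']
    congr 2
    funext i
    rw [map_sub, push_of, map_one]
  have h2 : ∀ i, Cong (augI ℤ_[p] (Cpn p j)) 1 (of ℤ_[p] _ (φ (g i)) - 1)
      (algebraMap ℤ_[p] _ (t i : ℤ_[p]) * z) := by
    intro i
    refine ⟨by rw [pow_one]; exact of_sub_one_mem _, ?_⟩
    obtain ⟨w, hw⟩ := one_add_pow_exists z (t i)
    have h3 : of ℤ_[p] _ (φ (g i)) = 1 + (t i : MonoidAlgebra ℤ_[p] (Cpn p j)) * z + z ^ 2 * w := by
      rw [ht, map_pow, ← hw, hz]
      congr 1
      ring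
    have h4 : of ℤ_[p] _ (φ (g i)) - 1 - algebraMap ℤ_[p] _ (t i : ℤ_[p]) * z = z ^ 2 * w := by
      rw [h3, map_natCast]
      ring
    rw [h4]
    exact Ideal.mul_mem_right _ _ (Ideal.pow_mem_pow hzI 2)
  have h3 := (aeval_cong hF h2).2
  rw [aeval_smul_homog hF, ← h1] at h3
  have h4 : algebraMap ℤ_[p] _ (MvPolynomial.eval (fun i => (t i : ℤ_[p])) F) * z ^ k ∈
      augI ℤ_[p] (Cpn p j) ^ (k + 1) := by
    obtain ⟨c, hc⟩ := h
    obtain ⟨w, hw⟩ := nsmul_sub_one_mem (R := ℤ_[p]) (gam_pow_card (p := p) j)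
    obtain ⟨k', rfl⟩ : ∃ k', k = k' + 1 := ⟨k - 1, by omega⟩
    have h5 : algebraMap ℤ_[p] (MonoidAlgebra ℤ_[p] (Cpn p j))
        (MvPolynomial.eval (fun i => (t i : ℤ_[p])) F) * z ^ (k' + 1) =
        z ^ (k' + 1 + 1) * (algebraMap ℤ_[p] _ c * w) := by
      have h6 : algebraMap ℤ_[p] (MonoidAlgebra ℤ_[p] (Cpn p j)) ((p : ℤ_[p]) ^ j) =
          ((p ^ j : ℕ) : MonoidAlgebra ℤ_[p] (Cpn p j)) := by
        rw [← Nat.cast_pow, map_natCast]
      rw [hc, map_mul, h6]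
      calc ((p ^ j : ℕ) : MonoidAlgebra ℤ_[p] (Cpn p j)) * algebraMap ℤ_[p] _ c * z ^ (k' + 1)
          = algebraMap ℤ_[p] _ c * z ^ k' *
            (((p ^ j : ℕ) : MonoidAlgebra ℤ_[p] (Cpn p j)) * z) := by ring
        _ = algebraMap ℤ_[p] _ c * z ^ k' * (z ^ 2 * w) := by rw [hz, hw]
        _ = z ^ (k' + 1 + 1) * (algebraMap ℤ_[p] _ c * w) := by ring
    rw [h5]
    exact Ideal.mul_mem_right _ _ (Ideal.pow_mem_pow hzI _)
  have h5 := Ideal.add_mem _ h3 h4
  rwa [sub_add_cancel] at h5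

/-- values of the form in terms of exponents -/
private theorem Core2_eval {ι : Type} {H : Type*} [CommGroup H] (g : ι → H)
    (F : MvPolynomial ι ℤ_[p]) {j : ℕ} (φ : H →* Cpn p j) (t : ι → ℕ)
    (ht : ∀ i, φ (g i) = gam p j ^ t i) :
    MvPolynomial.eval (fun i => Multiplicative.toAdd (φ (g i)))
      (MvPolynomial.map (PadicInt.toZModPow (p := p) j) F) = 0 ↔
    (p : ℤ_[p]) ^ j ∣ MvPolynomial.eval (fun i => (t i : ℤ_[p])) F := by
  have h1 : MvPolynomial.eval (fun i => Multiplicative.toAdd (φ (g i)))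
      (MvPolynomial.map (PadicInt.toZModPow (p := p) j) F) =
      PadicInt.toZModPow (p := p) j (MvPolynomial.eval (fun i => (t i : ℤ_[p])) F) := by
    rw [MvPolynomial.eval_map, MvPolynomial.eval, MvPolynomial.coe_eval₂Hom,
      MvPolynomial.hom_eval₂]
    congr 1
    funext i
    rw [ht i, toAdd_pow, map_natCast]
    simp [gam]
  rw [h1, ← RingHom.mem_ker, PadicInt.ker_toZModPow, Ideal.mem_span_singleton]

/-- the additive map of the coordinates -/
private def Core2_c {ι : Type} {H : Type*} [CommGroup H] (g : ι → H) (j : ℕ) :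
    Additive (H →* Cpn p j) →+ (ι → ZMod (p ^ j)) where
  toFun v i := Multiplicative.toAdd ((Additive.toMul v) (g i))
  map_zero' := rfl
  map_add' _ _ := rfl

/-- the additive map of the matrices -/
private def Core2_B {r : ℕ} {H : Type*} [CommGroup H] (β : Fin r → Fin r → H) (j : ℕ) :
    Additive (H →* Cpn p j) →+ Matrix (Fin r) (Fin r) (ZMod (p ^ j)) where
  toFun v := Matrix.of fun i i' => Multiplicative.toAdd ((Additive.toMul v) (β i i'))
  map_zero' := rfl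
  map_add' _ _ := rfl

private theorem Core2_degen {r : ℕ} {H : Type*} [CommGroup H] {β : Fin r → Fin r → H}
    (hsym : ∀ i j, β i j = β j i) {j : ℕ} (hj : 1 ≤ j) {v : Additive (H →* Cpn p j)}
    (h : Degen (Core2_B β j v)) : ∃ a : Fin r → ℤ, (∃ i, ¬ (p : ℤ) ∣ a i) ∧
      ∀ i', (Additive.toMul v) (∏ i, β i i' ^ a i) = 1 := by
  have : NeZero (p ^ j) := ⟨pow_ne_zero _ hp.out.ne_zero⟩
  obtain ⟨w, ⟨i0, hi0⟩, hw⟩ := h
  refine ⟨fun i => ((w i).val : ℤ), ⟨i0, ?_⟩, fun i' => ?_⟩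
  · intro hd
    have hd1 : (p : ℤ) ∣ ((w i0).val : ℤ) := hd
    have hd' : p ∣ (w i0).val := by exact_mod_cast hd1
    have h1 : IsUnit (((w i0).val : ℕ) : ZMod (p ^ j)) := by
      rw [ZMod.natCast_zmod_val]
      exact hi0
    rw [ZMod.isUnit_iff_coprime] at h1
    have h2 : p ∣ Nat.gcd (w i0).val (p ^ j) := Nat.dvd_gcd hd' (dvd_pow_self p (by omega))
    rw [h1] at h2
    exact hp.out.one_lt.ne' (Nat.dvd_one.mp h2)
  · apply Multiplicative.toAdd.injective
    rw [map_prod, toAdd_prod, toAdd_one]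
    have h1 := congrFun hw i'
    unfold Matrix.mulVec at h1
    unfold dotProduct at h1
    rw [Pi.zero_apply] at h1
    rw [← h1]
    refine Finset.sum_congr rfl fun i _ => ?_
    rw [map_zpow, toAdd_zpow, zsmul_eq_mul, Int.cast_natCast, ZMod.natCast_zmod_val, mul_comm,
      hsym i i']
    rfl

omit hp in
private theorem Core2_B_red {r n j : ℕ} (hjn : j ≤ n) {H : Type*} [CommGroup H]
    (β : Fin r → Fin r → H) (ψ : H →* Cpn p n) :
    Core2_B β j (Additive.ofMul ((redC hjn).comp ψ)) =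
      (Matrix.of fun i i' => Multiplicative.toAdd (ψ (β i i'))).map
        (ZMod.castHom (pow_dvd_pow p hjn) (ZMod (p ^ j))) := by
  ext i i'
  have h1 := redC_ofAdd (p := p) hjn (Multiplicative.toAdd (ψ (β i i')))
  have h2 : redC hjn (ψ (β i i')) = Multiplicative.ofAdd
      (ZMod.castHom (pow_dvd_pow p hjn) (ZMod (p ^ j)) (Multiplicative.toAdd (ψ (β i i')))) := h1
  exact congrArg Multiplicative.toAdd h2

theorem core2_step (h5 : 5 ≤ p) {n r : ℕ} (hr1 : 1 ≤ r) (hr : r < p) (hn : 1 ≤ n)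
    {H : Type*} [CommGroup H] [Finite H] (hH : ∀ h : H, h ^ p ^ n = 1)
    (β : Fin r → Fin r → H) (hsym : ∀ i j, β i j = β j i)
    (honto : ∀ S : Matrix (Fin r) (Fin r) (ZMod (p ^ n)), S.IsSymm →
      ∃ ψ : H →* Cpn p n, ∀ i j, ψ (β i j) = Multiplicative.ofAdd (S i j))
    {x : MonoidAlgebra ℤ_[p] H}
    (h1 : ∀ j ≤ n, ∀ ψ : H →* Cpn p j,
      (∃ a : Fin r → ℤ, (∃ i, ¬ (p : ℤ) ∣ a i) ∧ ∀ i', ψ (∏ i, β i i' ^ a i) = 1) →
        push ψ x ∈ augI ℤ_[p] (Cpn p j) ^ (r + 1))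
    {k : ℕ} (hk : k ≤ r) (hx : x ∈ augI ℤ_[p] H ^ k)
    (h2 : k = r → ∃ ψ : H →* Cpn p n,
      IsUnit (Matrix.of fun i j => Multiplicative.toAdd (ψ (β i j))).det ∧
        push ψ x ∈ augI ℤ_[p] (Cpn p n) ^ (r + 1)) :
    x ∈ augI ℤ_[p] H ^ (k + 1) := by
  have hkp : k < p := by omega
  rcases Nat.eq_zero_or_pos k with rfl | hk1
  · rw [zero_add, pow_one, mem_augI, ← eps_push (1 : H →* Cpn p 0), ← mem_augI]
    refine Ideal.pow_le_self r.succ_ne_zero (h1 0 (Nat.zero_le _) 1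
      ⟨fun _ => 1, ⟨⟨0, by omega⟩, ?_⟩, fun _ => rfl⟩)
    intro hd
    have hd1 : (p : ℤ) ∣ 1 := hd
    have h3 : p ∣ 1 := by exact_mod_cast hd1
    exact hp.out.one_lt.ne' (Nat.dvd_one.mp h3)
  -- a finite family of generators
  obtain ⟨g, hg⟩ : ∃ g : Fin (Nat.card H) → H, Subgroup.closure (Set.range g) = ⊤ := by
    refine ⟨(Finite.equivFin H).symm, ?_⟩
    rw [(Finite.equivFin H).symm.surjective.range_eq, Subgroup.closure_univ]
  obtain ⟨F, hF, hxF⟩ := exists_homog hg k hx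
  have hFj : ∀ j, (MvPolynomial.map (PadicInt.toZModPow (p := p) j) F).IsHomogeneous k :=
    fun j => hF.map _
  -- (1a)
  have ha : ∀ (j : ℕ) (φ : H →* Cpn p j), push φ x ∈ augI ℤ_[p] (Cpn p j) ^ (k + 1) →
      MvPolynomial.eval (fun i => Multiplicative.toAdd (φ (g i)))
        (MvPolynomial.map (PadicInt.toZModPow (p := p) j) F) = 0 := by
    intro j φ hφ
    choose t ht using fun i => gam_pow_val (φ (g i))
    rw [Core2_eval g F φ t fun i => (ht i).symm]
    refine eval_dvd_of_push hkp hF φ t (fun i => (ht i).symm) ?_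
    have h3 := Ideal.sub_mem _ hφ (push_mem φ hxF)
    rwa [map_sub, sub_sub_cancel] at h3
  -- (1b)
  have hb : ∀ j, 1 ≤ j → j ≤ n → ∀ φ : H →* Cpn p j,
      MvPolynomial.eval (fun i => Multiplicative.toAdd (φ (g i)))
        (MvPolynomial.map (PadicInt.toZModPow (p := p) j) F) = 0 := by
    intro j hj hjn φ
    have : NeZero (p ^ j) := ⟨pow_ne_zero _ hp.out.ne_zero⟩
    refine rigid h5 hj hr (Core2_c g j) (Core2_B β j) ?_ ?_ hk (hFj j) ?_ ?_ (Additive.ofMul φ)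
    · intro v
      ext i i'
      change Multiplicative.toAdd ((Additive.toMul v) (β i' i)) =
        Multiplicative.toAdd ((Additive.toMul v) (β i i'))
      rw [hsym]
    · intro S hS
      obtain ⟨ψ, hψ⟩ := honto (Matrix.of fun i i' => ((S i i').val : ZMod (p ^ n))) (by
        ext i i'
        change ((S i' i).val : ZMod (p ^ n)) = ((S i i').val : ZMod (p ^ n))
        rw [hS.apply])
      refine ⟨Additive.ofMul ((redC hjn).comp ψ), ?_⟩
      rw [Core2_B_red]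
      ext i i'
      change ZMod.castHom (pow_dvd_pow p hjn) (ZMod (p ^ j))
        (Multiplicative.toAdd (ψ (β i i'))) = S i i'
      rw [hψ]
      change ZMod.castHom (pow_dvd_pow p hjn) (ZMod (p ^ j)) ((S i i').val : ZMod (p ^ n)) = S i i'
      rw [map_natCast, ZMod.natCast_zmod_val]
    · intro v hv
      exact ha j (Additive.toMul v) (Ideal.pow_le_pow_right (by omega)
        (h1 j hjn (Additive.toMul v) (Core2_degen hsym hj hv)))
    · intro hkr
      obtain ⟨ψ, hψ, hψx⟩ := h2 hkr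
      refine ⟨Additive.ofMul ((redC hjn).comp ψ), ?_, ha j _ ?_⟩
      · rw [Core2_B_red]
        have h3 : ((Matrix.of fun i i' => Multiplicative.toAdd (ψ (β i i'))).map
            (ZMod.castHom (pow_dvd_pow p hjn) (ZMod (p ^ j)))).det =
            ZMod.castHom (pow_dvd_pow p hjn) (ZMod (p ^ j))
              (Matrix.of fun i i' => Multiplicative.toAdd (ψ (β i i'))).det :=
          (RingHom.map_det _ _).symm
        rw [h3]
        exact hψ.map _
      · change push ((redC hjn).comp ψ) x ∈ augI ℤ_[p] (Cpn p j) ^ (k + 1)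
        rw [← push_push, hkr]
        exact push_mem _ hψx
  -- (1c)
  have hc : ∀ j ≤ n, ∀ φ : H →* Cpn p j, push φ x ∈ augI ℤ_[p] (Cpn p j) ^ (k + 1) := by
    intro j hjn φ
    choose t ht using fun i => gam_pow_val (φ (g i))
    have h3 : push φ (Phi g F) ∈ augI ℤ_[p] (Cpn p j) ^ (k + 1) := by
      refine push_Phi_mem hk1 hF φ t (fun i => (ht i).symm) ?_
      rcases Nat.eq_zero_or_pos j with rfl | hj
      · rw [pow_zero]
        exact one_dvd _
      · exact (Core2_eval g F φ t fun i => (ht i).symm).mp (hb j hj hjn φ)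
    have h4 := Ideal.add_mem _ (push_mem φ hxF) h3
    rwa [map_sub, sub_add_cancel] at h4
  refine cyc_step hk1 hkp hx fun j φ => ?_
  rcases Nat.lt_or_ge n j with hj | hj
  · obtain ⟨i, hi, ω', ι', hω⟩ := factor_le (n := n) φ
      (fun h => by rw [← map_pow, hH, map_one])
    rw [← hω, ← push_push]
    exact push_mem _ (hc i hi ω')
  · exact hc j hj φ

theorem core2 (h5 : 5 ≤ p) {n r : ℕ} (hr1 : 1 ≤ r) (hr : r < p) (hn : 1 ≤ n)
    {H : Type*} [CommGroup H] [Finite H] (hH : ∀ h : H, h ^ p ^ n = 1)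
    (β : Fin r → Fin r → H) (hsym : ∀ i j, β i j = β j i)
    (honto : ∀ S : Matrix (Fin r) (Fin r) (ZMod (p ^ n)), S.IsSymm →
      ∃ ψ : H →* Cpn p n, ∀ i j, ψ (β i j) = Multiplicative.ofAdd (S i j))
    {x : MonoidAlgebra ℤ_[p] H}
    (h1 : ∀ j ≤ n, ∀ ψ : H →* Cpn p j,
      (∃ a : Fin r → ℤ, (∃ i, ¬ (p : ℤ) ∣ a i) ∧ ∀ i', ψ (∏ i, β i i' ^ a i) = 1) →
        push ψ x ∈ augI ℤ_[p] (Cpn p j) ^ (r + 1)) :
    x ∈ augI ℤ_[p] H ^ r ∧ ((∃ ψ : H →* Cpn p n,
      IsUnit (Matrix.of fun i j => Multiplicative.toAdd (ψ (β i j))).det ∧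
        push ψ x ∈ augI ℤ_[p] (Cpn p n) ^ (r + 1)) → x ∈ augI ℤ_[p] H ^ (r + 1)) := by
  have h3 : ∀ k ≤ r, x ∈ augI ℤ_[p] H ^ k := by
    intro k
    induction k with
    | zero => intro _; simp
    | succ k ih =>
      intro hk
      exact core2_step h5 hr1 hr hn hH β hsym honto h1 (by omega) (ih (by omega))
        (fun h => by omega)
  exact ⟨h3 r le_rfl, fun h => core2_step h5 hr1 hr hn hH β hsym honto h1 le_rfl
    (h3 r le_rfl) fun _ => h⟩

end MTate
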