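import Mathlib
import Pool.Agent.Lib.MP_5deabe_nt.ZeroOne

/-!
# Homomorphisms `G_M⁺ → ℤ/p^j` are products of homomorphisms of prime conductor

PROOF.  Let `i ∈ M.primeFactors`, and let `c' ∈ Gm i` be the image of `c i`.  `c'` generates `Gm i`:
for `a ∈ Gm i` there is `z ∈ Gm M` with the component `a` at `i` and `1` at the other primes
(`exists_of_comp`); it maps to `1` in `Gm (M / i)` (`eq_one_of_unitsMap` for `M / i`), so
`z = c i ^ k` by `hc4`, and `a = c' ^ k`.  If `c' ^ k = 1` then `c i ^ k = 1` (all its components are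
`1`: at `i` by assumption, at the others by `hc3`; `eq_one_of_unitsMap`), so
`orderOf (ω (toGp M (c i)))` divides `orderOf (c i) = orderOf c'`, and there is a homomorphism
`φ0 : Gm i → Cpn p j` with `φ0 c' = ω (toGp M (c i))` (`monoidHomOfForallMemZpowers`); by
`exists_hom_Gp` it comes from `Gp i` (`res_toGp`).  For the other `l` take `χ l = 1`.
-/

namespace MTate

variable {p : ℕ} [hp : Fact p.Prime]

omit hp in
private theorem Chi_uniq {M : ℕ} (hsq : Squarefree M) {z z' : Gm M}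
    (h : ∀ (l : ℕ) (hl : l ∣ M), l.Prime → ZMod.unitsMap hl z = ZMod.unitsMap hl z') :
    z = z' := by
  have h1 : z * z'⁻¹ = 1 := eq_one_of_unitsMap hsq _ fun l hl hp => by
    rw [map_mul, map_inv, h l hl hp, mul_inv_cancel]
  exact mul_inv_eq_one.1 h1

omit hp in
private theorem Chi_sec {M : ℕ} (hsq : Squarefree M) {i : ℕ} (hi : i.Prime) (hiM : i ∣ M) :
    ∃ s : Gm i →* Gm M, ∀ a, ZMod.unitsMap hiM (s a) = a ∧
      ∀ (l : ℕ) (hl : l ∣ M), l.Prime → l ≠ i → ZMod.unitsMap hl (s a) = 1 := by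
  classical
  have h1 : ∀ a : Gm i, ∃ z : Gm M, ∀ (l : ℕ) (h : l ∣ M), l.Prime →
      ZMod.unitsMap h z = Function.update (fun l : ℕ => (1 : Gm l)) i a l :=
    fun a => exists_of_comp hsq _
  choose s hs using h1
  have hs1 : ∀ a, ZMod.unitsMap hiM (s a) = a := fun a => by
    rw [hs a i hiM hi, Function.update_self]
  have hs2 : ∀ a (l : ℕ) (hl : l ∣ M), l.Prime → l ≠ i → ZMod.unitsMap hl (s a) = 1 :=
    fun a l hl hp hne => by
    rw [hs a l hl hp, Function.update_of_ne hne]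
  refine ⟨⟨⟨s, ?_⟩, ?_⟩, fun a => ⟨hs1 a, hs2 a⟩⟩
  · refine Chi_uniq hsq fun l hl hp => ?_
    rw [map_one]
    by_cases h : l = i
    · subst h
      exact hs1 1
    · exact hs2 1 l hl hp h
  · intro a b
    refine Chi_uniq hsq fun l hl hp => ?_
    show ZMod.unitsMap hl (s (a * b)) = ZMod.unitsMap hl (s a * s b)
    rw [map_mul]
    by_cases h : l = i
    · subst h
      rw [hs1, hs1, hs1]
    · rw [hs2 _ l hl hp h, hs2 _ l hl hp h, hs2 _ l hl hp h, one_mul]

theorem exists_chi (hp2 : p ≠ 2) {M j : ℕ} (hsq : Squarefree M) {c : M.primeFactors → Gm M}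
    (hc3 : ∀ (i : M.primeFactors) (d : ℕ) (hml : M = d * i),
      ZMod.unitsMap (m := M) (n := d) ⟨i, hml⟩ (c i) = 1)
    (hc4 : ∀ (i : M.primeFactors) (d : ℕ) (hml : M = d * i) (z : Gm M),
      ZMod.unitsMap (m := M) (n := d) ⟨i, hml⟩ z = 1 → ∃ k : ℕ, c i ^ k = z)
    (ω : Gp M →* Cpn p j) : ∃ χ : ∀ l : ℕ, Gp l →* Cpn p j, ∀ i : M.primeFactors,
      χ i (res (Nat.dvd_of_mem_primeFactors i.2) (toGp M (c i))) = ω (toGp M (c i)) := by
  classical
  have key : ∀ i : M.primeFactors, ∃ χ : Gp i →* Cpn p j,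
      χ (res (Nat.dvd_of_mem_primeFactors i.2) (toGp M (c i))) = ω (toGp M (c i)) := by
    intro i
    have hi : (i : ℕ).Prime := Nat.prime_of_mem_primeFactors i.2
    have hiM : (i : ℕ) ∣ M := Nat.dvd_of_mem_primeFactors i.2
    obtain ⟨s, hs⟩ := Chi_sec hsq hi hiM
    obtain ⟨d, hd⟩ := hiM
    have hml : M = d * i := hd.trans (mul_comm _ _)
    have hdM : d ∣ M := ⟨i, hml⟩
    have hiM : (i : ℕ) ∣ M := Nat.dvd_of_mem_primeFactors i.2
    have h1 : s (ZMod.unitsMap hiM (c i)) = c i := by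
      refine Chi_uniq hsq fun l hl hlp => ?_
      by_cases h : l = i
      · subst h
        exact (hs _).1
      · rw [(hs _).2 l hl hlp h]
        have hld : l ∣ d := by
          have h2 : l ∣ d * i := hml ▸ hl
          exact (Nat.Coprime.dvd_mul_right ((Nat.coprime_primes hlp hi).2 h)).1 h2
        have h3 := hc3 i d hml
        have h4 : ZMod.unitsMap hl (c i) = ZMod.unitsMap hld (ZMod.unitsMap hdM (c i)) := by
          rw [← MonoidHom.comp_apply, ZMod.unitsMap_comp]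
        rw [h4, h3, map_one]
    obtain ⟨χ, hχ⟩ := exists_hom_Gp hp2 ((ω.comp (toGp M)).comp s)
    refine ⟨χ, ?_⟩
    rw [res_toGp, hχ, MonoidHom.comp_apply, h1, MonoidHom.comp_apply]
  choose χ hχ using key
  refine ⟨fun l => if h : l ∈ M.primeFactors then χ ⟨l, h⟩ else 1, fun i => ?_⟩
  have h1 : (if h : (i : ℕ) ∈ M.primeFactors then χ ⟨i, h⟩ else 1 : Gp (i : ℕ) →* Cpn p j) =
      χ i := dif_pos i.2
  show (if h : (i : ℕ) ∈ M.primeFactors then χ ⟨i, h⟩ else 1 : Gp (i : ℕ) →* Cpn p j)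
    (res (Nat.dvd_of_mem_primeFactors i.2) (toGp M (c i))) = ω (toGp M (c i))
  rw [h1]
  exact hχ i

end MTate
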