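import Mathlib
import Pool.Agent.Lib.MP_5deabe_nt.TestSet
import Pool.Agent.Lib.MP_5deabe_nt.ZeroOne
import Pool.Agent.Lib.MP_5deabe_nt_DF.Fac
import Pool.Agent.Lib.MP_5deabe_nt_DF.Chi
import Pool.Agent.Lib.MP_5deabe_nt_DF.Core2

/-!
# Reduction to few ramified primes

PROOF of `few_detect`.  Let `c` be as in `exists_gens` for `M`, and let `κ : Gp M → H` be as in `exists_quot`, so
the `g i = κ (toGp M (c i))` generate `H` (`closure_toGp`).  We prove `push κ x ∈ I^k` for all
`k ≤ r + 1` by induction on `k`; then the assertion follows as in the end of the proof of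
`all_of_determining` (in `ZeroOne`): by `cyc_detect` we have to consider `push φ (push f x)`,
`φ : G → Cpn p n'`, and `φ ∘ f` is killed by `p ^ n` (`order_pow`), so it factors through `κ`
(`exists_quot`), and `push_mem`.
`k = 0` is clear.  Let `k ≤ r` and `push κ x ∈ I^k`.
If `k = 0`: take `m = 1`, `j = 0` and any `ω : Gp 1 → Cpn p 0`: `eps x = eps (push _ x) = 0`, so
`push κ x ∈ I`.
If `k ≥ 1`: let `F` be a form of degree `k` in the variables `M.primeFactors` with
`push κ x - Phi g F ∈ I^{k+1}` (`exists_homog`).  Let `j ≤ n` and `φ : H → Cpn p j`,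
`φ (g i) = gam p j ^ t i` (`gam_pow_val`).
CLAIM: `p ^ j ∣ F(t)`.  Let `χ` be as in `exists_chi` for `ω = φ ∘ κ`.  For
`y : M.primeFactors → ℕ` (extended by `0` to `ℕ → ℕ`) which is `0` outside a finset `A` with
`A.card ≤ r` let `ω_y = chiProd χ y : Gp M → Cpn p j`.  By `chiProd_gen`
`ω_y (toGp M (c i)) = ω (toGp M (c i)) ^ y i = gam p j ^ (t i * y i)`; by `chiProd_res` it factors
through `Gp m`, where `m = ∏ i ∈ A, i` divides `M` and has `A.card ≤ r` prime factors; so
`push ω_y x ∈ I^{r+1}` by the hypothesis.  `ω_y` is killed by `p ^ n`, so `ω_y = φ_y ∘ κ`, and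
`push φ_y (push κ x) ∈ I^{r+1} ≤ I^{k+1}`, hence `push φ_y (Phi g F) ∈ I^{k+1}` and
`p ^ j ∣ F(t y)` by `eval_dvd_of_push`.  So the polynomial `P(Y) = F((t i Y i)_i)`
(`MvPolynomial.bind₁` or `rename`-like substitution `X i ↦ C (t i) * X i`; its coefficient at `s` is
`F.coeff s * ∏ t i ^ s i`, so it is homogeneous of degree `k ≤ r ≤ p - 1`) has only coefficients
divisible by `p ^ j` at the monomials with support in `A`, `A.card ≤ r`, by `poly_dvd_supp` (`Cyc3`);
as each monomial has degree `k ≤ r`, its support has at most `r` elements; so all the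
coefficients and therefore `F(t) = P(1)` are divisible by `p ^ j`.
So `push φ (push κ x) ∈ I^{k+1}` by `push_Phi_mem` (in `Core2`), for all `φ : H → Cpn p j`,
`j ≤ n`.  The `φ : H → Cpn p j` with `j > n` factor through some `Cpn p i`, `i ≤ n` (`factor_le`).
By `cyc_step`, `push κ x ∈ I^{k+1}`.
-/

namespace MTate

open MonoidAlgebra

variable {p : ℕ} [hp : Fact p.Prime]

/-- a form of degree at most `r` which is divisible by `p ^ j` at the multiples of `t` supported at
`r` places is divisible by `p ^ j` at `t` -/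
private theorem Few_form {ι : Type} [Finite ι] {k r j : ℕ} (hk : k ≤ r) (hr : r < p)
    {F : MvPolynomial ι ℤ_[p]} (hF : F.IsHomogeneous k) (t : ι → ℕ)
    (h : ∀ (A : Finset ι) (y : ι → ℕ), A.card ≤ r → (∀ i, i ∉ A → y i = 0) →
      (p : ℤ_[p]) ^ j ∣ MvPolynomial.eval (fun i => ((t i * y i : ℕ) : ℤ_[p])) F) :
    (p : ℤ_[p]) ^ j ∣ MvPolynomial.eval (fun i => (t i : ℤ_[p])) F := by
  classical
  obtain ⟨P, hP⟩ : ∃ P : MvPolynomial ι ℤ_[p], P = MvPolynomial.aeval
      (fun i => MvPolynomial.C (t i : ℤ_[p]) * MvPolynomial.X i) F := ⟨_, rfl⟩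
  have hPe : ∀ y : ι → ℤ_[p], MvPolynomial.eval y P =
      MvPolynomial.eval (fun i => (t i : ℤ_[p]) * y i) F := by
    intro y
    rw [hP, MvPolynomial.aeval_def, MvPolynomial.eval, MvPolynomial.coe_eval₂Hom,
      MvPolynomial.eval, MvPolynomial.coe_eval₂Hom, MvPolynomial.algebraMap_eq]
    have h1 := MvPolynomial.hom_eval₂ F (MvPolynomial.C : ℤ_[p] →+* MvPolynomial ι ℤ_[p])
      (MvPolynomial.eval₂Hom (RingHom.id ℤ_[p]) y)
      (fun i => MvPolynomial.C (t i : ℤ_[p]) * MvPolynomial.X i)
    rw [MvPolynomial.coe_eval₂Hom] at h1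
    rw [h1]
    congr 1
    · ext z
      simp
    · funext i
      simp
  have hPh : P.IsHomogeneous k := by
    have h1 := hF.aeval (fun i => MvPolynomial.C (t i : ℤ_[p]) * MvPolynomial.X i) (n := 1)
      (fun i => by
        have h2 := (MvPolynomial.isHomogeneous_C ι (t i : ℤ_[p])).mul
          (MvPolynomial.isHomogeneous_X ℤ_[p] i)
        rwa [zero_add] at h2)
    rw [one_mul] at h1
    rw [hP]
    exact h1
  have hdeg : ∀ s ∈ P.support, ∑ i ∈ s.support, s i = k := fun s hs => homog_deg hPh hs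
  have hco : ∀ s ∈ P.support, (p : ℤ_[p]) ^ j ∣ P.coeff s := by
    intro s hs
    refine poly_dvd_supp j s.support P (fun s' hs' i => ?_) (fun y hy => ?_) s subset_rfl
    · by_cases hi : i ∈ s'.support
      · have h1 := Finset.single_le_sum (f := fun i => s' i) (fun _ _ => Nat.zero_le _) hi
        have h2 : s' i ≤ k := by
          rw [← hdeg s' hs']
          exact h1
        omega
      · rw [Finsupp.notMem_support_iff.mp hi]
        exact Nat.zero_le _
    · rw [hPe]
      have h1 : s.support.card ≤ r := by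
        have h2 : s.support.card ≤ ∑ i ∈ s.support, s i := by
          rw [Finset.card_eq_sum_ones]
          refine Finset.sum_le_sum fun i hi => ?_
          exact Nat.one_le_iff_ne_zero.mpr (Finsupp.mem_support_iff.mp hi)
        rw [hdeg s hs] at h2
        omega
      have h2 := h s.support y h1 hy
      have h3 : (fun i => ((t i * y i : ℕ) : ℤ_[p])) = fun i => (t i : ℤ_[p]) * (y i : ℤ_[p]) := by
        funext i
        push_cast
        rfl
      rwa [h3] at h2
  have h1 : MvPolynomial.eval (fun i => (t i : ℤ_[p])) F =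
      MvPolynomial.eval (fun _ => (1 : ℤ_[p])) P := by
    rw [hPe]
    congr 2
    funext i
    rw [mul_one]
  rw [h1, MvPolynomial.eval_eq]
  exact Finset.dvd_sum fun s hs => (hco s hs).mul_right _

omit hp in
private theorem Few_card {M : ℕ} (hsq : Squarefree M) (A : Finset M.primeFactors) :
    ∏ i ∈ A, (i : ℕ) ∣ M ∧ (∏ i ∈ A, (i : ℕ)).primeFactors.card ≤ A.card ∧
      ∀ i ∈ A, (i : ℕ) ∈ (∏ i ∈ A, (i : ℕ)).primeFactors := by
  classical
  have hpr : ∀ i : M.primeFactors, (i : ℕ).Prime := fun i => Nat.prime_of_mem_primeFactors i.2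
  have hprod : ∏ i ∈ A, (i : ℕ) = ∏ i ∈ A.map (Function.Embedding.subtype _), i := by
    rw [Finset.prod_map]
    rfl
  have hdvd : ∏ i ∈ A, (i : ℕ) ∣ M := by
    rw [hprod]
    have h1 := Nat.prod_primeFactors_of_squarefree hsq
    conv_rhs => rw [← h1]
    refine Finset.prod_dvd_prod_of_subset _ _ _ fun i hi => ?_
    obtain ⟨a, _, rfl⟩ := Finset.mem_map.mp hi
    exact a.2
  have hne : ∏ i ∈ A, (i : ℕ) ≠ 0 := Finset.prod_ne_zero_iff.mpr fun i _ => (hpr i).ne_zero
  refine ⟨hdvd, ?_, fun i hi => ?_⟩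
  · have h1 : (∏ i ∈ A, (i : ℕ)).primeFactors ⊆ A.map (Function.Embedding.subtype _) := by
      intro l hl
      have hlp := Nat.prime_of_mem_primeFactors hl
      obtain ⟨a, ha, hla⟩ := (Prime.dvd_finsetProd_iff hlp.prime _).mp
        (Nat.dvd_of_mem_primeFactors hl)
      have h2 := (Nat.prime_dvd_prime_iff_eq hlp (hpr a)).mp hla
      exact Finset.mem_map.mpr ⟨a, ha, h2.symm⟩
    exact (Finset.card_le_card h1).trans (Finset.card_map _).le
  · exact Nat.mem_primeFactors.mpr ⟨hpr i, Finset.dvd_prod_of_mem _ hi, hne⟩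

theorem few_detect (hp2 : p ≠ 2) {M n r : ℕ} (hsq : Squarefree M) (hr : r < p)
    {x : MonoidAlgebra ℤ_[p] (Gp M)}
    (h : ∀ m (hm : m ∣ M), m.primeFactors.card ≤ r → ∀ j ≤ n, ∀ ω : Gp m →* Cpn p j,
      push (ω.comp (res hm)) x ∈ augI ℤ_[p] (Cpn p j) ^ (r + 1))
    {G : Type} [CommGroup G] [Finite G] (f : Gp M →* G)
    (hG : ∃ k, p.Coprime k ∧ ∀ g : G, g ^ (p ^ n * k) = 1) :
    push f x ∈ augI ℤ_[p] G ^ (r + 1) := by
  classical
  have hM0 : M ≠ 0 := hsq.ne_zero
  obtain ⟨c, -, hc2, hc3, hc4, -⟩ := exists_gens (p := p) hsq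
  have hcl := closure_toGp hc2
  have hfin := finite_Gp hM0
  obtain ⟨H, _, _, κ, hκ, hH, hlift⟩ := exists_quot (p := p) (Gp M) n
  obtain ⟨g, hg⟩ : ∃ g : M.primeFactors → H, ∀ i, g i = κ (toGp M (c i)) := ⟨_, fun _ => rfl⟩
  have hgcl : Subgroup.closure (Set.range g) = ⊤ := by
    have h1 : Set.range g = κ '' Set.range fun i => toGp M (c i) := by
      rw [← Set.range_comp]
      congr 1
      funext i
      exact hg i
    rw [h1, ← MonoidHom.map_closure, hcl, ← MonoidHom.range_eq_map,
      MonoidHom.range_eq_top_of_surjective _ hκ]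
  have key : ∀ k, k ≤ r + 1 → push κ x ∈ augI ℤ_[p] H ^ k := by
    intro k
    induction k with
    | zero => intro _; simp
    | succ k ih =>
      intro hk
      have hx := ih (by omega)
      rcases Nat.eq_zero_or_pos k with rfl | hk1
      · have h1 := h 1 (one_dvd M) (by simp) 0 (Nat.zero_le n) 1
        have h2 := Ideal.pow_le_self r.succ_ne_zero h1
        rw [mem_augI, eps_push] at h2
        rw [zero_add, pow_one, mem_augI, eps_push]
        exact h2
      have hkp : k < p := by omega
      obtain ⟨F, hF, hxF⟩ := exists_homog hgcl k hx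
      have hc : ∀ j ≤ n, ∀ φ : H →* Cpn p j,
          push φ (push κ x) ∈ augI ℤ_[p] (Cpn p j) ^ (k + 1) := by
        intro j hj φ
        choose t ht using fun i => gam_pow_val (φ (g i))
        obtain ⟨χ, hχ⟩ := exists_chi hp2 hsq hc3 hc4 (φ.comp κ)
        have hdvd : (p : ℤ_[p]) ^ j ∣ MvPolynomial.eval (fun i => (t i : ℤ_[p])) F := by
          refine Few_form (r := r) (by omega) hr hF t fun A y hA hy => ?_
          obtain ⟨hm, hmc, hmA⟩ := Few_card hsq A
          let y' : ℕ → ℕ := fun l => if h : l ∈ M.primeFactors then y ⟨l, h⟩ else 0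
          have hy' : ∀ i : M.primeFactors, y' i = y i := fun i => dif_pos i.2
          have hy0 : ∀ l, l ∉ (∏ i ∈ A, (i : ℕ)).primeFactors → y' l = 0 := by
            intro l hl
            show (if h : l ∈ M.primeFactors then y ⟨l, h⟩ else 0) = 0
            split_ifs with h1
            · refine hy _ fun h2 => hl (hmA _ h2)
            · rfl
          have h1 := h _ hm (hmc.trans hA) j hj (chiProd χ y')
          rw [chiProd_res hM0 hm χ hy0] at h1
          obtain ⟨φ', hφ'⟩ := hlift _ (chiProd (m := M) χ y') (fun z => by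
            have h2 : p ^ n = p ^ j * p ^ (n - j) := by
              rw [← pow_add]
              congr 1
              omega
            rw [h2, pow_mul, Cpn_pow_card, one_pow])
          refine eval_dvd_of_push (g := g) hkp hF φ' (fun i => t i * y i) (fun i => ?_) ?_
          · have h2 : φ' (g i) = chiProd (m := M) χ y' (toGp M (c i)) := by
              rw [← hφ', hg]
              rfl
            rw [h2, chiProd_gen hc3, hχ, hy', MonoidHom.comp_apply, ← hg, ← ht, ← pow_mul]
          · have h2 : push φ' (push κ x) ∈ augI ℤ_[p] (Cpn p j) ^ (k + 1) := by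
              rw [push_push, hφ']
              exact Ideal.pow_le_pow_right (by omega) h1
            have h3 := Ideal.sub_mem _ h2 (push_mem φ' hxF)
            rwa [map_sub, sub_sub_cancel] at h3
        have h3 := push_Phi_mem hk1 hF φ t (fun i => (ht i).symm) hdvd
        have h4 := Ideal.add_mem _ (push_mem φ hxF) h3
        rwa [map_sub, sub_add_cancel] at h4
      refine cyc_step hk1 hkp hx fun j φ => ?_
      obtain ⟨i, hi, ω', ι', hω⟩ := factor_le (n := n) φ (fun h => by rw [← map_pow, hH, map_one])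
      rw [← hω, ← push_push]
      exact push_mem ι' (hc i hi ω')
  refine cyc_detect hr fun n' φ => ?_
  obtain ⟨k, hk, hk'⟩ := hG
  obtain ⟨ω, hω⟩ := hlift _ (φ.comp f) (fun z => order_pow hk (by
    rw [MonoidHom.comp_apply, ← map_pow, hk', map_one]))
  rw [push_push, ← hω, ← push_push]
  exact push_mem ω (key _ le_rfl)

end MTate
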