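import Mathlib
import Pool.Agent.Lib.MP_5deabe_nt.Chain
import Pool.Agent.Lib.MP_5deabe_nt_DF.Defs3

/-!
# Q1 with another constant: basic properties

`rhsC D p c n` is the right hand side of `Q1c`.

1. `Lalg_eq`: `(m * D.N).primeFactors` is the disjoint union of `m.primeFactors` and
`D.N.primeFactors` for `m` prime to `N` (`Nat.Coprime.primeFactors_mul`), and
`D.Lalg p 1` contains the product over `(1 * D.N).primeFactors`.

2. `compatC`: copy the proof of `compat_reg` in `Pool.Agent.Lib.MP_5deabe_nt.Main` (the relation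
`coeff_rel` becomes the obvious one for the product over `m.primeFactors`, `m = d * l`).

3. `Q1c.stmt`, `Stmt.q1c`: copy the proofs of `Q1.stmt` and `Stmt.q1` in
`Pool.Agent.Lib.MP_5deabe_nt.Chain`.

4. `q1_iff`: by `Lalg_eq`, the two statements are literally the same.

5. `Pairing2.pairing`: clear from the definitions (`Adm.of_dvd` in `Lrel`).
-/

namespace MTate

open MonoidAlgebra

variable {p : ℕ} [hp : Fact p.Prime] {D : MTData}

namespace MTData

/-- the right hand side of `Q1c`, computed with the multiple `n` -/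
noncomputable def rhsC (D : MTData) (p : ℕ) [Fact p.Prime] (c : ℤ_[p]) (n m : ℕ) (G : Type)
    [CommGroup G] (f : Gp m →* G) : MonoidAlgebra ℤ_[p] G :=
  algebraMap ℤ_[p] (MonoidAlgebra ℤ_[p] G) ((-1) ^ m.primeFactors.card *
    (c * ∏ l ∈ m.primeFactors, (nsCard D.W l : ℤ_[p]) * Ring.inverse (l : ℤ_[p]))) *
      D.reg p n m f

theorem Lalg_eq {m : ℕ} (hm : D.Adm p m) : D.Lalg p m =
    D.Lalg p 1 * ∏ l ∈ m.primeFactors, (nsCard D.W l : ℤ_[p]) * Ring.inverse (l : ℤ_[p]) := by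
  unfold Lalg
  rw [one_mul, Nat.Coprime.primeFactors_mul hm.2.1,
    Finset.prod_union (Nat.Coprime.disjoint_primeFactors hm.2.1)]
  ring

theorem q1_iff {m : ℕ} (hm : D.Adm p m) {G : Type*} [CommGroup G] (f : Gp m →* G) :
    D.Q1 p m f ↔ D.Q1c p (D.Lalg p 1) m f := by
  unfold Q1 Q1c
  rw [Lalg_eq hm]

theorem coeffC_rel {m d l : ℕ} (hm : m = d * l) (hA : D.Adm p m) (hl : l.Prime) (c : ℤ_[p]) :
    (-1) ^ m.primeFactors.card *
      (c * ∏ l ∈ m.primeFactors, (nsCard D.W l : ℤ_[p]) * Ring.inverse (l : ℤ_[p])) =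
    ((-1) ^ d.primeFactors.card *
      (c * ∏ l ∈ d.primeFactors, (nsCard D.W l : ℤ_[p]) * Ring.inverse (l : ℤ_[p]))) *
      (-((nsCard D.W l : ℤ_[p]) * Ring.inverse (l : ℤ_[p]))) := by
  have hc := hA.coprime_of_eq hm
  have hld : ¬ l ∣ d := (Nat.Prime.coprime_iff_not_dvd hl).mp hc.symm
  have h1 : m.primeFactors = insert l d.primeFactors := by
    rw [hm, Nat.Coprime.primeFactors_mul hc, hl.primeFactors, Finset.union_comm]
    rfl
  have h3 : l ∉ d.primeFactors := fun h => hld (Nat.dvd_of_mem_primeFactors h)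
  rw [h1, Finset.card_insert_of_notMem h3, Finset.prod_insert h3, pow_succ]
  ring

theorem compatC {M n : ℕ} (hM : D.Adm p M) (c : ℤ_[p]) :
    D.Compat p M (D.r + 1) (D.rhsC p c n) := by
  refine ⟨?_, ?_⟩
  · intro m G G' _ _ f g
    unfold rhsC
    rw [map_mul, AlgHom.commutes, push_reg]
  · intro m d l hm hmM hl hc G _ f
    have hA := hM.of_dvd hmM
    have hlm : l ∣ m := ⟨d, by rw [hm, mul_comm]⟩
    have hpl : p.Coprime l := hA.2.2.1.coprime_dvd_right hlm
    unfold rhsC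
    rw [coeffC_rel hm hA hl c, reg_res hA.1 ⟨l, hm⟩]
    set c' : ℤ_[p] := -((nsCard D.W l : ℤ_[p]) * Ring.inverse (l : ℤ_[p])) with hc'
    set ε : ℤ_[p] := (-1) ^ d.primeFactors.card *
      (c * ∏ l ∈ d.primeFactors, (nsCard D.W l : ℤ_[p]) * Ring.inverse (l : ℤ_[p])) with hε
    have h4 := PZ_sub_mem (p := p) D.W hpl (frob f hc)
    have h5 := reg_mem (p := p) (D := D) n d f
    have h7 : (PZ D.W l (frob f hc) - algebraMap ℤ_[p] _ c') *
        (algebraMap ℤ_[p] _ ε * D.reg p n d f) ∈ augI ℤ_[p] G ^ (D.r + 1) := by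
      rw [pow_succ']
      exact Ideal.mul_mem_mul h4 (Ideal.mul_mem_left _ _ h5)
    have h10 := neg_mem h7
    convert! h10 using 1
    rw [map_mul]
    ring

theorem Q1c.stmt {c : ℤ_[p]} {m : ℕ} {G : Type} [CommGroup G] {f : Gp m →* G}
    (h : D.Q1c p c m f) {n : ℕ} (hn : p.Coprime n) (h' : ∀ j, D.InES m (n • D.x j)) :
    D.Stmt p (D.r + 1) (D.rhsC p c n) m G f := by
  obtain ⟨θ, h1, _, h2⟩ := h
  exact ⟨θ, h1, h2 n hn h'⟩

theorem Stmt.q1c {c : ℤ_[p]} {M : ℕ} (hP : D.Pairing p M) {m : ℕ} (hm : m ∣ M) {G : Type}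
    [CommGroup G] {f : Gp m →* G} {n : ℕ} (hn : p.Coprime n) (h' : ∀ j, D.InES m (n • D.x j))
    (h : D.Stmt p (D.r + 1) (D.rhsC p c n) m G f) : D.Q1c p c m f := by
  obtain ⟨θ, h1, h2⟩ := h
  refine ⟨θ, h1, ?_, fun n' hn' h'' => ?_⟩
  · have h3 : D.rhsC p c n m G f ∈ augI ℤ_[p] G ^ D.r := Ideal.mul_mem_left _ _ (reg_mem n m f)
    have h4 := Ideal.add_mem _ (Ideal.pow_le_pow_right (Nat.le_succ D.r) h2) h3
    rwa [sub_add_cancel] at h4
  · have h3 : Cong (augI ℤ_[p] G) D.r (D.reg p n m f) (D.reg p n' m f) := by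
      refine det_cong _ _ fun i j => ⟨?_, ?_⟩
      · rw [pow_one]
        have := push_mem (k := 1) f (by rw [pow_one]; exact height_mem (p := p) (D := D) n m i j)
        rwa [pow_one] at this
      · have := push_mem f (hP.height_sub hm hn hn' h' h'' i j)
        rwa [map_sub] at this
    have h4 := Ideal.mul_mem_left _ (algebraMap ℤ_[p] (MonoidAlgebra ℤ_[p] G)
      ((-1) ^ m.primeFactors.card *
        (c * ∏ l ∈ m.primeFactors, (nsCard D.W l : ℤ_[p]) * Ring.inverse (l : ℤ_[p])))) h3.2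
    have h5 := Ideal.add_mem _ h2 h4
    have h6 : θ - algebraMap ℤ_[p] _ ((-1) ^ m.primeFactors.card *
        (c * ∏ l ∈ m.primeFactors, (nsCard D.W l : ℤ_[p]) * Ring.inverse (l : ℤ_[p]))) *
        D.reg p n' m f = θ - D.rhsC p c n m G f + algebraMap ℤ_[p] (MonoidAlgebra ℤ_[p] G)
        ((-1) ^ m.primeFactors.card *
        (c * ∏ l ∈ m.primeFactors, (nsCard D.W l : ℤ_[p]) * Ring.inverse (l : ℤ_[p]))) *
          (D.reg p n m f - D.reg p n' m f) := by
      unfold rhsC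
      ring
    rw [h6]
    exact h5

theorem Pairing2.pairing (hP : D.Pairing2 p) {M : ℕ} (hM : D.Adm p M) : D.Pairing p M :=
  ⟨hP.ext M hM, fun m hm P Q k h => hP.right m (hM.of_dvd hm) P Q k h⟩

/-- the least common multiple of admissible numbers is admissible -/
theorem Adm.lcm {m m' : ℕ} (h : D.Adm p m) (h' : D.Adm p m') : D.Adm p (Nat.lcm m m') := by
  have h0 : m ≠ 0 := h.1.ne_zero
  have h0' : m' ≠ 0 := h'.1.ne_zero
  refine ⟨?_, ?_, ?_, ?_⟩
  · rw [Nat.squarefree_iff_factorization_le_one (Nat.lcm_ne_zero h0 h0')]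
    intro l
    rw [Nat.factorization_lcm h0 h0']
    exact sup_le ((Nat.squarefree_iff_factorization_le_one h0).mp h.1 l)
      ((Nat.squarefree_iff_factorization_le_one h0').mp h'.1 l)
  · exact Nat.Coprime.coprime_dvd_left (Nat.lcm_dvd_mul m m')
      (Nat.Coprime.mul_left h.2.1 h'.2.1)
  · exact Nat.Coprime.coprime_dvd_right (Nat.lcm_dvd_mul m m')
      (Nat.Coprime.mul_right h.2.2.1 h'.2.2.1)
  · intro l hl
    have h1 := Nat.prime_of_mem_primeFactors hl
    have h2 : l ∣ m * m' := (Nat.dvd_of_mem_primeFactors hl).trans (Nat.lcm_dvd_mul m m')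
    rcases h1.dvd_mul.mp h2 with h3 | h3
    · exact h.2.2.2 l (Nat.mem_primeFactors.mpr ⟨h1, h3, h0⟩)
    · exact h'.2.2.2 l (Nat.mem_primeFactors.mpr ⟨h1, h3, h0'⟩)

end MTData

end MTate
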