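import Mathlib
import Pool.Agent.Lib.MP_5deabe_nt.ZeroOne

/-!
# Prescribing the values of a homomorphism on independent elements

Let `t` be a square-free product of primes `≡ 1` modulo `p ^ n`, and let `b k ∈ G_t⁺`, `k ∈ κ`, be
independent modulo `p`-th powers.  Then a homomorphism `G_t⁺ → ℤ/p^n` can be given arbitrary values
on the `b k`.

PROOF.  Let `c : t.primeFactors → Gm t` be as in `exists_gens`, so the `toGp t (c i)` generate `Gp t`
(`closure_toGp`), and for all `u` there is `φ : Gp t →* Cpn p n` with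
`φ (toGp t (c i)) = gam p n ^ u i` (`exists_hom_Gp`; see the beginning of the proof of
`all_of_determining` in `Pool.Agent.Lib.MP_5deabe_nt.ZeroOne`).
The set `A` of the vectors `(ψ (b k))_k ∈ κ → ZMod (p ^ n)`, for all `ψ`, is an additive subgroup.
Claim: `A + p (κ → ZMod (p ^ n))` is everything; then by iteration
`A + p ^ j (κ → ZMod (p ^ n))` is everything for all `j` (note `p A ⊆ A`), and for `j = n` this is
the assertion.
Proof of the claim: otherwise the image `A'` of `A` in the vector space `κ → ZMod p` is a proper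
subspace (`A'` is the image of a group homomorphism; every additive subgroup of a `ZMod p`-module is
a submodule: `AddSubgroup.toZModSubmodule`), so there is a nonzero linear form
`∑ k, s k X k` which vanishes on `A'` (`Submodule.exists_dual_map_eq_bot_of_lt_top` or
`Submodule.exists_le_ker_of_lt_top`; a linear form on `κ → ZMod p` is of this shape:
`LinearMap.pi_apply_eq_sum_univ`).  Let `s k` also denote an integer lift (`ZMod.val`).
Then for all `ψ : Gp t →* Cpn p n`, `ψ z` is `gam p n ^ e` with `p ∣ e`, where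
`z = ∏ k, b k ^ s k`.  Write `z = ∏ i, (toGp t (c i)) ^ e i` with natural numbers `e i` (the group is
finite and generated by these elements; `Subgroup.mem_closure_range_iff` or induction on the
closure, `Subgroup.closure_induction`).  With the `φ` which is `gam p n` on `toGp t (c i)` and `1` on
the others (`u = Pi.single i 1`) one gets `gam p n ^ e i = gam p n ^ e` with `p ∣ e`, so `p ∣ e i`,
as `n ≥ 1` (`gam_pow_eq_iff`).  So `z` is a `p`-th power, and by the hypothesis `p ∣ s k` for all
`k`: the linear form is `0`, a contradiction.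
-/

namespace MTate

variable {p : ℕ} [hp : Fact p.Prime]

private theorem IndOnto_span {H : Type*} [CommGroup H] {ι : Type*} [Fintype ι] {g : ι → H}
    (hg : Subgroup.closure (Set.range g) = ⊤) (x : H) : ∃ a : ι → ℤ, x = ∏ i, g i ^ a i := by
  classical
  have hx : x ∈ Subgroup.closure (Set.range g) := by
    rw [hg]
    trivial
  induction hx using Subgroup.closure_induction with
  | mem x h =>
    obtain ⟨i, rfl⟩ := h
    refine ⟨Pi.single i 1, ?_⟩
    rw [Finset.prod_eq_single i]
    · rw [Pi.single_eq_same, zpow_one]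
    · intro j _ hj
      rw [Pi.single_eq_of_ne hj, zpow_zero]
    · intro h
      exact absurd (Finset.mem_univ _) h
  | one => exact ⟨0, by simp⟩
  | mul x y _ _ hx hy =>
    obtain ⟨a, rfl⟩ := hx
    obtain ⟨b, rfl⟩ := hy
    exact ⟨a + b, by simp [zpow_add, Finset.prod_mul_distrib]⟩
  | inv x _ hx =>
    obtain ⟨a, rfl⟩ := hx
    exact ⟨-a, by simp⟩

private theorem IndOnto_ker {n : ℕ} (hdv : p ∣ p ^ n) {x : ZMod (p ^ n)}
    (hx : ZMod.castHom hdv (ZMod p) x = 0) : ∃ y : ZMod (p ^ n), x = p * y := by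
  have hN : NeZero (p ^ n) := ⟨pow_ne_zero _ hp.out.ne_zero⟩
  rw [← ZMod.natCast_zmod_val x, map_natCast, ZMod.natCast_eq_zero_iff] at hx
  obtain ⟨m, hm⟩ := hx
  refine ⟨(m : ZMod (p ^ n)), ?_⟩
  rw [← Nat.cast_mul, ← hm, ZMod.natCast_zmod_val]

theorem ind_onto (hp2 : p ≠ 2) {t n : ℕ} (hsq : Squarefree t) (hn : 1 ≤ n)
    (hdiv : ∀ l ∈ t.primeFactors, p ^ n ∣ l - 1) {κ : Type} [Fintype κ] (b : κ → Gp t)
    (hind : ∀ s : κ → ℤ, (∃ y, ∏ k, b k ^ s k = y ^ p) → ∀ k, (p : ℤ) ∣ s k)
    (S : κ → ZMod (p ^ n)) :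
    ∃ ψ : Gp t →* Cpn p n, ∀ k, ψ (b k) = Multiplicative.ofAdd (S k) := by
  classical
  obtain ⟨c, -, hc2, -, -, hc5⟩ := exists_gens (p := p) hsq
  have hcl := closure_toGp hc2
  have hex : ∀ j : t.primeFactors, ∃ φ : Gp t →* Cpn p n,
      ∀ i, φ (toGp t (c i)) = if i = j then gam p n else 1 := by
    intro j
    obtain ⟨φ0, h0⟩ := hc5 n (fun i => hdiv i.1 i.2) (fun i => if i = j then 1 else 0)
    obtain ⟨φ, hφ⟩ := exists_hom_Gp hp2 φ0
    refine ⟨φ, fun i => ?_⟩
    rw [hφ, h0]
    by_cases hij : i = j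
    · rw [if_pos hij, if_pos hij, pow_one]
    · rw [if_neg hij, if_neg hij, pow_zero]
  -- reduction modulo `p`
  have hdv : p ∣ p ^ n := dvd_pow_self p (by omega)
  obtain ⟨red, hred⟩ : ∃ red : ZMod (p ^ n) →+* ZMod p, red = ZMod.castHom hdv (ZMod p) :=
    ⟨_, rfl⟩
  -- the values modulo `p`
  let V : Additive (Gp t →* Cpn p n) →+ (κ → ZMod p) :=
    { toFun := fun ψ k => red (Multiplicative.toAdd (ψ.toMul (b k)))
      map_zero' := by
        funext k
        show red (Multiplicative.toAdd ((1 : Gp t →* Cpn p n) (b k))) = 0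
        rw [MonoidHom.one_apply, toAdd_one, map_zero]
      map_add' := fun ψ ψ' => by
        funext k
        show red (Multiplicative.toAdd ((ψ.toMul * ψ'.toMul) (b k))) =
          red (Multiplicative.toAdd (ψ.toMul (b k))) + red (Multiplicative.toAdd (ψ'.toMul (b k)))
        rw [MonoidHom.mul_apply, toAdd_mul, map_add] }
  have hV : Function.Surjective V := by
    rw [← AddMonoidHom.range_eq_top]
    by_contra hne
    have hlt : AddSubgroup.toZModSubmodule p V.range < ⊤ := by
      rw [lt_top_iff_ne_top]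
      intro h
      apply hne
      rw [eq_top_iff]
      intro x _
      have h1 : x ∈ AddSubgroup.toZModSubmodule p V.range := by
        rw [h]
        trivial
      exact h1
    obtain ⟨f, hf0, hf⟩ := Submodule.exists_le_ker_of_lt_top _ hlt
    obtain ⟨s, hs⟩ : ∃ s : κ → ℤ, ∀ k, ((s k : ℤ) : ZMod p) = f fun j => if k = j then 1 else 0 :=
      ⟨fun k => ((f fun j => if k = j then 1 else 0).val : ℤ), fun k => by
        rw [Int.cast_natCast, ZMod.natCast_zmod_val]⟩
    have hfz : ∀ ψ : Gp t →* Cpn p n,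
        red (Multiplicative.toAdd (ψ (∏ k, b k ^ s k))) = 0 := by
      intro ψ
      have h1 : f (V (Additive.ofMul ψ)) = 0 := hf ⟨_, rfl⟩
      rw [LinearMap.pi_apply_eq_sum_univ f] at h1
      rw [map_prod, toAdd_prod, map_sum, ← h1]
      refine Finset.sum_congr rfl fun k _ => ?_
      rw [map_zpow, toAdd_zpow, map_zsmul, zsmul_eq_mul, hs, smul_eq_mul, mul_comm]
      rfl
    obtain ⟨e, he⟩ := IndOnto_span hcl (∏ k, b k ^ s k)
    have hpe : ∀ j, (p : ℤ) ∣ e j := by
      intro j
      obtain ⟨φ, hφ⟩ := hex j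
      have h1 := hfz φ
      have h2 : φ (∏ i, toGp t (c i) ^ e i) = gam p n ^ e j := by
        rw [map_prod, Finset.prod_eq_single j]
        · rw [map_zpow, hφ, if_pos rfl]
        · intro i _ hij
          rw [map_zpow, hφ, if_neg hij, one_zpow]
        · intro h
          exact absurd (Finset.mem_univ _) h
      have h3 : Multiplicative.toAdd (gam p n) = 1 := rfl
      rw [he, h2, toAdd_zpow, map_zsmul, h3, map_one, zsmul_eq_mul, mul_one] at h1
      exact (ZMod.intCast_zmod_eq_zero_iff_dvd _ _).mp h1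
    have hk := hind s ⟨∏ i, toGp t (c i) ^ (e i / p), by
      rw [he, ← Finset.prod_pow]
      refine Finset.prod_congr rfl fun i _ => ?_
      rw [← zpow_natCast, ← zpow_mul, Int.ediv_mul_cancel (hpe i)]⟩
    apply hf0
    refine LinearMap.ext fun X => ?_
    rw [LinearMap.pi_apply_eq_sum_univ f, LinearMap.zero_apply]
    refine Finset.sum_eq_zero fun k _ => ?_
    rw [← hs, (ZMod.intCast_zmod_eq_zero_iff_dvd _ _).mpr (hk k), smul_zero]
  -- iteration
  have hstep : ∀ X : κ → ZMod (p ^ n), ∃ (ψ : Gp t →* Cpn p n) (Y : κ → ZMod (p ^ n)),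
      ∀ k, X k = Multiplicative.toAdd (ψ (b k)) + p * Y k := by
    intro X
    obtain ⟨ψ, hψ⟩ := hV (fun k => red (X k))
    have h1 : ∀ k, ∃ y : ZMod (p ^ n), X k - Multiplicative.toAdd (ψ.toMul (b k)) = p * y := by
      intro k
      apply IndOnto_ker hdv
      rw [← hred, map_sub, sub_eq_zero]
      exact (congrFun hψ k).symm
    choose Y hY using h1
    exact ⟨ψ.toMul, Y, fun k => by rw [← hY]; ring⟩
  have hit : ∀ (j : ℕ) (X : κ → ZMod (p ^ n)), ∃ (ψ : Gp t →* Cpn p n) (Y : κ → ZMod (p ^ n)),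
      ∀ k, X k = Multiplicative.toAdd (ψ (b k)) + (p : ZMod (p ^ n)) ^ j * Y k := by
    intro j
    induction j with
    | zero =>
      intro X
      refine ⟨1, X, fun k => ?_⟩
      rw [MonoidHom.one_apply, toAdd_one, pow_zero, one_mul, zero_add]
    | succ j ih =>
      intro X
      obtain ⟨ψ, Y, h1⟩ := ih X
      obtain ⟨ψ', Y', h2⟩ := hstep Y
      refine ⟨ψ * ψ' ^ p ^ j, Y', fun k => ?_⟩
      rw [MonoidHom.mul_apply, MonoidHom.pow_apply, toAdd_mul, toAdd_pow, h1, h2, nsmul_eq_mul,
        Nat.cast_pow]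
      ring
  obtain ⟨ψ, Y, h⟩ := hit n S
  refine ⟨ψ, fun k => ?_⟩
  have h0 : (p : ZMod (p ^ n)) ^ n = 0 := by
    rw [← Nat.cast_pow, ZMod.natCast_self]
  rw [h k, h0, zero_mul, add_zero]
  rfl

end MTate
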