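import Mathlib
import Pool.Agent.Lib.MP_5deabe_nt_DF.CompatC
import Pool.Agent.Lib.MP_5deabe_nt_DF.IndOnto
import Pool.Agent.Lib.MP_5deabe_nt_DF.Fac

/-!
# The height pairing with values in cyclic `p`-groups

Write `z i j = pair M (x i) (n' • x j)`.

1. `pair_symm`: by `left` and `symm`,
`z i j ^ n' = pair M (n' • x i) (n' • x j) = pair M (n' • x j) (n' • x i) = z j i ^ n'`; apply `ω` and
`pow_cancel`.

2. `pair_change`: by `right`, both sides are `pair M (x i) ((n' * n'') • x j)`.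

3. `pair_onto`: let `n''` be the integer of `Independent t`.  By `ind_onto` with
`κ = {q : Fin r × Fin r // q.1 ≤ q.2}` and `b q = pair t (x q.1) (n'' • x q.2)` (the product over `κ`
is `∏ j, ∏ i ∈ Iic j`, for `s i j = 0` if not `i ≤ j`) there is `ψ : Gp t →* Cpn p n` with
`ψ (b q) = ofAdd (n'' / n' * S q.1 q.2)` (`n'` is a unit of `ZMod (p ^ n)`:
`ZMod.isUnit_iff_coprime`; use `ZMod.unitOfCoprime`).  Then for `i ≤ j` by `pair_change` (for `t`)
`ψ (pair t (x i) (n' • x j)) ^ n'' = ofAdd (n'' * S i j)`, so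
`ψ (pair t (x i) (n' • x j)) = ofAdd (S i j)` by `pow_cancel`; for `i > j` use `pair_symm` and the
symmetry of `S`.  Compose with `res : Gp M → Gp t` (`pair_res`).

4. `Perfect.det_unit`: otherwise the matrix `B = (toAdd (f (pair m (x i) (n' • x j))))` is singular
modulo `p` (an element of `ZMod (p ^ n)` whose image in `ZMod p` is not `0` is a unit; `map_det`), so
there is a nonzero `a` in `Fin r → ZMod p` with `a ᵥ* B = 0` modulo `p`
(`Matrix.exists_vecMul_eq_zero_iff`).  Lift `a` to integers `a i = (a i).val`; then for all `j`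
`f (∏ i, pair m (x i) (n' • x j) ^ a i) = ofAdd (∑ i, a i * B i j)` is a `p`-th power.  Let `n''` be
the integer of `Perfect`.  With `u n' + v p = 1` (Bezout) and `pair_change`:
`P'' = f (∏ i, pair m (x i) (n'' • x j) ^ a i)` satisfies
`P'' ^ n' = (f (∏ i, pair m (x i) (n' • x j) ^ a i)) ^ n''`, a `p`-th power, so
`P'' = (P'' ^ n') ^ u * (P'' ^ v) ^ p` is a `p`-th power.  Hence `p ∣ a i` for all `i`,
a contradiction.

5. `perfect_of_diag`: `f (∏ i, pair m (x i) (n' • x j) ^ a i) = ofAdd (n' * a j)`; if it is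
`y ^ p = ofAdd (p * _)` then `p` divides `n' * a j` in `ZMod (p ^ n)`, `n ≥ 1`, so in `ℤ`.
-/

namespace MTate

open MonoidAlgebra

variable {p : ℕ} [hp : Fact p.Prime] {D : MTData}

namespace MTData

private theorem PairH_ker {n : ℕ} (hdv : p ∣ p ^ n) {x : ZMod (p ^ n)}
    (hx : ZMod.castHom hdv (ZMod p) x = 0) : ∃ y : ZMod (p ^ n), x = p * y := by
  have hN : NeZero (p ^ n) := ⟨pow_ne_zero _ hp.out.ne_zero⟩
  rw [← ZMod.natCast_zmod_val x, map_natCast, ZMod.natCast_eq_zero_iff] at hx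
  obtain ⟨m, hm⟩ := hx
  refine ⟨(m : ZMod (p ^ n)), ?_⟩
  rw [← Nat.cast_mul, ← hm, ZMod.natCast_zmod_val]

private theorem PairH_unit {n : ℕ} (hdv : p ∣ p ^ n) {x : ZMod (p ^ n)}
    (hx : ¬ IsUnit x) : ZMod.castHom hdv (ZMod p) x = 0 := by
  have hN : NeZero (p ^ n) := ⟨pow_ne_zero _ hp.out.ne_zero⟩
  rw [← ZMod.natCast_zmod_val x, ZMod.isUnit_iff_coprime] at hx
  rw [← ZMod.natCast_zmod_val x, map_natCast, ZMod.natCast_eq_zero_iff]
  by_contra hcon
  exact hx (Nat.Coprime.pow_right n ((Nat.Prime.coprime_iff_not_dvd hp.out).2 hcon).symm)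

private theorem PairH_inv {n n' : ℕ} (hn' : p.Coprime n') :
    ∃ c : ZMod (p ^ n), (n' : ZMod (p ^ n)) * c = 1 :=
  ((ZMod.isUnit_iff_coprime n' (p ^ n)).2 (Nat.Coprime.pow_right n hn'.symm)).exists_right_inv

theorem pair_symm (hP : D.Pairing2 p) {M : ℕ} (hM : D.Adm p M) {n' : ℕ} (hn' : p.Coprime n')
    (hES : ∀ j, D.InES M (n' • D.x j)) {C : Type*} [CommGroup C] {n : ℕ} (ω : Gp M →* C)
    (hω : ∀ g, ω g ^ p ^ n = 1) (i j : Fin D.r) :
    ω (D.pair M (D.x i) (n' • D.x j)) = ω (D.pair M (D.x j) (n' • D.x i)) := by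
  refine pow_cancel hn' (hω _) (hω _) ?_
  rw [← map_pow, ← map_pow, ← hP.left M hM (D.x i) _ n' (hES j),
    ← hP.left M hM (D.x j) _ n' (hES i), hP.symm M hM _ _ (hES i) (hES j)]

theorem pair_change (hP : D.Pairing2 p) {M : ℕ} (hM : D.Adm p M) {n' n'' : ℕ}
    (hES' : ∀ j, D.InES M (n' • D.x j)) (hES'' : ∀ j, D.InES M (n'' • D.x j)) (i j : Fin D.r) :
    D.pair M (D.x i) (n' • D.x j) ^ n'' = D.pair M (D.x i) (n'' • D.x j) ^ n' := by
  rw [← hP.right M hM (D.x i) _ n'' (hES' j), ← hP.right M hM (D.x i) _ n' (hES'' j),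
    smul_comm]

theorem pair_onto (hp2 : p ≠ 2) (hP : D.Pairing2 p) {M t : ℕ} (hM : D.Adm p M) (ht : t ∣ M)
    {n : ℕ} (hn : 1 ≤ n) (hdiv : ∀ l ∈ t.primeFactors, p ^ n ∣ l - 1) (hind : D.Independent p t)
    {n' : ℕ} (hn' : p.Coprime n') (hES : ∀ j, D.InES M (n' • D.x j))
    (S : Matrix (Fin D.r) (Fin D.r) (ZMod (p ^ n))) (hS : S.IsSymm) :
    ∃ ψ : Gp M →* Cpn p n, ∀ i j,
      ψ (D.pair M (D.x i) (n' • D.x j)) = Multiplicative.ofAdd (S i j) := by
  classical
  have hA := hM.of_dvd ht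
  have hESt : ∀ j, D.InES t (n' • D.x j) := fun j => (hES j).of_dvd ht
  obtain ⟨n'', hn'', hES'', hI⟩ := hind
  obtain ⟨c, hc⟩ := PairH_inv (n := n) hn'
  have hI' : ∀ s : {q : Fin D.r × Fin D.r // q.1 ≤ q.2} → ℤ,
      (∃ y, ∏ k, D.pair t (D.x k.1.1) (n'' • D.x k.1.2) ^ s k = y ^ p) →
        ∀ k, (p : ℤ) ∣ s k := by
    intro s hs k
    obtain ⟨y, hy⟩ := hs
    obtain ⟨s', hs'⟩ : ∃ s' : Fin D.r → Fin D.r → ℤ,
        s' = fun i j => if h : i ≤ j then s ⟨(i, j), h⟩ else 0 := ⟨_, rfl⟩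
    have h1 : ∏ j, ∏ i ∈ Finset.Iic j, D.pair t (D.x i) (n'' • D.x j) ^ s' i j = y ^ p := by
      rw [← hy]
      have e1 : ∏ j, ∏ i ∈ Finset.Iic j, D.pair t (D.x i) (n'' • D.x j) ^ s' i j =
          ∏ j, ∏ i, D.pair t (D.x i) (n'' • D.x j) ^ s' i j := by
        refine Finset.prod_congr rfl fun j _ => ?_
        refine Finset.prod_subset (Finset.subset_univ _) fun i _ hi => ?_
        rw [Finset.mem_Iic] at hi
        rw [hs']
        simp only
        rw [dif_neg hi, zpow_zero]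
      have e2 : ∏ j, ∏ i, D.pair t (D.x i) (n'' • D.x j) ^ s' i j =
          ∏ q : Fin D.r × Fin D.r, D.pair t (D.x q.1) (n'' • D.x q.2) ^ s' q.1 q.2 :=
        (Fintype.prod_prod_type_right (fun q : Fin D.r × Fin D.r =>
          D.pair t (D.x q.1) (n'' • D.x q.2) ^ s' q.1 q.2)).symm
      have e3 : ∏ q ∈ Finset.univ.filter (fun q : Fin D.r × Fin D.r => q.1 ≤ q.2),
          D.pair t (D.x q.1) (n'' • D.x q.2) ^ s' q.1 q.2 =
          ∏ q : Fin D.r × Fin D.r, D.pair t (D.x q.1) (n'' • D.x q.2) ^ s' q.1 q.2 := by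
        refine Finset.prod_subset (Finset.subset_univ _) fun q _ hq => ?_
        rw [Finset.mem_filter, not_and] at hq
        have hq' := hq (Finset.mem_univ _)
        rw [hs']
        simp only
        rw [dif_neg hq', zpow_zero]
      rw [e1, e2, ← e3, Finset.prod_subtype _ (p := fun q : Fin D.r × Fin D.r => q.1 ≤ q.2)
        (fun q => by simp)]
      refine Finset.prod_congr rfl fun q _ => ?_
      rw [hs']
      simp only
      rw [dif_pos q.2]
    have h2 := hI s' ⟨y, h1⟩ k.1.1 k.1.2 k.2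
    rw [hs'] at h2
    simp only at h2
    rwa [dif_pos k.2] at h2
  obtain ⟨ψ, hψ⟩ := ind_onto hp2 hA.1 hn hdiv
    (κ := {q : Fin D.r × Fin D.r // q.1 ≤ q.2})
    (fun q => D.pair t (D.x q.1.1) (n'' • D.x q.1.2)) hI'
    (fun q => (n'' : ZMod (p ^ n)) * c * S q.1.1 q.1.2)
  have key : ∀ i j : Fin D.r, i ≤ j →
      ψ (D.pair t (D.x i) (n' • D.x j)) = Multiplicative.ofAdd (S i j) := by
    intro i j hij
    refine pow_cancel hn'' (Cpn_pow_card _) (Cpn_pow_card _) ?_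
    rw [← map_pow, pair_change hP hA hESt hES'', map_pow, hψ ⟨(i, j), hij⟩]
    apply Multiplicative.toAdd.injective
    rw [toAdd_pow, toAdd_pow, toAdd_ofAdd, toAdd_ofAdd, nsmul_eq_mul, nsmul_eq_mul]
    linear_combination (n'' : ZMod (p ^ n)) * S i j * hc
  refine ⟨ψ.comp (res ht), fun i j => ?_⟩
  rw [MonoidHom.comp_apply, pair_res hM.1 ht]
  rcases le_total i j with hij | hij
  · exact key i j hij
  · rw [pair_symm hP hA hn' hESt ψ (fun g => Cpn_pow_card _), key j i hij, hS.apply]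

theorem Perfect.det_unit (hP : D.Pairing2 p) {m n : ℕ} (hm : D.Adm p m) (hn : 1 ≤ n)
    {f : Gp m →* Cpn p n} (h : D.Perfect p m f) {n' : ℕ} (hn' : p.Coprime n')
    (hES : ∀ j, D.InES m (n' • D.x j)) :
    IsUnit (Matrix.of fun i j =>
      Multiplicative.toAdd (f (D.pair m (D.x i) (n' • D.x j)))).det := by
  classical
  by_contra hcon
  have hdv : p ∣ p ^ n := dvd_pow_self p (by omega)
  have hdet := PairH_unit hdv hcon
  rw [RingHom.map_det] at hdet
  obtain ⟨a, ha0, ha⟩ := Matrix.exists_vecMul_eq_zero_iff.2 hdet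
  obtain ⟨n'', hn'', hES'', hI⟩ := h
  obtain ⟨c, hc⟩ := PairH_inv (n := n) hn'
  apply ha0
  have hall := hI (fun i => ((a i).val : ℤ)) (fun j => ?_)
  · funext i
    have h1 := hall i
    have h2 := (ZMod.intCast_zmod_eq_zero_iff_dvd _ p).2 h1
    rw [Int.cast_natCast, ZMod.natCast_zmod_val] at h2
    exact h2
  · -- the `n''`-version
    have e1 : (∏ i, D.pair m (D.x i) (n'' • D.x j) ^ ((a i).val : ℤ)) ^ n' =
        (∏ i, D.pair m (D.x i) (n' • D.x j) ^ ((a i).val : ℤ)) ^ n'' := by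
      rw [← Finset.prod_pow, ← Finset.prod_pow]
      refine Finset.prod_congr rfl fun i _ => ?_
      rw [zpow_natCast, zpow_natCast, ← pow_mul, ← pow_mul, mul_comm _ n', mul_comm _ n'',
        pow_mul, pow_mul, pair_change hP hm hES hES'']
    have e2 : ∃ y : ZMod (p ^ n), Multiplicative.toAdd
        (f (∏ i, D.pair m (D.x i) (n' • D.x j) ^ ((a i).val : ℤ))) = p * y := by
      refine PairH_ker hdv ?_
      have e3 := congrFun ha j
      rw [Pi.zero_apply] at e3
      rw [← e3, map_prod, toAdd_prod, map_sum]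
      unfold Matrix.vecMul dotProduct
      refine Finset.sum_congr rfl fun i _ => ?_
      rw [map_zpow, toAdd_zpow, map_zsmul, zsmul_eq_mul, Int.cast_natCast,
        ZMod.natCast_zmod_val]
      rfl
    obtain ⟨y, hy⟩ := e2
    refine ⟨Multiplicative.ofAdd (c * (n'' * y)), ?_⟩
    apply Multiplicative.toAdd.injective
    have e4 := congrArg (fun z => Multiplicative.toAdd (f z)) e1
    simp only [map_pow, toAdd_pow, nsmul_eq_mul] at e4
    rw [hy] at e4
    rw [toAdd_pow, toAdd_ofAdd, nsmul_eq_mul]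
    linear_combination c * e4 - Multiplicative.toAdd
      (f (∏ i, D.pair m (D.x i) (n'' • D.x j) ^ ((a i).val : ℤ))) * hc

theorem perfect_of_diag {m n : ℕ} (hn : 1 ≤ n) {f : Gp m →* Cpn p n} {n' : ℕ}
    (hn' : p.Coprime n') (hES : ∀ j, D.InES m (n' • D.x j))
    (h : ∀ i j, f (D.pair m (D.x i) (n' • D.x j)) = if i = j then gam p n ^ n' else 1) :
    D.Perfect p m f := by
  classical
  have hdv : p ∣ p ^ n := dvd_pow_self p (by omega)
  refine ⟨n', hn', hES, fun a ha j => ?_⟩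
  obtain ⟨y, hy⟩ := ha j
  have h1 : f (∏ i, D.pair m (D.x i) (n' • D.x j) ^ a i) = (gam p n ^ n') ^ a j := by
    rw [map_prod, Finset.prod_eq_single j]
    · rw [map_zpow, h, if_pos rfl]
    · intro i _ hi
      rw [map_zpow, h, if_neg hi, one_zpow]
    · intro hj
      exact absurd (Finset.mem_univ _) hj
  rw [h1] at hy
  have h2 := congrArg (fun z => ZMod.castHom hdv (ZMod p) (Multiplicative.toAdd z)) hy
  have h3 : Multiplicative.toAdd (gam p n) = 1 := rfl
  simp only [toAdd_zpow, toAdd_pow, h3, nsmul_eq_mul, zsmul_eq_mul, map_mul, map_intCast,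
    map_natCast, mul_one, CharP.cast_eq_zero, zero_mul] at h2
  rcases mul_eq_zero.1 h2 with h4 | h4
  · exact (ZMod.intCast_zmod_eq_zero_iff_dvd _ p).1 h4
  · rw [ZMod.natCast_eq_zero_iff] at h4
    exact absurd h4 ((Nat.Prime.coprime_iff_not_dvd hp.out).1 hn')

end MTData

end MTate
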