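import Mathlib
import Pool.Agent.Lib.MP_5deabe_nt_DF.Core2
import Pool.Agent.Lib.MP_5deabe_nt_DF.PairH
import Pool.Agent.Lib.MP_5deabe_nt_DF.DetMem
import Pool.Agent.Lib.MP_5deabe_nt_DF.Few

/-!
# The leading term formula up to a constant, level `n`
-/

namespace MTate

open MonoidAlgebra

variable {p : ℕ} [hp : Fact p.Prime] {D : MTData}

namespace MTData

theorem Valid.five_le (hD : D.Valid p) : 5 ≤ p := by
  have h2 := hD.ne_two
  have h3 : p ≠ 3 := by
    rintro rfl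
    have := hD.good
    have h2 : Nat.Coprime 3 6 := by
      refine this.coprime_dvd_right ?_
      refine Dvd.dvd.mul_right (Dvd.dvd.mul_right (Dvd.dvd.mul_right (Dvd.dvd.mul_right ?_ _) _)
        _) _
      exact dvd_rfl
    revert h2
    decide
  exact hp.out.five_le_of_ne_two_of_ne_three h2 h3

theorem key (hD : D.Valid p) (hr1 : 1 ≤ D.r) (hr : D.r < p) {M : ℕ} (hM : D.Adm p M)
    (hP : D.Pairing2 p) {n : ℕ} (hn : 1 ≤ n) {t : ℕ} (ht : t ∣ M)
    (htp : ∀ l ∈ t.primeFactors, p ^ n ∣ l - 1) (hind : D.Independent p t)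
    (hV : D.Vanish p n t) (htM : (M.primeFactors \ t.primeFactors).card ≤ D.r)
    {n' : ℕ} (hn' : p.Coprime n') (hES : ∀ j, D.InES M (n' • D.x j)) (c : ℤ_[p])
    {θ : MonoidAlgebra ℤ_[p] (Gp M)} (hθ : D.IsTheta p M (MonoidHom.id (Gp M)) θ) :
    (∀ ω : Gp M →* Cpn p n, push ω (θ - D.rhsC p c n' M (Gp M) (MonoidHom.id (Gp M))) ∈
      augI ℤ_[p] (Cpn p n) ^ D.r) ∧
    ((∃ ω : Gp M →* Cpn p n, IsUnit (Matrix.of fun i j =>
        Multiplicative.toAdd (ω (D.pair M (D.x i) (n' • D.x j)))).det ∧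
      push ω (θ - D.rhsC p c n' M (Gp M) (MonoidHom.id (Gp M))) ∈
        augI ℤ_[p] (Cpn p n) ^ (D.r + 1)) →
      ∀ (G : Type) [CommGroup G] [Finite G] (f : Gp M →* G), Lev p n G →
        push f (θ - D.rhsC p c n' M (Gp M) (MonoidHom.id (Gp M))) ∈
          augI ℤ_[p] G ^ (D.r + 1)) := by
  have hM0 : M ≠ 0 := hM.1.ne_zero
  have hfin := finite_Gp hM0
  have hA : D.Compat p M (D.r + 1) (D.rhsC p c n') := compatC hM c
  obtain ⟨H, hHg, hHf, κ, hκs, hHp, hκ⟩ := exists_quot (p := p) (Gp M) n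
  set x := θ - D.rhsC p c n' M (Gp M) (MonoidHom.id (Gp M)) with hx
  have h5 : 5 ≤ p := hD.five_le
  have hcore := core2 (p := p) h5 hr1 hr hn hHp
    (fun i j => κ (D.pair M (D.x i) (n' • D.x j)))
    (fun i j => pair_symm hP hM hn' hES (n := n) κ (fun g => hHp _) i j)
    (fun S hS => by
      obtain ⟨ψ, hψ⟩ := pair_onto hD.ne_two hP hM ht hn htp hind hn' hES S hS
      obtain ⟨ψ', hψ'⟩ := hκ (Cpn p n) ψ (fun g => Cpn_pow_card _)
      refine ⟨ψ', fun i j => ?_⟩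
      rw [← MonoidHom.comp_apply, hψ', hψ])
    (x := push κ x)
    (fun j hj ψ hψ => by
      obtain ⟨a, ha, hψa⟩ := hψ
      rw [push_push]
      obtain ⟨i, hij, ω', hω's, ι, hι, hω⟩ := hom_factor_range (ψ.comp κ)
      obtain ⟨d, hd, f', hf', hf'res⟩ := exists_field hM0 hω's
      have hE : ∀ j', f' (∏ i, D.pair d (D.x i) (n' • D.x j') ^ a i) = 1 := by
        intro j'
        have h1 : (ψ.comp κ) (∏ i, D.pair M (D.x i) (n' • D.x j') ^ a i) = 1 := by
          rw [MonoidHom.comp_apply, map_prod]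
          simp only [map_zpow]
          exact hψa j'
        rw [← hω, MonoidHom.comp_apply] at h1
        have h2 := hι (h1.trans (map_one ι).symm)
        rw [← hf'res, MonoidHom.comp_apply, map_prod] at h2
        simp only [map_zpow, pair_res hM.1 hd] at h2
        rw [map_prod]
        simpa only [map_zpow, map_prod] using h2
      have hES' : ∀ j, D.InES d (n' • D.x j) := fun j => (hES j).of_dvd hd
      obtain ⟨θ', hθ', hθI⟩ := hV d (hM.of_dvd hd) ((Finset.card_le_card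
        (Finset.sdiff_subset_sdiff (Nat.primeFactors_mono hd hM0) subset_rfl)).trans htM)
        i (hij.trans hj) f' hf' ⟨n', hn', hES', a, ha, hE⟩
      have hst : D.Stmt p (D.r + 1) (D.rhsC p c n') d (Cpn p i) f' := by
        refine ⟨θ', hθ', Ideal.sub_mem _ hθI ?_⟩
        exact Ideal.mul_mem_left _ _ (reg_mem_of_degenerate ha hE)
      have h3 := (hst.up_dvd hM hA hd dvd_rfl).comp hA ι
      have hfin2 := Cpn_finite (p := p) j
      have h4 := push_sub_mem hA hθ h3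
      rw [hf'res, hω] at h4
      exact h4)
  refine ⟨fun ω => ?_, fun ⟨ω, hω1, hω2⟩ G _ _ f hG => ?_⟩
  · obtain ⟨ω', hω'⟩ := hκ (Cpn p n) ω (fun g => Cpn_pow_card _)
    rw [← hω', ← push_push]
    exact push_mem ω' hcore.1
  · have hmem : push κ x ∈ augI ℤ_[p] H ^ (D.r + 1) := by
      refine hcore.2 ?_
      obtain ⟨ω', hω'⟩ := hκ (Cpn p n) ω (fun g => Cpn_pow_card _)
      refine ⟨ω', ?_, ?_⟩
      · convert hω1 using 6 with i j
        rw [← hω', MonoidHom.comp_apply]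
      · rw [push_push, hω']
        exact hω2
    refine cyc_detect hr fun n'' φ => ?_
    obtain ⟨k, hk, hk'⟩ := hG
    obtain ⟨φ', hφ'⟩ := hκ (Cpn p n'') (φ.comp f) (fun g => by
      refine order_pow hk ?_
      rw [MonoidHom.comp_apply, ← map_pow, hk', map_one])
    rw [push_push, ← hφ', ← push_push]
    exact push_mem φ' hmem

theorem lev_Cpn {j n : ℕ} (h : j ≤ n) : Lev p n (Cpn p j) := by
  refine ⟨1, Nat.coprime_one_right p, fun g => ?_⟩
  rw [mul_one, ← Nat.sub_add_cancel h, pow_add, mul_comm, pow_mul, Cpn_pow_card, one_pow]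

theorem vanish_of_q1c {c : ℤ_[p]} {n : ℕ}
    (h : ∀ m, D.Adm p m → ∀ (G : Type) [CommGroup G] (f : Gp m →* G), IsField m f →
      Lev p n G → D.Q1c p c m f) (t : ℕ) : D.Vanish p n t := by
  intro m hm _ j hj f hf hdeg
  obtain ⟨n', hn', hES, a, ha, hE⟩ := hdeg
  obtain ⟨θ, hθ, -, hθ'⟩ := h m hm (Cpn p j) f hf (lev_Cpn hj)
  refine ⟨θ, hθ, ?_⟩
  have h1 := hθ' n' hn' hES
  have h2 : algebraMap ℤ_[p] (MonoidAlgebra ℤ_[p] (Cpn p j)) ((-1) ^ m.primeFactors.card *
      (c * ∏ l ∈ m.primeFactors, (nsCard D.W l : ℤ_[p]) * Ring.inverse (l : ℤ_[p]))) *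
        D.reg p n' m f ∈ augI ℤ_[p] (Cpn p j) ^ (D.r + 1) :=
    Ideal.mul_mem_left _ _ (reg_mem_of_degenerate ha hE)
  have h3 := Ideal.add_mem _ h1 h2
  rwa [sub_add_cancel] at h3

/-- from one field with perfect pairing in `ℚ(ζ_t)⁺` to the fields with few ramified primes -/
theorem spread (hD : D.Valid p) (hr1 : 1 ≤ D.r) (hr : D.r < p)
    (hI : ∀ m, D.Adm p m → D.Integral p m) (hP : D.Pairing2 p) {n : ℕ} (hn : 1 ≤ n) {t : ℕ}
    (ht : D.Adm p t) (htp : ∀ l ∈ t.primeFactors, p ^ n ∣ l - 1) (hind : D.Independent p t)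
    (hV : D.Vanish p n t) {c : ℤ_[p]} {m₀ : ℕ} (hm₀ : m₀ ∣ t) {f₀ : Gp m₀ →* Cpn p n}
    (hperf : D.Perfect p m₀ f₀) (hQ : D.Q1c p c m₀ f₀)
    {m : ℕ} (hm : D.Adm p m) (hmr : m.primeFactors.card ≤ D.r) (G : Type) [CommGroup G]
    {f : Gp m →* G} (hf : IsField m f) (hG : Lev p n G) : D.Q1c p c m f := by
  have hM : D.Adm p (Nat.lcm m t) := hm.lcm ht
  set M := Nat.lcm m t with hMdef
  have hmM : m ∣ M := Nat.dvd_lcm_left m t
  have htM : t ∣ M := Nat.dvd_lcm_right m t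
  have hm₀M : m₀ ∣ M := hm₀.trans htM
  have hcard : (M.primeFactors \ t.primeFactors).card ≤ D.r := by
    refine (Finset.card_le_card ?_).trans hmr
    intro l hl
    rw [Finset.mem_sdiff] at hl
    have hlp := Nat.prime_of_mem_primeFactors hl.1
    have h1 : l ∣ m * t := (Nat.dvd_of_mem_primeFactors hl.1).trans (Nat.lcm_dvd_mul m t)
    rcases hlp.dvd_mul.mp h1 with h2 | h2
    · exact Nat.mem_primeFactors.mpr ⟨hlp, h2, hm.1.ne_zero⟩
    · exact absurd (Nat.mem_primeFactors.mpr ⟨hlp, h2, ht.1.ne_zero⟩) hl.2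
  obtain ⟨n', hn', hES⟩ := hP.ext M hM
  obtain ⟨θ, hθ⟩ := exists_theta hD hM (hI M hM)
  have hA : D.Compat p M (D.r + 1) (D.rhsC p c n') := compatC hM c
  have hfG : Finite G := by
    have := finite_Gp hm.1.ne_zero
    exact Finite.of_surjective f hf.1
  have h1 := (key hD hr1 hr hM hP hn htM htp hind hV hcard hn' hES c hθ).2
    ⟨f₀.comp (res hm₀M), ?_, ?_⟩ G (f.comp (res hmM)) hG
  · obtain ⟨θ', hθ'⟩ := hI m hm m dvd_rfl G f hf
    refine Stmt.q1c (hP.pairing hM) hmM hn' (fun j => (hES j).of_dvd hmM) ?_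
    refine Stmt.down_dvd hM hA hθ' hmM dvd_rfl ?_
    refine ⟨push (f.comp (res hmM)) θ, ?_, ?_⟩
    · have := hθ.push' (f.comp (res hmM))
      rwa [MonoidHom.comp_id] at this
    · rw [map_sub, hA.comp, MonoidHom.comp_id] at h1
      exact h1
  · have h2 := hperf.det_unit hP (ht.of_dvd hm₀) hn hn' (fun j => (hES j).of_dvd hm₀M)
    convert h2 using 6 with i j
    rw [MonoidHom.comp_apply, pair_res hM.1 hm₀M]
  · have hfin2 := Cpn_finite (p := p) n
    have h2 := (hQ.stmt hn' fun j => (hES j).of_dvd hm₀M).up_dvd hM hA hm₀M dvd_rfl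
    exact push_sub_mem hA hθ h2

/-- from the fields with few ramified primes to all fields -/
theorem all_of_few (hD : D.Valid p) (hr : D.r < p)
    (hI : ∀ m, D.Adm p m → D.Integral p m) (hP : D.Pairing2 p) {n : ℕ} {c : ℤ_[p]}
    (h : ∀ m, D.Adm p m → m.primeFactors.card ≤ D.r → ∀ (G : Type) [CommGroup G]
      (f : Gp m →* G), IsField m f → Lev p n G → D.Q1c p c m f)
    {m : ℕ} (hm : D.Adm p m) (G : Type) [CommGroup G]
    {f : Gp m →* G} (hf : IsField m f) (hG : Lev p n G) : D.Q1c p c m f := by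
  obtain ⟨n', hn', hES⟩ := hP.ext m hm
  obtain ⟨θ, hθ⟩ := exists_theta hD hm (hI m hm)
  have hA : D.Compat p m (D.r + 1) (D.rhsC p c n') := compatC hm c
  have hfG : Finite G := by
    have := finite_Gp hm.1.ne_zero
    exact Finite.of_surjective f hf.1
  have h1 := few_detect hD.ne_two (n := n) hm.1 hr
    (x := θ - D.rhsC p c n' m (Gp m) (MonoidHom.id (Gp m))) (fun m' hm' hcard j hj ω => ?_) f hG
  · refine Stmt.q1c (hP.pairing hm) dvd_rfl hn' hES ?_
    refine ⟨push f θ, ?_, ?_⟩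
    · have := hθ.push' f
      rwa [MonoidHom.comp_id] at this
    · rw [map_sub, hA.comp, MonoidHom.comp_id] at h1
      exact h1
  · obtain ⟨i, hij, ω', hω's, ι, hι, hω⟩ := hom_factor_range ω
    obtain ⟨d, hd, f', hf', hf'res⟩ := exists_field (hm.of_dvd hm').1.ne_zero hω's
    have hdm : d ∣ m := hd.trans hm'
    have h2 := h d (hm.of_dvd hdm) ((Finset.card_le_card (Nat.primeFactors_mono hd
      (hm.of_dvd hm').1.ne_zero)).trans hcard) (Cpn p i) f' hf' (lev_Cpn (hij.trans hj))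
    have h3 := ((h2.stmt hn' fun j => (hES j).of_dvd hdm).up_dvd hm hA hdm dvd_rfl).comp hA ι
    have hfin2 := Cpn_finite (p := p) j
    have h4 := push_sub_mem hA hθ h3
    have h5 : ι.comp (f'.comp (res hdm)) = ω.comp (res hm') := by
      rw [← hω, ← hf'res]
      ext x
      simp only [MonoidHom.comp_apply, res_res]
    rw [h5] at h4
    exact h4

theorem exists_perfect (hD : D.Valid p) (hr1 : 1 ≤ D.r) (hP : D.Pairing2 p) {n : ℕ} (hn : 1 ≤ n)
    {t : ℕ} (ht : D.Adm p t) (htp : ∀ l ∈ t.primeFactors, p ^ n ∣ l - 1)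
    (hind : D.Independent p t) {n' : ℕ} (hn' : p.Coprime n')
    (hES : ∀ j, D.InES t (n' • D.x j)) : ∃ (d : ℕ) (f : Gp d →* Cpn p n),
      d ∣ t ∧ IsField d f ∧ D.Perfect p d f ∧
        ∀ i j, f (D.pair d (D.x i) (n' • D.x j)) = if i = j then gam p n ^ n' else 1 := by
  obtain ⟨ψ, hψ⟩ := pair_onto hD.ne_two hP ht dvd_rfl hn htp hind hn' hES
    (Matrix.diagonal fun _ => (n' : ZMod (p ^ n))) (Matrix.isSymm_diagonal _)
  have hψ' : ∀ i j, ψ (D.pair t (D.x i) (n' • D.x j)) = if i = j then gam p n ^ n' else 1 := by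
    intro i j
    rw [hψ]
    by_cases hij : i = j
    · subst hij
      rw [Matrix.diagonal_apply_eq, if_pos rfl]
      apply Multiplicative.toAdd.injective
      rw [toAdd_pow, toAdd_ofAdd]
      unfold gam
      rw [toAdd_ofAdd, nsmul_eq_mul, mul_one]
    · rw [Matrix.diagonal_apply_ne _ hij, if_neg hij]
      rfl
  have hs : Function.Surjective ψ := by
    intro y
    obtain ⟨k, hk⟩ := gam_pow_gen (n := n) hn' y
    refine ⟨D.pair t (D.x ⟨0, hr1⟩) (n' • D.x ⟨0, hr1⟩) ^ k, ?_⟩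
    rw [map_pow, hψ', if_pos rfl, hk]
  obtain ⟨d, hd, f, hf, hfr⟩ := exists_field ht.1.ne_zero hs
  have hdiag : ∀ i j, f (D.pair d (D.x i) (n' • D.x j)) = if i = j then gam p n ^ n' else 1 := by
    intro i j
    rw [← pair_res ht.1 hd, ← MonoidHom.comp_apply, hfr, hψ']
  exact ⟨d, f, hd, hf, perfect_of_diag hn hn' (fun j => (hES j).of_dvd hd) hdiag, hdiag⟩

theorem exists_coeff {n k : ℕ} {y : MonoidAlgebra ℤ_[p] (Cpn p n)}
    (hy : y ∈ augI ℤ_[p] (Cpn p n) ^ k) : ∃ a : ℤ_[p],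
      y - algebraMap ℤ_[p] _ a * (of ℤ_[p] (Cpn p n) (gam p n) - 1) ^ k ∈
        augI ℤ_[p] (Cpn p n) ^ (k + 1) := by
  have hcl : Subgroup.closure (Set.range fun _ : Unit => gam p n) = ⊤ := by
    rw [eq_top_iff]
    intro y _
    obtain ⟨j, rfl⟩ := gam_pow_val y
    exact Subgroup.pow_mem _ (Subgroup.subset_closure (Set.mem_range_self ())) _
  obtain ⟨F, hF, hF'⟩ := exists_homog hcl k hy
  refine ⟨MvPolynomial.eval (fun _ => 1) F, ?_⟩
  have h1 := aeval_smul_homog (A := MonoidAlgebra ℤ_[p] (Cpn p n)) hF (fun _ : Unit => (1 : ℤ_[p]))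
    (of ℤ_[p] (Cpn p n) (gam p n) - 1)
  simp only [map_one, one_mul] at h1
  rw [← h1]
  exact hF'

theorem exists_const (hD : D.Valid p) (hr1 : 1 ≤ D.r) (hr : D.r < p)
    (hI : ∀ m, D.Adm p m → D.Integral p m) (hP : D.Pairing2 p) {n : ℕ} (hn : 1 ≤ n) {t : ℕ}
    (ht : D.Adm p t) (htp : ∀ l ∈ t.primeFactors, p ^ n ∣ l - 1) (hind : D.Independent p t)
    (hV : D.Vanish p n t) : ∃ c : ℤ_[p], ∀ m, D.Adm p m → ∀ (G : Type) [CommGroup G]
      (f : Gp m →* G), IsField m f → Lev p n G → D.Q1c p c m f := by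
  obtain ⟨n', hn', hES⟩ := hP.ext t ht
  obtain ⟨d, f, hd, hf, hperf, hdiag⟩ := exists_perfect hD hr1 hP hn ht htp hind hn' hES
  obtain ⟨θ, hθ⟩ := exists_theta hD ht (hI t ht)
  have hcard : (t.primeFactors \ t.primeFactors).card ≤ D.r := by
    rw [Finset.sdiff_self, Finset.card_empty]
    exact Nat.zero_le _
  have h1 := (key hD hr1 hr ht hP hn dvd_rfl htp hind hV hcard hn' hES 0 hθ).1
    (f.comp (res hd))
  have h2 : D.rhsC p 0 n' t (Gp t) (MonoidHom.id (Gp t)) = 0 := by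
    unfold rhsC
    rw [zero_mul, mul_zero, map_zero, zero_mul]
  rw [h2, sub_zero] at h1
  obtain ⟨a, ha⟩ := exists_coeff h1
  set v : ℤ_[p] := ∏ l ∈ t.primeFactors, (nsCard D.W l : ℤ_[p]) * Ring.inverse (l : ℤ_[p])
    with hv
  have hvu : IsUnit v := by
    refine IsUnit.prod_iff.mpr fun l hl => ?_
    have hl1 : p.Coprime l := ht.2.2.1.coprime_dvd_right (Nat.dvd_of_mem_primeFactors hl)
    exact (isUnit_cast (ht.2.2.2 l hl)).mul (isUnit_cast hl1).ringInverse
  obtain ⟨v', hv'⟩ := hvu.exists_left_inv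
  refine ⟨(-1) ^ t.primeFactors.card * a * v', fun m hm G _ f' hf' hG => ?_⟩
  refine all_of_few hD hr hI hP (fun m hm hmr G _ f' hf' hG => ?_) hm G hf' hG
  refine spread hD hr1 hr hI hP hn ht htp hind hV hd hperf ?_ hm hmr G hf' hG
  have hA : D.Compat p t (D.r + 1) (D.rhsC p ((-1) ^ t.primeFactors.card * a * v') n') :=
    compatC ht _
  obtain ⟨θ', hθ'⟩ := hI t ht d hd (Cpn p n) f hf
  refine Stmt.q1c (hP.pairing ht) hd hn' (fun j => (hES j).of_dvd hd) ?_
  have hfin2 := Cpn_finite (p := p) n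
  refine Stmt.down_dvd ht hA hθ' hd dvd_rfl ?_
  refine ⟨push (f.comp (res hd)) θ, ?_, ?_⟩
  · have := hθ.push' (f.comp (res hd))
    rwa [MonoidHom.comp_id] at this
  · have h3 : (-1 : ℤ_[p]) ^ t.primeFactors.card *
        ((-1) ^ t.primeFactors.card * a * v' * v) = a := by
      rw [mul_assoc _ v' v, hv', mul_one, ← mul_assoc, ← mul_pow]
      norm_num
    have h4 : D.rhsC p ((-1) ^ t.primeFactors.card * a * v') n' t (Cpn p n)
        (f.comp (res hd)) = algebraMap ℤ_[p] _ a * D.reg p n' t (f.comp (res hd)) := by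
      unfold rhsC
      rw [← hv, h3]
    rw [h4]
    have h5 := reg_of_diag (D := D) (p := p) (n := n') (m := t) hn' (f := f.comp (res hd))
      (g := gam p n) (fun i j => by rw [MonoidHom.comp_apply, pair_res ht.1 hd, hdiag])
    have h6 := Ideal.mul_mem_left _ (algebraMap ℤ_[p] (MonoidAlgebra ℤ_[p] (Cpn p n)) a) h5
    have h7 := Ideal.sub_mem _ ha h6
    convert! h7 using 1
    ring

end MTData

end MTate
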