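import Mathlib
import Pool.Agent.Lib.MP_5deabe_nt_DF.PairH
import Pool.Agent.Lib.MP_5deabe_nt_DF.DetMem

/-!
# The constant is determined modulo `p ^ n` by one field with perfect pairing

PROOF.  Let `n'` be as in `hP.ext`, `γ = gam p n`, `z = of γ - 1`.  Let `θ`, `θ'` be the elements in
`hc`, `hc'`; they are equal (`IsTheta.unique`, `Cpn_finite`).  Subtracting,
`algebraMap ((-1)^ν * ((c' - c) * v)) * D.reg p n' m f ∈ I^{r+1}`, where
`v = ∏ l ∈ m.primeFactors, (nsCard l) * inverse l` is a unit (`isUnit_cast`, `hm`).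
Let `b i j` be natural numbers with `f (pair m (x i) (n' • x j)) = γ ^ b i j` (`gam_pow_val`).  The
entries of the matrix in `D.reg p n' m f` are
`algebraMap (Ring.inverse n') * (of (γ ^ b i j) - 1)`, congruent modulo `I²` to
`algebraMap (β i j) * z`, `β i j = Ring.inverse n' * b i j` (`of (γ ^ b) - 1 ≡ b z`, see
`one_add_pow_exists` or `of_prod_zpow`), so by `det_cong`
`D.reg p n' m f ≡ algebraMap (det β) * z ^ r` modulo `I^{r+1}` (`Matrix.det_smul` or
`det (fun i j => β i j * z)`, `RingHom.map_det`).  `det β` is a unit: its image in `ZMod (p ^ n)` is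
the unit `(inverse of n')^r` times the determinant in `Perfect.det_unit` (an element of `ℤ_[p]` is a
unit if its image in `ZMod (p ^ n)`, `n ≥ 1`, is a unit: it is not divisible by `p`).
So `algebraMap a * z ^ r ∈ I^{r+1}` with `a = (-1)^ν (c' - c) v det β`, and `p ^ n ∣ a` by
`eval_dvd_of_push` (`ι = Unit`, `g = fun _ => γ`, `F = C a * X () ^ r`, `φ = id`, `t = 1`;
`push_id`).  Hence `p ^ n ∣ c' - c`.
-/

namespace MTate

open MonoidAlgebra

variable {p : ℕ} [hp : Fact p.Prime] {D : MTData}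

private theorem PerfC_unit {n : ℕ} (hn : 1 ≤ n) {u : ℤ_[p]}
    (h : IsUnit (PadicInt.toZModPow n u)) : IsUnit u := by
  by_contra hu
  have h1 : (p : ℤ_[p]) ∣ u := by
    rw [← PadicInt.norm_lt_one_iff_dvd]
    rw [PadicInt.isUnit_iff] at hu
    exact lt_of_le_of_ne (PadicInt.norm_le_one _) hu
  obtain ⟨w, rfl⟩ := h1
  rw [map_mul, map_natCast] at h
  have h2 : IsUnit ((p : ℕ) : ZMod (p ^ n)) := isUnit_of_mul_isUnit_left h
  rw [ZMod.isUnit_iff_coprime] at h2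
  have h3 : p ∣ Nat.gcd p (p ^ n) := Nat.dvd_gcd dvd_rfl (dvd_pow_self p (by omega))
  rw [h2] at h3
  exact hp.out.one_lt.ne' (Nat.dvd_one.1 h3)

private theorem PerfC_cong {n : ℕ} {c : ℤ_[p]} {y : Cpn p n} {b : ℕ} (hb : gam p n ^ b = y) :
    Cong (augI ℤ_[p] (Cpn p n)) 1
      (algebraMap ℤ_[p] (MonoidAlgebra ℤ_[p] (Cpn p n)) c * (of ℤ_[p] (Cpn p n) y - 1))
      ((of ℤ_[p] (Cpn p n) (gam p n) - 1) *
        algebraMap ℤ_[p] (MonoidAlgebra ℤ_[p] (Cpn p n)) (c * (b : ℤ_[p]))) := by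
  refine ⟨?_, ?_⟩
  · rw [pow_one]
    exact Ideal.mul_mem_left _ _ (of_sub_one_mem _)
  · have h1 := of_prod_zpow (p := p) (fun _ : Unit => gam p n) fun _ => (b : ℤ)
    rw [Finset.univ_unique, Finset.prod_singleton, Finset.sum_singleton, zpow_natCast,
      Int.cast_natCast, hb] at h1
    have h2 := Ideal.mul_mem_left _ (algebraMap ℤ_[p] (MonoidAlgebra ℤ_[p] (Cpn p n)) c) h1
    have h3 : algebraMap ℤ_[p] (MonoidAlgebra ℤ_[p] (Cpn p n)) c * (of ℤ_[p] (Cpn p n) y - 1) -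
        (of ℤ_[p] (Cpn p n) (gam p n) - 1) *
          algebraMap ℤ_[p] (MonoidAlgebra ℤ_[p] (Cpn p n)) (c * (b : ℤ_[p])) =
        algebraMap ℤ_[p] (MonoidAlgebra ℤ_[p] (Cpn p n)) c * (of ℤ_[p] (Cpn p n) y - 1 -
          algebraMap ℤ_[p] (MonoidAlgebra ℤ_[p] (Cpn p n)) (b : ℤ_[p]) *
            (of ℤ_[p] (Cpn p n) (gam p n) - 1)) := by
      rw [map_mul]
      ring
    rw [h3]
    exact h2

private theorem PerfC_dvd {n r : ℕ} (hr : r < p) {a : ℤ_[p]}
    (h : algebraMap ℤ_[p] (MonoidAlgebra ℤ_[p] (Cpn p n)) a *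
      (of ℤ_[p] (Cpn p n) (gam p n) - 1) ^ r ∈ augI ℤ_[p] (Cpn p n) ^ (r + 1)) :
    (p : ℤ_[p]) ^ n ∣ a := by
  have h1 := eval_dvd_of_push (p := p) (ι := Unit) (G := Cpn p n) (g := fun _ => gam p n)
    (k := r) (n := n) hr (F := MvPolynomial.C a * MvPolynomial.X () ^ r)
    (MvPolynomial.isHomogeneous_C_mul_X_pow a () r) (MonoidHom.id _) (fun _ => 1)
    (fun _ => by rw [pow_one]; rfl) (by
      rw [push_id]
      unfold Phi
      rw [map_mul, map_pow, MvPolynomial.aeval_X, MvPolynomial.aeval_C]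
      exact h)
  rw [map_mul, map_pow, MvPolynomial.eval_X, MvPolynomial.eval_C, Nat.cast_one, one_pow,
    mul_one] at h1
  exact h1

namespace MTData

private theorem PerfC_push (n m : ℕ) {G : Type*} [CommGroup G] (f : Gp m →* G)
    (i j : Fin D.r) : push f (D.height p n m i j) =
      algebraMap ℤ_[p] (MonoidAlgebra ℤ_[p] G) (Ring.inverse (n : ℤ_[p])) *
        (of ℤ_[p] G (f (D.pair m (D.x i) (n • D.x j))) - 1) := by
  unfold height
  rw [map_mul, AlgHom.commutes, map_sub, push_of, map_one]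

private theorem PerfC_reg {m n n' : ℕ} {f : Gp m →* Cpn p n} {b : Fin D.r → Fin D.r → ℕ}
    (hb : ∀ i j, gam p n ^ b i j = f (D.pair m (D.x i) (n' • D.x j))) :
    D.reg p n' m f - algebraMap ℤ_[p] (MonoidAlgebra ℤ_[p] (Cpn p n))
      (Matrix.of fun i j => Ring.inverse (n' : ℤ_[p]) * (b i j : ℤ_[p])).det *
        (of ℤ_[p] (Cpn p n) (gam p n) - 1) ^ D.r ∈ augI ℤ_[p] (Cpn p n) ^ (D.r + 1) := by
  have h0 : algebraMap ℤ_[p] (MonoidAlgebra ℤ_[p] (Cpn p n))
      (Matrix.of fun i j => Ring.inverse (n' : ℤ_[p]) * (b i j : ℤ_[p])).det *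
        (of ℤ_[p] (Cpn p n) (gam p n) - 1) ^ D.r =
      ((of ℤ_[p] (Cpn p n) (gam p n) - 1) •
        (algebraMap ℤ_[p] (MonoidAlgebra ℤ_[p] (Cpn p n))).mapMatrix
          (Matrix.of fun i j => Ring.inverse (n' : ℤ_[p]) * (b i j : ℤ_[p]))).det := by
    rw [Matrix.det_smul, Fintype.card_fin, RingHom.map_det, mul_comm]
  rw [h0]
  unfold reg
  refine (det_cong (I := augI ℤ_[p] (Cpn p n)) _ _ fun i j => ?_).2
  rw [Matrix.of_apply, PerfC_push]
  exact PerfC_cong (hb i j)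

private theorem PerfC_detUnit (hP : D.Pairing2 p) {m n : ℕ} (hm : D.Adm p m) (hn : 1 ≤ n)
    {f : Gp m →* Cpn p n} (h : D.Perfect p m f) {n' : ℕ} (hn' : p.Coprime n')
    (hES : ∀ j, D.InES m (n' • D.x j)) {b : Fin D.r → Fin D.r → ℕ}
    (hb : ∀ i j, gam p n ^ b i j = f (D.pair m (D.x i) (n' • D.x j))) :
    IsUnit (Matrix.of fun i j => Ring.inverse (n' : ℤ_[p]) * (b i j : ℤ_[p])).det := by
  apply PerfC_unit hn
  have h1 := h.det_unit hP hm hn hn' hES
  have h2 : (PadicInt.toZModPow n).mapMatrix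
      (Matrix.of fun i j => Ring.inverse (n' : ℤ_[p]) * (b i j : ℤ_[p])) =
      PadicInt.toZModPow n (Ring.inverse (n' : ℤ_[p])) • (Matrix.of fun i j =>
        Multiplicative.toAdd (f (D.pair m (D.x i) (n' • D.x j)))) := by
    ext i j
    rw [RingHom.mapMatrix_apply, Matrix.map_apply, Matrix.smul_apply, Matrix.of_apply,
      Matrix.of_apply, map_mul, map_natCast, ← hb i j, toAdd_pow, smul_eq_mul]
    congr 1
    show (b i j : ZMod (p ^ n)) = b i j • (1 : ZMod (p ^ n))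
    rw [nsmul_eq_mul, mul_one]
  rw [RingHom.map_det, h2, Matrix.det_smul]
  refine IsUnit.mul (IsUnit.pow _ ?_) h1
  exact IsUnit.map _ (isUnit_cast hn').ringInverse

private theorem PerfC_v {m : ℕ} (hm : D.Adm p m) : IsUnit (∏ l ∈ m.primeFactors,
    (nsCard D.W l : ℤ_[p]) * Ring.inverse (l : ℤ_[p])) := by
  rw [IsUnit.prod_iff]
  intro l hl
  refine IsUnit.mul (isUnit_cast (hm.2.2.2 l hl)) (IsUnit.ringInverse (isUnit_cast ?_))
  exact Nat.Coprime.coprime_dvd_right (Nat.dvd_of_mem_primeFactors hl) hm.2.2.1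

theorem const_unique (hr : D.r < p) (hP : D.Pairing2 p) {m n : ℕ} (hm : D.Adm p m) (hn : 1 ≤ n)
    {f : Gp m →* Cpn p n} (h : D.Perfect p m f) {c c' : ℤ_[p]} (hc : D.Q1c p c m f)
    (hc' : D.Q1c p c' m f) : (p : ℤ_[p]) ^ n ∣ c' - c := by
  obtain ⟨θ, hθ, -, h1⟩ := hc
  obtain ⟨θ', hθ', -, h2⟩ := hc'
  have hfin := Cpn_finite (p := p) n
  have e := hθ.unique hθ'
  subst e
  obtain ⟨n', hn', hES⟩ := hP.ext m hm
  have h3 := Ideal.sub_mem _ (h1 n' hn' hES) (h2 n' hn' hES)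
  choose b hb using fun i j => gam_pow_val (f (D.pair m (D.x i) (n' • D.x j)))
  have h4 := PerfC_reg (D := D) hb
  have hu := PerfC_detUnit hP hm hn h hn' hES hb
  have hv := PerfC_v (D := D) (p := p) hm
  revert h3 h4 hu hv
  generalize (Matrix.of fun i j => Ring.inverse (n' : ℤ_[p]) * (b i j : ℤ_[p])).det = B
  generalize (∏ l ∈ m.primeFactors, (nsCard D.W l : ℤ_[p]) * Ring.inverse (l : ℤ_[p])) = v
  generalize D.reg p n' m f = R
  intro h3 h4 hu hv
  have h5 : algebraMap ℤ_[p] (MonoidAlgebra ℤ_[p] (Cpn p n))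
      ((-1) ^ m.primeFactors.card * ((c' - c) * v) * B) *
      (of ℤ_[p] (Cpn p n) (gam p n) - 1) ^ D.r ∈ augI ℤ_[p] (Cpn p n) ^ (D.r + 1) := by
    have h6 := Ideal.mul_mem_left _ (algebraMap ℤ_[p] (MonoidAlgebra ℤ_[p] (Cpn p n))
      ((-1) ^ m.primeFactors.card * ((c' - c) * v))) h4
    have h7 := Ideal.sub_mem _ h3 h6
    convert h7 using 1
    simp only [map_mul, map_sub]
    ring
  have h8 := PerfC_dvd hr h5
  have h9 : IsUnit ((-1 : ℤ_[p]) ^ m.primeFactors.card) := (isUnit_one.neg).pow _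
  rw [hu.dvd_mul_right, h9.dvd_mul_left, hv.dvd_mul_right] at h8
  exact h8

end MTData

end MTate
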