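import Mathlib
import Pool.Agent.Lib.MP_5deabe_nt_DF.Level
import Pool.Agent.Lib.MP_5deabe_nt_DF.PerfC

/-!
# The leading term formula up to a constant
-/

namespace MTate

open MonoidAlgebra

variable {p : ℕ} [hp : Fact p.Prime] {D : MTData}

theorem pow_mul_mem_of_lev {n : ℕ} {G : Type*} [CommGroup G] (hG : MTData.Lev p n G) {k : ℕ}
    (hk : 1 ≤ k) {y : MonoidAlgebra ℤ_[p] G} (hy : y ∈ augI ℤ_[p] G ^ k) :
    algebraMap ℤ_[p] (MonoidAlgebra ℤ_[p] G) ((p : ℤ_[p]) ^ n) * y ∈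
      augI ℤ_[p] G ^ (k + 1) := by
  obtain ⟨q, hq, hq'⟩ := hG
  have hq0 : q ≠ 0 := by
    rintro rfl
    rw [Nat.coprime_zero_right] at hq
    exact hp.out.one_lt.ne' hq
  have hN : p ^ n * q ≠ 0 := Nat.mul_ne_zero (pow_ne_zero _ hp.out.ne_zero) hq0
  have hfac : (p ^ n * q).factorization p = n := by
    rw [Nat.factorization_mul (pow_ne_zero _ hp.out.ne_zero) hq0, Finsupp.add_apply,
      Nat.Prime.factorization_pow hp.out, Finsupp.single_eq_same,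
      Nat.factorization_eq_zero_of_not_dvd ((Nat.Prime.coprime_iff_not_dvd hp.out).mp hq),
      add_zero]
  -- `p ^ n I ⊆ I ^ 2`
  have h1 : ∀ z ∈ augI ℤ_[p] G,
      algebraMap ℤ_[p] (MonoidAlgebra ℤ_[p] G) ((p : ℤ_[p]) ^ n) * z ∈ augI ℤ_[p] G ^ 2 := by
    intro z hz
    have hcl : Subgroup.closure (Set.univ : Set G) = ⊤ := Subgroup.closure_univ
    have h2 := augI_le_span (R := ℤ_[p]) hcl hz
    refine Submodule.span_induction (p := fun z _ =>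
      algebraMap ℤ_[p] (MonoidAlgebra ℤ_[p] G) ((p : ℤ_[p]) ^ n) * z ∈ augI ℤ_[p] G ^ 2)
      ?_ ?_ ?_ ?_ h2
    · rintro _ ⟨g, -, rfl⟩
      have h3 := pow_mul_sub_one_mem (p := p) hN (hq' g)
      rw [hfac] at h3
      exact h3
    · simp
    · intro u v _ _ hu hv
      rw [mul_add]
      exact Ideal.add_mem _ hu hv
    · intro a v _ hv
      rw [smul_eq_mul, mul_left_comm]
      exact Ideal.mul_mem_left _ _ hv
  obtain ⟨k', rfl⟩ : ∃ k', k = k' + 1 := ⟨k - 1, by omega⟩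
  rw [pow_succ'] at hy
  refine Submodule.mul_induction_on hy ?_ ?_
  · intro u hu v hv
    rw [← mul_assoc, show k' + 1 + 1 = 2 + k' from by ring, pow_add]
    exact Ideal.mul_mem_mul (h1 u hu) hv
  · intro u v hu hv
    rw [mul_add]
    exact Ideal.add_mem _ hu hv

namespace MTData

theorem Q1c.congr (hr1 : 1 ≤ D.r) {n : ℕ} {c c' : ℤ_[p]} (hc : (p : ℤ_[p]) ^ n ∣ c' - c) {m : ℕ}
    {G : Type} [CommGroup G] (hG : Lev p n G) {f : Gp m →* G} (h : D.Q1c p c m f) :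
    D.Q1c p c' m f := by
  obtain ⟨θ, h1, h2, h3⟩ := h
  refine ⟨θ, h1, h2, fun n' hn' hES => ?_⟩
  have h4 := h3 n' hn' hES
  obtain ⟨b, hb⟩ := hc
  set v : ℤ_[p] := ∏ l ∈ m.primeFactors, (nsCard D.W l : ℤ_[p]) * Ring.inverse (l : ℤ_[p])
  have h5 := pow_mul_mem_of_lev hG hr1 (Ideal.mul_mem_left _
    (algebraMap ℤ_[p] (MonoidAlgebra ℤ_[p] G) ((-1) ^ m.primeFactors.card * (b * v)))
    (reg_mem (p := p) (D := D) n' m f))
  have h6 := Ideal.sub_mem _ h4 h5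
  have hc' : c' = c + p ^ n * b := by rw [← hb]; ring
  convert! h6 using 1
  rw [hc']
  simp only [map_mul, map_add]
  ring

/-- (V) implies the leading term formula up to a constant -/
theorem main_const (hD : D.Valid p) (hr1 : 1 ≤ D.r) (hr : D.r < p)
    (hI : ∀ m, D.Adm p m → D.Integral p m) (hP : D.Pairing2 p) (S : Set ℕ) (t : ℕ → ℕ)
    (ht : ∀ n ∈ S, 1 ≤ n ∧ D.Adm p (t n) ∧ (∀ l ∈ (t n).primeFactors, p ^ n ∣ l - 1) ∧
      D.Independent p (t n)) (hV : ∀ n ∈ S, D.Vanish p n (t n)) :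
    ∃ c : ℤ_[p], ∀ n ∈ S, ∀ m, D.Adm p m → ∀ (G : Type) [CommGroup G] (f : Gp m →* G),
      IsField m f → Lev p n G → D.Q1c p c m f := by
  let Cn : S → Set ℤ_[p] := fun n => {c | ∀ m, D.Adm p m → ∀ (G : Type) [CommGroup G]
    (f : Gp m →* G), IsField m f → Lev p (n : ℕ) G → D.Q1c p c m f}
  rcases isEmpty_or_nonempty S with hemp | hne
  · exact ⟨0, fun n hn => (hemp.false ⟨n, hn⟩).elim⟩
  have hcl : ∀ n, IsClosed (Cn n) := by
    intro n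
    rw [← isOpen_compl_iff, Metric.isOpen_iff]
    intro c hc
    refine ⟨(p : ℝ) ^ (-(n : ℕ) : ℤ), zpow_pos (by exact_mod_cast hp.out.pos) _,
      fun c' hc' hc'n => hc ?_⟩
    rw [Metric.mem_ball, dist_eq_norm] at hc'
    have h1 : (p : ℤ_[p]) ^ (n : ℕ) ∣ c - c' := by
      rw [← Ideal.mem_span_singleton, ← PadicInt.norm_le_pow_iff_mem_span_pow, norm_sub_rev]
      exact hc'.le
    intro m hm G _ f hf hG
    exact Q1c.congr hr1 h1 hG (hc'n m hm G f hf hG)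
  have hlev : ∀ {a b : ℕ}, a ≤ b → ∀ (G : Type) [CommGroup G], Lev p a G → Lev p b G := by
    rintro a b hab G _ ⟨k, hk, hk'⟩
    refine ⟨k, hk, fun g => ?_⟩
    rw [← Nat.sub_add_cancel hab, pow_add, mul_assoc, mul_comm, pow_mul, hk', one_pow]
  have hdir : Directed (· ⊇ ·) Cn := by
    intro a b
    rcases le_total (a : ℕ) (b : ℕ) with h | h
    · exact ⟨b, fun c hc m hm G _ f hf hG => hc m hm G f hf (hlev h G hG), subset_rfl⟩
    · exact ⟨a, subset_rfl, fun c hc m hm G _ f hf hG => hc m hm G f hf (hlev h G hG)⟩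
  have hnon : ∀ n, (Cn n).Nonempty := by
    rintro ⟨n, hn⟩
    obtain ⟨hn1, ht, htp, hind⟩ := ht n hn
    exact exists_const hD hr1 hr hI hP hn1 ht htp hind (hV n hn)
  obtain ⟨c, hc⟩ := IsCompact.nonempty_iInter_of_directed_nonempty_isCompact_isClosed Cn hdir
    hnon (fun n => (hcl n).isCompact) hcl
  refine ⟨c, fun n hn m hm G _ f hf hG => ?_⟩
  exact Set.mem_iInter.mp hc ⟨n, hn⟩ m hm G f hf hG

/-- **The main theorem.** -/
theorem main (hD : D.Valid p) (hr1 : 1 ≤ D.r) (hr : D.r < p)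
    (hI : ∀ m, D.Adm p m → D.Integral p m) (hP : D.Pairing2 p) (S : Set ℕ) (t : ℕ → ℕ)
    (ht : ∀ n ∈ S, 1 ≤ n ∧ D.Adm p (t n) ∧ (∀ l ∈ (t n).primeFactors, p ^ n ∣ l - 1) ∧
      D.Independent p (t n)) :
    ((∀ n ∈ S, D.Vanish p n (t n)) ↔ ∃ c : ℤ_[p], ∀ n ∈ S, ∀ m, D.Adm p m →
      ∀ (G : Type) [CommGroup G] (f : Gp m →* G), IsField m f → Lev p n G →
        D.Q1c p c m f) ∧
    ((∀ n ∈ S, ∀ m, D.Adm p m → ∀ (G : Type) [CommGroup G] (f : Gp m →* G), IsField m f →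
      Lev p n G → D.Q1 p m f) ↔ (∀ n ∈ S, D.Vanish p n (t n)) ∧
        ∀ n ∈ S, ∃ (m : ℕ) (f : Gp m →* Cpn p n), D.Adm p m ∧ IsField m f ∧
          D.Perfect p m f ∧ D.Q1 p m f) := by
  refine ⟨⟨main_const hD hr1 hr hI hP S t ht, fun ⟨c, hc⟩ n hn =>
    vanish_of_q1c (hc n hn) (t n)⟩, fun h => ⟨fun n hn => ?_, fun n hn => ?_⟩, ?_⟩
  · exact vanish_of_q1c (fun m hm G _ f hf hG => (q1_iff hm f).mp (h n hn m hm G f hf hG)) (t n)
  · obtain ⟨hn1, ht1, htp, hind⟩ := ht n hn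
    obtain ⟨n', hn', hES⟩ := hP.ext (t n) ht1
    obtain ⟨d, f, hd, hf, hperf, -⟩ := exists_perfect hD hr1 hP hn1 ht1 htp hind hn' hES
    exact ⟨d, f, ht1.of_dvd hd, hf, hperf, h n hn d (ht1.of_dvd hd) _ f hf (lev_Cpn le_rfl)⟩
  · rintro ⟨hV, hF⟩ n hn m hm G _ f hf hG
    obtain ⟨c, hc⟩ := main_const hD hr1 hr hI hP S t ht hV
    obtain ⟨m₀, f₀, hm₀, hf₀, hperf, hQ⟩ := hF n hn
    have h1 := hc n hn m₀ hm₀ (Cpn p n) f₀ hf₀ (lev_Cpn le_rfl)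
    have h2 := const_unique hr hP hm₀ (ht n hn).1 hperf h1 ((q1_iff hm₀ f₀).mp hQ)
    exact (q1_iff hm f).mpr (Q1c.congr hr1 h2 hG (hc n hn m hm G f hf hG))

end MTData

end MTate
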